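import Pool.Agent.W761.Gauss.Dens

/-!
# Multiple averages for Gaussian actions
-/

set_option autoImplicit false

open Filter Topology MeasureTheory ProbabilityTheory
open scoped NNReal ENNReal

noncomputable section

namespace Pool.Agent.W761.Gauss

variable {X : Type} [MeasurableSpace X] {μ : Measure X} {H : Submodule ℝ (X → ℝ)}
variable {J : Type*} [Fintype J] [DecidableEq J]

/-- Convergence for bounded measurable functions. -/
theorem GaussSpace.Cv_BM [IsProbabilityMeasure μ] (hH : GaussSpace μ H)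
    (hgen : ∀ A, MeasurableSet A → ∃ B, MeasurableSet[sig H] B ∧ A =ᵐ[μ] B)
    {b : ℤ → ℤ} (hb : PG b)
    {S : J → Equiv.Perm X} (hS : ∀ j, Adm μ H (S j)) (hc : ∀ j k, Commute (S j) (S k))
    {F : J → X → ℂ} (hF : ∀ j, BM (F j)) : Cv μ S b F := by
  have key : ∀ (A : Finset J) (F : J → X → ℂ), (∀ j ∈ A, BM (F j)) →
      (∀ j ∉ A, ∃ h ∈ H, F j = fun x => ex (h x)) → Cv μ S b F := by
    intro A
    induction A using Finset.induction_on with
    | empty =>
      intro F _ h2
      choose h hh hFh using fun j => h2 j (Finset.notMem_empty j)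
      have h3 : F = fun j x => ex (h j x) := by
        funext j
        exact hFh j
      rw [h3]
      exact hH.Cv_exp hb hS hc hh
    | insert j A hj ih =>
      intro F h1 h2
      have hBMall : ∀ l, BM (F l) := by
        intro l
        by_cases hl : l ∈ insert j A
        · exact h1 l hl
        · obtain ⟨h, hh, e⟩ := h2 l hl
          rw [e]
          exact ⟨meas_exh hH hh, 1, fun x => (norm_ex _).le⟩
      have hbmj : BM (F j) := hBMall j
      have hmain : Cv μ S b (Function.update F j (F j)) := by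
        refine Cv_closed (fun l => (hS l).mp) (fun l => (hS l).mp'.measurable) hb hBMall hbmj ?_
        intro ε hε
        obtain ⟨hfm, C, hC⟩ := hbmj
        have hmem : MemLp (F j) 2 μ := MemLp.of_bound hfm.aestronglyMeasurable C
          (Eventually.of_forall hC)
        obtain ⟨g, hg, hfg⟩ := dense_EP hH hgen hmem hε
        have hg' : BM g ∧ Cv μ S b (Function.update F j g) := by
          refine Submodule.span_induction
            (p := fun (g : X → ℂ) _ => BM g ∧ Cv μ S b (Function.update F j g)) ?_ ?_ ?_ ?_ hg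
          · rintro _ ⟨h, hh, rfl⟩
            refine ⟨⟨meas_exh hH hh, 1, fun x => (norm_ex _).le⟩, ?_⟩
            apply ih
            · intro l hl
              have hlj : l ≠ j := fun e => hj (e ▸ hl)
              rw [Function.update_of_ne hlj]
              exact h1 l (Finset.mem_insert_of_mem hl)
            · intro l hl
              by_cases hlj : l = j
              · subst hlj
                exact ⟨h, hh, by rw [Function.update_self]⟩
              · rw [Function.update_of_ne hlj]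
                apply h2
                intro hmem'
                rcases Finset.mem_insert.mp hmem' with h5 | h5
                · exact hlj h5
                · exact hl h5
          · exact ⟨⟨measurable_const, 0, fun x => by simp⟩, Cv_zero⟩
          · rintro g₁ g₂ _ _ ⟨⟨m₁, C₁, b₁⟩, c₁⟩ ⟨⟨m₂, C₂, b₂⟩, c₂⟩
            exact ⟨⟨m₁.add m₂, C₁ + C₂, fun x => (norm_add_le _ _).trans
              (add_le_add (b₁ x) (b₂ x))⟩, Cv_add c₁ c₂⟩
          · rintro c g₁ _ ⟨⟨m₁, C₁, b₁⟩, c₁⟩
            refine ⟨⟨m₁.const_smul c, ‖c‖ * C₁, fun x => ?_⟩, Cv_smul c c₁⟩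
            rw [Pi.smul_apply, norm_smul]
            exact mul_le_mul_of_nonneg_left (b₁ x) (norm_nonneg _)
        exact ⟨g, hg'.1, hfg, hg'.2⟩
      rwa [Function.update_eq_self] at hmain
  exact key Finset.univ F (fun j _ => hF j) fun j hj => absurd (Finset.mem_univ j) hj

/-- The saturation of `H` modulo null sets. -/
def sat (μ : Measure X) (H : Submodule ℝ (X → ℝ)) : Submodule ℝ (X → ℝ) where
  carrier := {g | Measurable g ∧ ∃ h ∈ H, g =ᵐ[μ] h}
  add_mem' := by
    rintro a b ⟨ha, a', ha', ea⟩ ⟨hb, b', hb', eb⟩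
    exact ⟨ha.add hb, a' + b', H.add_mem ha' hb', ea.add eb⟩
  zero_mem' := ⟨measurable_const, 0, H.zero_mem, Filter.EventuallyEq.rfl⟩
  smul_mem' := by
    rintro c a ⟨ha, a', ha', ea⟩
    exact ⟨ha.const_smul c, c • a', H.smul_mem c ha', ea.const_smul c⟩

theorem GaussSpace.sat (hH : GaussSpace μ H) : GaussSpace μ (sat μ H) where
  meas := fun _ hg => hg.1
  law := by
    rintro g ⟨_, h, hh, e⟩
    obtain ⟨v, hv⟩ := hH.law h hh
    exact ⟨v, by rw [Measure.map_congr e, hv]⟩

theorem le_sat (hH : GaussSpace μ H) : H ≤ sat μ H := fun h hh =>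
  ⟨hH.meas h hh, h, hh, Filter.EventuallyEq.rfl⟩

omit [MeasurableSpace X] in
theorem sig_mono {H H' : Submodule ℝ (X → ℝ)} (h : H ≤ H') : sig H ≤ sig H' := by
  apply iSup_le
  intro g
  exact le_iSup (fun g : H' => MeasurableSpace.comap (g : X → ℝ) inferInstance) ⟨g.1, h g.2⟩

/-- `T` is a Gaussian action of `ℤ^d` on the probability space `(X, μ)`: the maps `T i` are
invertible, measurable with measurable inverse, measure preserving and commute, and there is a
linear space `H` of centered Gaussian random variables on `X` which is invariant (modulo null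
sets) under the action and generates the σ-algebra of `X` modulo null sets. -/
structure IsGaussianAction {X : Type} [MeasurableSpace X] (μ : Measure X) {d : ℕ}
    (T : Fin d → Equiv.Perm X) : Prop where
  meas_symm : ∀ i, Measurable (T i).symm
  mp : ∀ i, MeasurePreserving (T i) μ μ
  comm : ∀ i j, Commute (T i) (T j)
  gauss : ∃ H : Submodule ℝ (X → ℝ),
    (∀ h ∈ H, Measurable h ∧ ∃ v : ℝ≥0, μ.map h = gaussianReal 0 v) ∧
    (∀ i, ∀ h ∈ H, (∃ h' ∈ H, h ∘ T i =ᵐ[μ] h') ∧ (∃ h' ∈ H, h ∘ (T i).symm =ᵐ[μ] h')) ∧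
    (∀ A, MeasurableSet A → ∃ B,
      MeasurableSet[⨆ h : H, MeasurableSpace.comap (h : X → ℝ) inferInstance] B ∧ A =ᵐ[μ] B)

theorem prod_zpow_aux {G : Type*} [Group G] {d : ℕ} (T : Fin d → G)
    (hc : ∀ i j, Commute (T i) (T j)) (a : Fin d → ℤ) (k : ℤ) :
    (List.ofFn fun i => T i ^ (a i * k)).prod = (List.ofFn fun i => T i ^ a i).prod ^ k := by
  induction d with
  | zero => simp
  | succ d ih =>
    rw [List.ofFn_succ, List.ofFn_succ, List.prod_cons, List.prod_cons]
    have h1 := ih (fun i => T i.succ) (fun i j => hc _ _) fun i => a i.succ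
    rw [h1, zpow_mul]
    have h2 : Commute (T 0 ^ a 0) (List.ofFn fun i : Fin d => T i.succ ^ a i.succ).prod := by
      apply Commute.list_prod_right
      intro y hy
      obtain ⟨i, rfl⟩ := (List.mem_ofFn' _ _).mp hy
      exact ((hc 0 i.succ).zpow_left _).zpow_right _
    rw [h2.mul_zpow]

theorem adm_prod {d : ℕ} {T : Fin d → Equiv.Perm X} (hT : ∀ i, Adm μ H (T i)) (a : Fin d → ℤ) :
    Adm μ H (List.ofFn fun i => T i ^ a i).prod := by
  induction d with
  | zero => simpa using Adm.one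
  | succ d ih =>
    rw [List.ofFn_succ, List.prod_cons]
    exact ((hT 0).zpow _).mul (ih (T := fun i => T i.succ) (fun i => hT _) _)

/-- Convergence for bounded measurable functions on a Gaussian action. -/
theorem IsGaussianAction.conv [IsProbabilityMeasure μ] {d m : ℕ} {T : Fin d → Equiv.Perm X}
    (hT : IsGaussianAction μ T) {b : ℤ → ℤ} (hb : PG b) (a : Fin d → Fin m → ℤ)
    {f : Fin m → X → ℂ} (hf : ∀ j, BM (f j)) :
    ∀ᵐ x ∂μ, ∃ L : ℂ, Tendsto (A2 fun n => ∏ j, f j
      ((List.ofFn fun i : Fin d => T i ^ (a i j * b n)).prod x)) atTop (𝓝 L) := by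
  obtain ⟨H, h1, h2, h3⟩ := hT.gauss
  have hH : GaussSpace μ H := ⟨fun h hh => (h1 h hh).1, fun h hh => (h1 h hh).2⟩
  have hadm : ∀ i, Adm μ (sat μ H) (T i) := by
    intro i
    have hinv : MeasurePreserving ((T i)⁻¹ : Equiv.Perm X) μ μ := by
      let e : X ≃ᵐ X := ⟨T i, (hT.mp i).measurable, hT.meas_symm i⟩
      exact (hT.mp i).symm e
    refine ⟨hT.mp i, hinv, ?_, ?_⟩
    · rintro g ⟨hg, h, hh, e⟩
      obtain ⟨h', hh', e'⟩ := (h2 i h hh).1
      refine ⟨hg.comp (hT.mp i).measurable, h', hh', ?_⟩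
      exact ((hT.mp i).quasiMeasurePreserving.ae_eq_comp e).trans e'
    · rintro g ⟨hg, h, hh, e⟩
      obtain ⟨h', hh', e'⟩ := (h2 i h hh).2
      refine ⟨hg.comp hinv.measurable, h', hh', ?_⟩
      exact (hinv.quasiMeasurePreserving.ae_eq_comp e).trans e'
  let S : Fin m → Equiv.Perm X := fun j => (List.ofFn fun i : Fin d => T i ^ a i j).prod
  have hS : ∀ j, Adm μ (sat μ H) (S j) := fun j => adm_prod hadm _
  have hc : ∀ j k, Commute (S j) (S k) := by
    intro j k
    apply Commute.list_prod_right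
    intro y hy
    obtain ⟨i, rfl⟩ := (List.mem_ofFn' _ _).mp hy
    apply Commute.list_prod_left
    intro z hz
    obtain ⟨i', rfl⟩ := (List.mem_ofFn' _ _).mp hz
    exact ((hT.comm i' i).zpow_left _).zpow_right _
  have hgen : ∀ A, MeasurableSet A → ∃ B, MeasurableSet[sig (sat μ H)] B ∧ A =ᵐ[μ] B := by
    intro A hA
    obtain ⟨B, hB, e⟩ := h3 A hA
    exact ⟨B, sig_mono (le_sat hH) B hB, e⟩
  have hmain := hH.sat.Cv_BM hgen hb hS hc hf
  filter_upwards [hmain] with x hx
  obtain ⟨L, hL⟩ := hx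
  refine ⟨L, hL.congr fun N => ?_⟩
  congr 1
  funext n
  apply Finset.prod_congr rfl
  intro j _
  rw [prod_zpow_aux T hT.comm]

/-- `(Y, ν, R)` is a factor of `(X, μ, T)`. -/
def IsFactor {X Y : Type} [MeasurableSpace X] [MeasurableSpace Y] (μ : Measure X) {d : ℕ}
    (T : Fin d → Equiv.Perm X) (ν : Measure Y) (R : Fin d → Equiv.Perm Y) : Prop :=
  ∃ π : X → Y, MeasurePreserving π μ ν ∧ ∀ i, ∀ᵐ x ∂μ, π (T i x) = R i (π x)

section factor

variable {Y : Type} [MeasurableSpace Y] {ν : Measure Y}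

omit [MeasurableSpace Y] in
theorem inter_zpow {π : X → Y} {T : Equiv.Perm X} {R : Equiv.Perm Y}
    (hT : MeasurePreserving T μ μ) (hT' : MeasurePreserving (T⁻¹ : Equiv.Perm X) μ μ)
    (h : ∀ᵐ x ∂μ, π (T x) = R (π x)) (n : ℤ) : ∀ᵐ x ∂μ, π ((T ^ n) x) = (R ^ n) (π x) := by
  have key : ∀ (T : Equiv.Perm X) (R : Equiv.Perm Y), MeasurePreserving T μ μ →
      (∀ᵐ x ∂μ, π (T x) = R (π x)) → ∀ n : ℕ, ∀ᵐ x ∂μ, π ((T ^ n) x) = (R ^ n) (π x) := by
    intro T R hT h n
    induction n with
    | zero => exact Eventually.of_forall fun x => rfl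
    | succ n ih =>
      have h1 := hT.quasiMeasurePreserving.ae ih
      filter_upwards [h1, h] with x hx hx'
      rw [pow_succ, pow_succ, Equiv.Perm.mul_apply, Equiv.Perm.mul_apply, hx, hx']
  cases n with
  | ofNat n => exact key T R hT h n
  | negSucc n =>
    rw [zpow_negSucc, zpow_negSucc, ← inv_pow, ← inv_pow]
    apply key _ _ hT'
    have h1 := hT'.quasiMeasurePreserving.ae h
    filter_upwards [h1] with x hx
    have h2 : T ((T⁻¹ : Equiv.Perm X) x) = x := Equiv.apply_symm_apply T x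
    rw [h2] at hx
    rw [hx]
    exact (Equiv.symm_apply_apply R _).symm

theorem mp_zpow {T : Equiv.Perm X} (hT : MeasurePreserving T μ μ)
    (hT' : MeasurePreserving (T⁻¹ : Equiv.Perm X) μ μ) (n : ℤ) :
    MeasurePreserving (T ^ n : Equiv.Perm X) μ μ := by
  have key : ∀ (T : Equiv.Perm X), MeasurePreserving T μ μ → ∀ n : ℕ,
      MeasurePreserving (T ^ n : Equiv.Perm X) μ μ := by
    intro T hT n
    rw [← Equiv.Perm.iterate_eq_pow]
    exact hT.iterate n
  cases n with
  | ofNat n => exact key T hT n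
  | negSucc n =>
    rw [zpow_negSucc, ← inv_pow]
    exact key _ hT' _

theorem mp_prod {d : ℕ} {T : Fin d → Equiv.Perm X} (hT : ∀ i, MeasurePreserving (T i) μ μ)
    (hT' : ∀ i, MeasurePreserving ((T i)⁻¹ : Equiv.Perm X) μ μ) (a : Fin d → ℤ) :
    MeasurePreserving (List.ofFn fun i => T i ^ a i).prod μ μ := by
  induction d with
  | zero =>
    rw [List.ofFn_zero, List.prod_nil]
    exact MeasurePreserving.id μ
  | succ d ih =>
    rw [List.ofFn_succ, List.prod_cons]
    exact (mp_zpow (hT 0) (hT' 0) _).comp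
      (ih (T := fun i => T i.succ) (fun i => hT _) (fun i => hT' _) _)

omit [MeasurableSpace Y] in
theorem inter_prod {d : ℕ} {π : X → Y} {T : Fin d → Equiv.Perm X} {R : Fin d → Equiv.Perm Y}
    (hT : ∀ i, MeasurePreserving (T i) μ μ)
    (hT' : ∀ i, MeasurePreserving ((T i)⁻¹ : Equiv.Perm X) μ μ)
    (h : ∀ i, ∀ᵐ x ∂μ, π (T i x) = R i (π x)) (a : Fin d → ℤ) :
    ∀ᵐ x ∂μ, π ((List.ofFn fun i => T i ^ a i).prod x) =
      (List.ofFn fun i => R i ^ a i).prod (π x) := by
  induction d with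
  | zero => exact Eventually.of_forall fun x => by simp
  | succ d ih =>
    have h1 := ih (T := fun i => T i.succ) (R := fun i => R i.succ) (fun i => hT _)
      (fun i => hT' _) (fun i => h _) fun i => a i.succ
    have h2 := inter_zpow (hT 0) (hT' 0) (h 0) (a 0)
    have h3 := (mp_prod (T := fun i => T i.succ) (fun i => hT _) (fun i => hT' _)
      fun i => a i.succ).quasiMeasurePreserving.ae h2
    filter_upwards [h1, h3] with x hx1 hx3
    rw [List.ofFn_succ, List.prod_cons, List.ofFn_succ, List.prod_cons, Equiv.Perm.mul_apply,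
      Equiv.Perm.mul_apply, hx3, hx1]

theorem BM_of_memLp {f : Y → ℂ} (hf : MemLp f ∞ ν) : ∃ g : Y → ℂ, BM g ∧ f =ᵐ[ν] g := by
  obtain ⟨g, hgm, hfg⟩ := hf.1
  have hg : MemLp g ∞ ν := (memLp_congr_ae hfg).mp hf
  obtain ⟨C, hC⟩ : ∃ C : ℝ, ∀ᵐ x ∂ν, ‖g x‖ ≤ C := by
    have h1 : eLpNormEssSup g ν < ∞ := by
      have := hg.2
      rwa [eLpNorm_exponent_top] at this
    refine ⟨(eLpNormEssSup g ν).toReal, ?_⟩
    filter_upwards [ae_le_eLpNormEssSup (f := g) (μ := ν)] with x hx
    rw [← toReal_enorm]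
    exact ENNReal.toReal_mono h1.ne hx
  refine ⟨fun x => if ‖g x‖ ≤ C then g x else 0, ⟨?_, |C|, fun x => ?_⟩, ?_⟩
  · exact Measurable.ite (measurableSet_le hgm.measurable.norm measurable_const) hgm.measurable
      measurable_const
  · show ‖if ‖g x‖ ≤ C then g x else 0‖ ≤ |C|
    split_ifs with h
    · exact h.trans (le_abs_self _)
    · simp
  · filter_upwards [hfg, hC] with x hx hx'
    rw [hx, if_pos hx']

/-- Convergence for the factors of Gaussian actions. -/
theorem factor_conv [IsProbabilityMeasure μ] {d m : ℕ} {T : Fin d → Equiv.Perm X}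
    (hT : IsGaussianAction μ T) {R : Fin d → Equiv.Perm Y}
    (hRm : ∀ i, Measurable (R i).symm) (hR : ∀ i, MeasurePreserving (R i) ν ν)
    (hfac : IsFactor μ T ν R) {b : ℤ → ℤ} (hb : PG b) (a : Fin d → Fin m → ℤ)
    {f : Fin m → Y → ℂ} (hf : ∀ j, MemLp (f j) ∞ ν) :
    ∀ᵐ y ∂ν, ∃ L : ℂ, Tendsto (A2 fun n => ∏ j, f j
      ((List.ofFn fun i : Fin d => R i ^ (a i j * b n)).prod y)) atTop (𝓝 L) := by
  obtain ⟨π, hπ, hπT⟩ := hfac
  have hT' : ∀ i, MeasurePreserving ((T i)⁻¹ : Equiv.Perm X) μ μ := by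
    intro i
    let e : X ≃ᵐ X := ⟨T i, (hT.mp i).measurable, hT.meas_symm i⟩
    exact (hT.mp i).symm e
  have hR' : ∀ i, MeasurePreserving ((R i)⁻¹ : Equiv.Perm Y) ν ν := by
    intro i
    let e : Y ≃ᵐ Y := ⟨R i, (hR i).measurable, hRm i⟩
    exact (hR i).symm e
  choose g hg hfg using fun j => BM_of_memLp (hf j)
  have h1 := hT.conv hb a (f := fun j => g j ∘ π) fun j => by
    obtain ⟨gm, C, hC⟩ := hg j
    exact ⟨gm.comp hπ.measurable, C, fun x => hC _⟩
  have h2 : ∀ᵐ x ∂μ, ∀ (n : ℤ) (j : Fin m),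
      π ((List.ofFn fun i : Fin d => T i ^ (a i j * b n)).prod x) =
      (List.ofFn fun i : Fin d => R i ^ (a i j * b n)).prod (π x) := by
    rw [ae_all_iff]
    intro n
    rw [ae_all_iff]
    intro j
    exact inter_prod hT.mp hT' hπT _
  have hgR : ∀ (n : ℤ), Measurable fun y => ∏ j, g j
      ((List.ofFn fun i : Fin d => R i ^ (a i j * b n)).prod y) := by
    intro n
    apply Finset.measurable_fun_prod
    intro j _
    exact (hg j).1.comp (mp_prod hR hR' _).measurable
  have hms : MeasurableSet {y | ∃ L : ℂ, Tendsto (A2 fun n => ∏ j, g j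
      ((List.ofFn fun i : Fin d => R i ^ (a i j * b n)).prod y)) atTop (𝓝 L)} := by
    apply measurableSet_exists_tendsto
    intro N
    unfold A2
    exact (Finset.measurable_fun_sum _ fun n _ => hgR n).const_mul _
  have h3 : ∀ᵐ x ∂μ, π x ∈ {y | ∃ L : ℂ, Tendsto (A2 fun n => ∏ j, g j
      ((List.ofFn fun i : Fin d => R i ^ (a i j * b n)).prod y)) atTop (𝓝 L)} := by
    filter_upwards [h1, h2] with x hx1 hx2
    obtain ⟨L, hL⟩ := hx1
    refine ⟨L, hL.congr fun N => ?_⟩
    congr 1
    funext n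
    apply Finset.prod_congr rfl
    intro j _
    rw [Function.comp_apply, hx2]
  have h4 : ∀ᵐ y ∂ν, y ∈ {y | ∃ L : ℂ, Tendsto (A2 fun n => ∏ j, g j
      ((List.ofFn fun i : Fin d => R i ^ (a i j * b n)).prod y)) atTop (𝓝 L)} := by
    rw [← hπ.map_eq]
    exact (ae_map_iff hπ.measurable.aemeasurable hms).mpr h3
  have h5 : ∀ᵐ y ∂ν, ∀ (n : ℤ) (j : Fin m),
      f j ((List.ofFn fun i : Fin d => R i ^ (a i j * b n)).prod y) =
      g j ((List.ofFn fun i : Fin d => R i ^ (a i j * b n)).prod y) := by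
    rw [ae_all_iff]
    intro n
    rw [ae_all_iff]
    intro j
    exact (mp_prod hR hR' _).quasiMeasurePreserving.ae (hfg j)
  filter_upwards [h4, h5] with y hy4 hy5
  obtain ⟨L, hL⟩ := hy4
  refine ⟨L, hL.congr fun N => ?_⟩
  congr 1
  funext n
  apply Finset.prod_congr rfl
  intro j _
  rw [hy5]

end factor

end Pool.Agent.W761.Gauss
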