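import Pool.Agent.W761.Gauss.Core

/-!
# Commuting Gaussian transformations: convergence for exponentials
-/

set_option autoImplicit false

open Filter Topology MeasureTheory ProbabilityTheory
open scoped NNReal ENNReal

noncomputable section

namespace Pool.Agent.W761.Gauss

variable {X : Type*} [MeasurableSpace X] {μ : Measure X} {H : Submodule ℝ (X → ℝ)}

/-- The permutations which are measure preserving, with measurable inverse, and preserve `H`. -/
structure Adm (μ : Measure X) (H : Submodule ℝ (X → ℝ)) (S : Equiv.Perm X) : Prop where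
  mp : MeasurePreserving S μ μ
  mp' : MeasurePreserving (S⁻¹ : Equiv.Perm X) μ μ
  st : ∀ h ∈ H, h ∘ S ∈ H
  st' : ∀ h ∈ H, h ∘ (S⁻¹ : Equiv.Perm X) ∈ H

theorem Adm.one : Adm μ H (1 : Equiv.Perm X) where
  mp := MeasurePreserving.id μ
  mp' := by
    rw [inv_one]
    exact MeasurePreserving.id μ
  st := fun h hh => hh
  st' := fun h hh => by
    rw [inv_one]
    exact hh

theorem Adm.inv {S : Equiv.Perm X} (hS : Adm μ H S) : Adm μ H S⁻¹ where
  mp := hS.mp'
  mp' := by
    rw [inv_inv]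
    exact hS.mp
  st := hS.st'
  st' := fun h hh => by
    rw [inv_inv]
    exact hS.st h hh

theorem Adm.mul {S R : Equiv.Perm X} (hS : Adm μ H S) (hR : Adm μ H R) : Adm μ H (S * R) where
  mp := hS.mp.comp hR.mp
  mp' := by
    rw [mul_inv_rev]
    exact hR.mp'.comp hS.mp'
  st := fun h hh => hR.st _ (hS.st h hh)
  st' := fun h hh => by
    rw [mul_inv_rev]
    exact hS.st' _ (hR.st' h hh)

theorem Adm.pow {S : Equiv.Perm X} (hS : Adm μ H S) (n : ℕ) : Adm μ H (S ^ n) := by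
  induction n with
  | zero =>
    rw [pow_zero]
    exact Adm.one
  | succ n ih =>
    rw [pow_succ]
    exact ih.mul hS

theorem Adm.zpow {S : Equiv.Perm X} (hS : Adm μ H S) (n : ℤ) : Adm μ H (S ^ n) := by
  cases n with
  | ofNat n => exact hS.pow n
  | negSucc n =>
    rw [zpow_negSucc]
    exact (hS.pow _).inv

variable {J : Type*} [Fintype J]

omit [MeasurableSpace X] in
theorem comp_succ (S : Equiv.Perm X) (h : X → ℝ) (s : Finset ℤ) (t : ℤ → ℝ) :
    (∑ n ∈ s, t n • (h ∘ (S ^ (n + 1) : Equiv.Perm X))) =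
      (∑ n ∈ s, t n • (h ∘ (S ^ n : Equiv.Perm X))) ∘ S := by
  ext x
  simp only [Finset.sum_apply, Pi.smul_apply, Function.comp_apply]
  apply Finset.sum_congr rfl
  intro n _
  rw [zpow_add_one, Equiv.Perm.mul_apply]

/-- **Convergence for exponentials.** -/
theorem GaussSpace.conv_exp [IsProbabilityMeasure μ] (hH : GaussSpace μ H)
    {b : ℤ → ℤ} (hb : PG b)
    {S : J → Equiv.Perm X} (hS : ∀ j, Adm μ H (S j)) (hc : ∀ j k, Commute (S j) (S k))
    {h : J → X → ℝ} (hh : ∀ j, h j ∈ H) :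
    ∀ᵐ x ∂μ, ∃ L : ℂ, Tendsto (A2 fun n =>
      ex (∑ j, h j ((S j ^ b n : Equiv.Perm X) x))) atTop (𝓝 L) := by
  set c : ℝ := Real.sqrt 2⁻¹ with hcdef
  have hc2 : c ^ 2 = 2⁻¹ := Real.sq_sqrt (by norm_num)
  let ξ : ℤ → X → ℝ := fun n => ∑ j, h j ∘ (S j ^ n : Equiv.Perm X)
  let V : J → J → Equiv.Perm X := fun j k => (S k)⁻¹ * S j
  let u : (J × J) ⊕ (J × J) → ℤ → X → ℝ := fun i n =>
    Sum.elim (fun p : J × J => c • (h p.1 ∘ (S p.1 ^ n : Equiv.Perm X) -
      h p.2 ∘ (S p.2 ^ n : Equiv.Perm X)))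
      (fun p : J × J => c • (h p.1 ∘ (V p.1 p.2 ^ n : Equiv.Perm X))) i
  let v : (J × J) ⊕ (J × J) → X → ℝ := Sum.elim (fun _ => 0) (fun p : J × J => c • h p.2)
  have hV : ∀ j k, Adm μ H (V j k) := fun j k => (hS k).inv.mul (hS j)
  have hξ : ∀ n, ξ n ∈ H := fun n => H.sum_mem fun j _ => ((hS j).zpow n).st _ (hh j)
  have hu : ∀ i n, u i n ∈ H := by
    intro i n
    rcases i with p | p
    · exact H.smul_mem _ (H.sub_mem (((hS _).zpow n).st _ (hh _)) (((hS _).zpow n).st _ (hh _)))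
    · exact H.smul_mem _ (((hV _ _).zpow n).st _ (hh _))
  have hv : ∀ i, v i ∈ H := by
    intro i
    rcases i with p | p
    · exact H.zero_mem
    · exact H.smul_mem _ (hh _)
  have hcore := hH.core (I := (J × J) ⊕ (J × J)) hb hξ hu hv (Q₀ := ∑ j, ∑ k, (q μ (h j) + q μ (h k)))
    ?_ ?_
  · filter_upwards [hcore] with x hx
    obtain ⟨L, hL⟩ := hx
    refine ⟨L, hL.congr fun N => ?_⟩
    congr 1
    funext n
    show ex ((∑ j, h j ∘ (S j ^ b n : Equiv.Perm X)) x) = _
    rw [Finset.sum_apply]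
    rfl
  · intro s t
    let A : J → X → ℝ := fun j => ∑ n ∈ s, t n • (h j ∘ (S j ^ n : Equiv.Perm X))
    let A' : J → X → ℝ := fun j => ∑ n ∈ s, t n • (h j ∘ (S j ^ (n + 1) : Equiv.Perm X))
    let B : J → J → X → ℝ := fun j k => ∑ n ∈ s, t n • (h j ∘ (V j k ^ n : Equiv.Perm X))
    let B' : J → J → X → ℝ := fun j k => ∑ n ∈ s, t n • (h j ∘ (V j k ^ (n + 1) : Equiv.Perm X))
    have hA : ∀ j, A j ∈ H := fun j => H.sum_mem fun n _ =>
      H.smul_mem _ (((hS j).zpow n).st _ (hh j))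
    have hA' : ∀ j, A' j ∈ H := fun j => H.sum_mem fun n _ =>
      H.smul_mem _ (((hS j).zpow (n + 1)).st _ (hh j))
    have hB : ∀ j k, B j k ∈ H := fun j k => H.sum_mem fun n _ =>
      H.smul_mem _ (((hV j k).zpow n).st _ (hh j))
    have hAA : ∀ j, q μ (A' j) = q μ (A j) := by
      intro j
      have : A' j = A j ∘ S j := comp_succ _ _ _ _
      rw [this, q_comp (hS j).mp (hH.meas _ (hA j))]
    have hBB : ∀ j k, q μ (B' j k) = q μ (B j k) := by
      intro j k
      have : B' j k = B j k ∘ V j k := comp_succ _ _ _ _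
      rw [this, q_comp (hV j k).mp (hH.meas _ (hB j k))]
    have e1 : ∑ n ∈ s, t n • ξ n = ∑ j, A j := by
      show ∑ n ∈ s, t n • (∑ j, h j ∘ (S j ^ n : Equiv.Perm X)) = _
      simp only [Finset.smul_sum]
      rw [Finset.sum_comm]
    have e1' : ∑ n ∈ s, t n • ξ (n + 1) = ∑ j, A' j := by
      show ∑ n ∈ s, t n • (∑ j, h j ∘ (S j ^ (n + 1) : Equiv.Perm X)) = _
      simp only [Finset.smul_sum]
      rw [Finset.sum_comm]
    have e2 : ∀ p : J × J, ∑ n ∈ s, t n • u (Sum.inl p) n = c • (A p.1 - A p.2) := by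
      intro p
      show ∑ n ∈ s, t n • (c • (h p.1 ∘ (S p.1 ^ n : Equiv.Perm X) -
        h p.2 ∘ (S p.2 ^ n : Equiv.Perm X))) = _
      rw [← Finset.sum_sub_distrib, Finset.smul_sum]
      apply Finset.sum_congr rfl
      intro n _
      rw [smul_comm, smul_sub]
    have e2' : ∀ p : J × J, ∑ n ∈ s, t n • u (Sum.inl p) (n + 1) = c • (A' p.1 - A' p.2) := by
      intro p
      show ∑ n ∈ s, t n • (c • (h p.1 ∘ (S p.1 ^ (n + 1) : Equiv.Perm X) -
        h p.2 ∘ (S p.2 ^ (n + 1) : Equiv.Perm X))) = _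
      rw [← Finset.sum_sub_distrib, Finset.smul_sum]
      apply Finset.sum_congr rfl
      intro n _
      rw [smul_comm, smul_sub]
    have e3 : ∀ p : J × J, ∑ n ∈ s, t n • u (Sum.inr p) n = c • B p.1 p.2 := by
      intro p
      show ∑ n ∈ s, t n • (c • (h p.1 ∘ (V p.1 p.2 ^ n : Equiv.Perm X))) = _
      rw [Finset.smul_sum]
      apply Finset.sum_congr rfl
      intro n _
      rw [smul_comm]
    have e3' : ∀ p : J × J, ∑ n ∈ s, t n • u (Sum.inr p) (n + 1) = c • B' p.1 p.2 := by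
      intro p
      show ∑ n ∈ s, t n • (c • (h p.1 ∘ (V p.1 p.2 ^ (n + 1) : Equiv.Perm X))) = _
      rw [Finset.smul_sum]
      apply Finset.sum_congr rfl
      intro n _
      rw [smul_comm]
    rw [Fintype.sum_sum_type, Fintype.sum_sum_type]
    simp only [e1, e1', e2, e2', e3, e3', q_smul, hc2]
    rw [Fintype.sum_prod_type, Fintype.sum_prod_type, Fintype.sum_prod_type,
      Fintype.sum_prod_type]
    simp only [hBB]
    have i1 := hH.q_identity hA
    have i2 := hH.q_identity hA'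
    simp only [hAA] at i2
    linarith
  · intro n
    rw [Fintype.sum_sum_type]
    have f1 : ∀ p : J × J, q μ (u (Sum.inl p) n + v (Sum.inl p)) =
        2⁻¹ * q μ (h p.1 ∘ (S p.1 ^ n : Equiv.Perm X) - h p.2 ∘ (S p.2 ^ n : Equiv.Perm X)) := by
      intro p
      show q μ (c • (h p.1 ∘ (S p.1 ^ n : Equiv.Perm X) -
        h p.2 ∘ (S p.2 ^ n : Equiv.Perm X)) + 0) = _
      rw [add_zero, q_smul, hc2]
    have f2 : ∀ p : J × J, q μ (u (Sum.inr p) n + v (Sum.inr p)) =
        2⁻¹ * q μ (h p.1 ∘ (S p.1 ^ n : Equiv.Perm X) + h p.2 ∘ (S p.2 ^ n : Equiv.Perm X)) := by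
      intro p
      show q μ (c • (h p.1 ∘ (V p.1 p.2 ^ n : Equiv.Perm X)) + c • h p.2) = _
      rw [← smul_add, q_smul, hc2]
      congr 1
      have g1 : h p.1 ∘ (V p.1 p.2 ^ n : Equiv.Perm X) + h p.2 ∈ H :=
        H.add_mem (((hV _ _).zpow n).st _ (hh _)) (hh _)
      rw [← q_comp ((hS p.2).zpow n).mp (hH.meas _ g1)]
      congr 1
      have g2 : (V p.1 p.2 ^ n * S p.2 ^ n : Equiv.Perm X) = S p.1 ^ n := by
        have g3 : Commute (V p.1 p.2) (S p.2) := by
          apply Commute.mul_left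
          · exact (Commute.refl (S p.2)).inv_left
          · exact hc _ _
        rw [← g3.mul_zpow]
        congr 1
        show (S p.2)⁻¹ * S p.1 * S p.2 = S p.1
        rw [mul_assoc, (hc p.1 p.2).eq, ← mul_assoc, inv_mul_cancel, one_mul]
      ext x
      simp only [Function.comp_apply, Pi.add_apply]
      rw [← Equiv.Perm.mul_apply, g2]
    simp only [f1, f2]
    rw [← Finset.sum_add_distrib, Fintype.sum_prod_type]
    apply Finset.sum_congr rfl
    intro j _
    apply Finset.sum_congr rfl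
    intro k _
    have g4 := hH.q_par (((hS j).zpow n).st _ (hh j)) (((hS k).zpow n).st _ (hh k))
    rw [q_comp ((hS j).zpow n).mp (hH.meas _ (hh j)), q_comp ((hS k).zpow n).mp (hH.meas _ (hh k))]
      at g4
    rw [← mul_add]
    linarith

/-- Convergence for exponentials, in terms of `Cv`. -/
theorem GaussSpace.Cv_exp {X : Type} [MeasurableSpace X] {μ : Measure X}
    {H : Submodule ℝ (X → ℝ)} [IsProbabilityMeasure μ] (hH : GaussSpace μ H)
    {b : ℤ → ℤ} (hb : PG b)
    {S : J → Equiv.Perm X} (hS : ∀ j, Adm μ H (S j)) (hc : ∀ j k, Commute (S j) (S k))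
    {h : J → X → ℝ} (hh : ∀ j, h j ∈ H) :
    Cv μ S b (fun j x => ex (h j x)) := by
  filter_upwards [hH.conv_exp hb hS hc hh] with x hx
  obtain ⟨L, hL⟩ := hx
  refine ⟨L, hL.congr fun N => ?_⟩
  congr 1
  funext n
  rw [ex_sum]

end Pool.Agent.W761.Gauss
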