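import Pool.Agent.H165R3.BPE

/-!
# Two-sided averages along a sequence of integers
-/

set_option autoImplicit false

open Filter Topology MeasureTheory

noncomputable section

namespace Pool.Agent.W761.Gauss

/-- Two-sided Cesàro averages. -/
def A2 (a : ℤ → ℂ) (N : ℕ) : ℂ :=
  ((2 * N + 1 : ℕ) : ℂ)⁻¹ * ∑ n ∈ Finset.Icc (-(N : ℤ)) (N : ℤ), a n

/-- The sequence `b` is good for the almost everywhere convergence of the averages of one
bounded function. -/
def PG (b : ℤ → ℤ) : Prop :=
  ∀ (Ω : Type) [MeasurableSpace Ω] (P : Measure Ω) [IsProbabilityMeasure P] (τ : Equiv.Perm Ω),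
    Measurable τ.symm → MeasurePreserving τ P P →
    ∀ F : Ω → ℂ, Measurable F → (∃ C : ℝ, ∀ ω, ‖F ω‖ ≤ C) →
      ∀ᵐ ω ∂P, ∃ L : ℂ, Tendsto (A2 fun n => F ((τ ^ b n) ω)) atTop (𝓝 L)

theorem card_Icc2 (N : ℕ) : (Finset.Icc (-(N : ℤ)) (N : ℤ)).card = 2 * N + 1 := by
  rw [Int.card_Icc]
  omega

theorem A2_bound {a : ℤ → ℂ} {C : ℝ} (ha : ∀ n, ‖a n‖ ≤ C) (N : ℕ) : ‖A2 a N‖ ≤ C := by
  rw [A2, norm_mul, norm_inv, Complex.norm_natCast, inv_mul_le_iff₀ (by positivity)]
  refine (norm_sum_le _ _).trans ?_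
  refine (Finset.sum_le_sum fun n _ => ha n).trans ?_
  rw [Finset.sum_const, card_Icc2, nsmul_eq_mul]

theorem A2_add (a b : ℤ → ℂ) (N : ℕ) : A2 (fun n => a n + b n) N = A2 a N + A2 b N := by
  rw [A2, A2, A2, Finset.sum_add_distrib, mul_add]

theorem A2_mul (c : ℂ) (a : ℤ → ℂ) (N : ℕ) : A2 (fun n => c * a n) N = c * A2 a N := by
  rw [A2, A2, ← Finset.mul_sum]
  ring

theorem A2_sub (a b : ℤ → ℂ) (N : ℕ) : A2 (fun n => a n - b n) N = A2 a N - A2 b N := by
  rw [A2, A2, A2, Finset.sum_sub_distrib, mul_sub]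

/-- Two-sided averages in terms of one-sided averages. -/
theorem A2_split (a : ℤ → ℂ) (N : ℕ) :
    A2 a N = ((2 * N + 1 : ℕ) : ℂ)⁻¹ * (∑ n ∈ Finset.range (N + 1), a n +
      ∑ n ∈ Finset.range (N + 1), a (-n) - a 0) := by
  rw [A2]
  congr 1
  induction N with
  | zero => simp
  | succ N ih =>
    have h1 : Finset.Icc (-((N + 1 : ℕ) : ℤ)) ((N + 1 : ℕ) : ℤ) =
        insert (-((N + 1 : ℕ) : ℤ)) (insert ((N + 1 : ℕ) : ℤ)
          (Finset.Icc (-(N : ℤ)) (N : ℤ))) := by
      ext x
      simp only [Finset.mem_Icc, Finset.mem_insert]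
      push_cast
      omega
    rw [h1, Finset.sum_insert, Finset.sum_insert, ih, Finset.sum_range_succ _ (N + 1),
      Finset.sum_range_succ _ (N + 1)]
    · ring
    · simp only [Finset.mem_Icc]
      push_cast
      omega
    · simp only [Finset.mem_Icc, Finset.mem_insert]
      push_cast
      omega

theorem A2_tendsto {a : ℤ → ℂ} {L L' : ℂ}
    (h : Tendsto (fun N : ℕ => (N : ℂ)⁻¹ * ∑ n ∈ Finset.range N, a n) atTop (𝓝 L))
    (h' : Tendsto (fun N : ℕ => (N : ℂ)⁻¹ * ∑ n ∈ Finset.range N, a (-n)) atTop (𝓝 L')) :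
    Tendsto (A2 a) atTop (𝓝 (2⁻¹ * (L + L'))) := by
  have h1 := (h.add h').comp (tendsto_add_atTop_nat 1)
  have h2 : Tendsto (fun N : ℕ => ((N + 1 : ℕ) : ℂ) / ((2 * N + 1 : ℕ) : ℂ)) atTop (𝓝 2⁻¹) := by
    have h3 : Tendsto (fun N : ℕ => (2⁻¹ : ℝ) + 2⁻¹ * ((2 * N + 1 : ℕ) : ℝ)⁻¹) atTop
        (𝓝 (2⁻¹ + 2⁻¹ * 0)) := by
      apply tendsto_const_nhds.add
      apply Tendsto.const_mul
      apply tendsto_inv_atTop_zero.comp
      apply tendsto_natCast_atTop_atTop.comp
      apply tendsto_atTop_atTop.mpr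
      intro b
      exact ⟨b, fun n hn => by omega⟩
    rw [mul_zero, add_zero] at h3
    have h4 := (Complex.continuous_ofReal.tendsto _).comp h3
    rw [Complex.ofReal_inv, Complex.ofReal_ofNat] at h4
    refine h4.congr fun N => ?_
    simp only [Function.comp_apply]
    push_cast
    have : (2 * (N : ℂ) + 1) ≠ 0 := by
      have h5 : ((2 * N + 1 : ℕ) : ℂ) ≠ 0 := by
        rw [Nat.cast_ne_zero]
        omega
      push_cast at h5
      exact h5
    field_simp
    ring
  have h5 : Tendsto (fun N : ℕ => ((2 * N + 1 : ℕ) : ℂ)⁻¹ * a 0) atTop (𝓝 (0 * a 0)) := by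
    apply Tendsto.mul_const
    have h6 : Tendsto (fun N : ℕ => ((2 * N + 1 : ℕ) : ℝ)⁻¹) atTop (𝓝 0) := by
      apply tendsto_inv_atTop_zero.comp
      apply tendsto_natCast_atTop_atTop.comp
      apply tendsto_atTop_atTop.mpr
      intro b
      exact ⟨b, fun n hn => by omega⟩
    have h7 := (Complex.continuous_ofReal.tendsto _).comp h6
    rw [Complex.ofReal_zero] at h7
    refine h7.congr fun N => ?_
    simp only [Function.comp_apply]
    push_cast
    rfl
  have h8 := (h2.mul h1).sub h5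
  rw [zero_mul, sub_zero] at h8
  refine h8.congr fun N => ?_
  rw [A2_split]
  simp only [Function.comp_apply]
  have h9 : ((N + 1 : ℕ) : ℂ) ≠ 0 := by
    rw [Nat.cast_ne_zero]
    omega
  field_simp

/-- Birkhoff's theorem. -/
theorem PG_id : PG fun n => n := by
  intro Ω _ P _ τ hτ' hτ F hF hb
  obtain ⟨C, hC⟩ := hb
  have hτinv : MeasurePreserving (τ⁻¹ : Equiv.Perm Ω) P P := by
    let e : Ω ≃ᵐ Ω := ⟨τ, hτ.measurable, hτ'⟩
    exact hτ.symm e
  have key : ∀ σ : Equiv.Perm Ω, MeasurePreserving σ P P →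
      ∀ᵐ ω ∂P, ∃ L : ℂ, Tendsto (fun N : ℕ => (N : ℂ)⁻¹ * ∑ n ∈ Finset.range N,
        F ((σ ^ n) ω)) atTop (𝓝 L) := by
    intro σ hσ
    have h1 := H165R3.BPE.birkhoff hσ (fun ω => (F ω).re) (Complex.measurable_re.comp hF) C
      fun ω => (Complex.abs_re_le_norm _).trans (hC ω)
    have h2 := H165R3.BPE.birkhoff hσ (fun ω => (F ω).im) (Complex.measurable_im.comp hF) C
      fun ω => (Complex.abs_im_le_norm _).trans (hC ω)
    filter_upwards [h1, h2] with ω hω1 hω2
    refine ⟨_, Tendsto.congr (fun N => ?_) (((Complex.continuous_ofReal.tendsto _).comp hω1).add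
      (((Complex.continuous_ofReal.tendsto _).comp hω2).mul_const Complex.I))⟩
    simp only [Function.comp_apply, ← Equiv.Perm.iterate_eq_pow]
    push_cast
    rw [mul_assoc, ← mul_add, Finset.sum_mul, ← Finset.sum_add_distrib]
    congr 1
    apply Finset.sum_congr rfl
    intro n _
    exact Complex.re_add_im _
  filter_upwards [key τ hτ, key τ⁻¹ hτinv] with ω h1 h2
  obtain ⟨L, hL⟩ := h1
  obtain ⟨L', hL'⟩ := h2
  refine ⟨2⁻¹ * (L + L'), A2_tendsto ?_ ?_⟩
  · refine hL.congr fun N => ?_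
    simp only [zpow_natCast]
  · refine hL'.congr fun N => ?_
    simp only [zpow_neg, zpow_natCast, inv_pow]

section general

variable {X : Type} [MeasurableSpace X] {J : Type*} [Fintype J] [DecidableEq J]

/-- Bounded measurable functions. -/
def BM (f : X → ℂ) : Prop := Measurable f ∧ ∃ C : ℝ, ∀ x, ‖f x‖ ≤ C

/-- Convergence almost everywhere of the multiple averages along `b`. -/
def Cv (μ : Measure X) (S : J → Equiv.Perm X) (b : ℤ → ℤ) (F : J → X → ℂ) : Prop :=
  ∀ᵐ x ∂μ, ∃ L, Tendsto (A2 fun n => ∏ j, F j ((S j ^ b n) x)) atTop (𝓝 L)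

omit [MeasurableSpace X] in
theorem prod_update (S : J → Equiv.Perm X) (F : J → X → ℂ) (j : J) (f : X → ℂ) (n : ℤ) (x : X) :
    ∏ l, (Function.update F j f) l ((S l ^ n) x) =
      f ((S j ^ n) x) * ∏ l ∈ Finset.univ.erase j, F l ((S l ^ n) x) := by
  rw [← Finset.mul_prod_erase _ _ (Finset.mem_univ j), Function.update_self]
  congr 1
  apply Finset.prod_congr rfl
  intro l hl
  rw [Function.update_of_ne (Finset.ne_of_mem_erase hl)]

theorem Cv_add {μ : Measure X} {S : J → Equiv.Perm X} {b : ℤ → ℤ} {F : J → X → ℂ} {j : J}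
    {f g : X → ℂ}
    (hf : Cv μ S b (Function.update F j f)) (hg : Cv μ S b (Function.update F j g)) :
    Cv μ S b (Function.update F j (f + g)) := by
  filter_upwards [hf, hg] with x hx hx'
  obtain ⟨L, hL⟩ := hx
  obtain ⟨L', hL'⟩ := hx'
  refine ⟨L + L', (hL.add hL').congr fun N => ?_⟩
  rw [← A2_add]
  congr 1
  funext n
  rw [prod_update, prod_update, prod_update, Pi.add_apply, add_mul]

theorem Cv_smul {μ : Measure X} {S : J → Equiv.Perm X} {b : ℤ → ℤ} {F : J → X → ℂ} {j : J}
    {f : X → ℂ} (c : ℂ) (hf : Cv μ S b (Function.update F j f)) :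
    Cv μ S b (Function.update F j (c • f)) := by
  filter_upwards [hf] with x hx
  obtain ⟨L, hL⟩ := hx
  refine ⟨c * L, (hL.const_mul c).congr fun N => ?_⟩
  rw [← A2_mul]
  congr 1
  funext n
  rw [prod_update, prod_update, Pi.smul_apply, smul_eq_mul, mul_assoc]

theorem Cv_zero {μ : Measure X} {S : J → Equiv.Perm X} {b : ℤ → ℤ} {F : J → X → ℂ} {j : J} :
    Cv μ S b (Function.update F j (0 : X → ℂ)) := by
  refine Eventually.of_forall fun x => ⟨0, ?_⟩
  refine Tendsto.congr (fun N => ?_) (tendsto_const_nhds (x := (0 : ℂ)))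
  rw [A2]
  simp [prod_update]

/-- The class of good functions is closed under limits in `L¹`. -/
theorem Cv_closed {μ : Measure X} [IsProbabilityMeasure μ] {S : J → Equiv.Perm X}
    (hS : ∀ j, MeasurePreserving (S j) μ μ) (hS' : ∀ j, Measurable (S j).symm)
    {b : ℤ → ℤ} (hb : PG b) {F : J → X → ℂ} (hF : ∀ l, BM (F l)) {j : J}
    {f : X → ℂ} (hf : BM f)
    (h : ∀ ε : ℝ, 0 < ε → ∃ g : X → ℂ, BM g ∧ ∫ x, ‖f x - g x‖ ∂μ ≤ ε ∧
      Cv μ S b (Function.update F j g)) :
    Cv μ S b (Function.update F j f) := by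
  obtain ⟨hfm, Cf, hCf⟩ := hf
  choose hFm CF hCF using hF
  set D : ℝ := ∏ l ∈ Finset.univ.erase j, (|CF l| + 1) with hD
  have hD0 : 0 < D := Finset.prod_pos fun l _ => by positivity
  have hDb : ∀ (n : ℤ) (x : X), ‖∏ l ∈ Finset.univ.erase j, F l ((S l ^ n) x)‖ ≤ D := by
    intro n x
    rw [norm_prod]
    apply Finset.prod_le_prod (fun l _ => norm_nonneg _)
    intro l _
    exact ((hCF l _).trans (le_abs_self _)).trans (by linarith)
  set G := Function.update F j f with hG
  let Av : (J → X → ℂ) → ℕ → X → ℂ := fun E N x => A2 (fun n => ∏ l, E l ((S l ^ b n) x)) N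
  have hbad : ∀ δ : ℝ, 0 < δ → ∀ᵐ x ∂μ, ∃ N₀, ∀ N, N₀ ≤ N → ∀ M, N₀ ≤ M →
      ‖Av G N x - Av G M x‖ ≤ δ := by
    intro δ hδ
    rw [ae_iff, ← nonpos_iff_eq_zero]
    apply ENNReal.le_of_forall_pos_le_add
    intro ε hε _
    rw [zero_add]
    have hε' : (0 : ℝ) < ε := by exact_mod_cast hε
    obtain ⟨g, ⟨hgm, Cg, hCg⟩, hfg, hg⟩ := h (ε * (δ / (4 * D))) (by positivity)
    let k : X → ℂ := fun x => ((‖f x - g x‖ : ℝ) : ℂ)
    have hkm : Measurable k := Complex.measurable_ofReal.comp (hfm.sub hgm).norm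
    have hkb : ∀ x, ‖k x‖ ≤ Cf + Cg := fun x => by
      show ‖((‖f x - g x‖ : ℝ) : ℂ)‖ ≤ _
      rw [Complex.norm_real, norm_norm]
      exact (norm_sub_le _ _).trans (add_le_add (hCf x) (hCg x))
    have hB := hb X μ (S j) (hS' j) (hS j) k hkm ⟨_, hkb⟩
    let E : X → ℂ := fun x => limUnder atTop (A2 fun n => k ((S j ^ b n) x))
    have hE : ∀ᵐ x ∂μ, Tendsto (A2 fun n => k ((S j ^ b n) x)) atTop (𝓝 (E x)) := by
      filter_upwards [hB] with x hx
      exact tendsto_nhds_limUnder hx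
    have hmpow : ∀ n : ℤ, MeasurePreserving (S j ^ n : Equiv.Perm X) μ μ := by
      have hinv : MeasurePreserving ((S j)⁻¹ : Equiv.Perm X) μ μ := by
        let e : X ≃ᵐ X := ⟨S j, (hS j).measurable, hS' j⟩
        exact (hS j).symm e
      have hpw : ∀ σ : Equiv.Perm X, MeasurePreserving σ μ μ → ∀ n : ℕ,
          MeasurePreserving (σ ^ n : Equiv.Perm X) μ μ := by
        intro σ hσ n
        rw [← Equiv.Perm.iterate_eq_pow]
        exact hσ.iterate n
      intro n
      cases n with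
      | ofNat n => exact hpw _ (hS j) n
      | negSucc n =>
        rw [zpow_negSucc, ← inv_pow]
        exact hpw _ hinv _
    have hkAm : ∀ N, Measurable fun x => A2 (fun n => k ((S j ^ b n) x)) N := by
      intro N
      unfold A2
      exact (Finset.measurable_fun_sum _ fun n _ => hkm.comp (hmpow _).measurable).const_mul _
    have hEm : AEStronglyMeasurable E μ :=
      aestronglyMeasurable_of_tendsto_ae atTop (fun N => (hkAm N).aestronglyMeasurable) hE
    have hEb : ∀ᵐ x ∂μ, ‖E x‖ ≤ Cf + Cg := by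
      filter_upwards [hE] with x hx
      exact le_of_tendsto hx.norm (Eventually.of_forall fun N => A2_bound (fun n => hkb _) N)
    have hEi : Integrable E μ := Integrable.of_bound hEm _ hEb
    have hint : ∫ x, E x ∂μ = ∫ x, k x ∂μ := by
      have h1 := tendsto_integral_of_dominated_convergence (fun _ => Cf + Cg)
        (fun N => (hkAm N).aestronglyMeasurable) (integrable_const _)
        (fun N => Eventually.of_forall fun x => A2_bound (fun n => hkb _) N) hE
      have h2 : ∀ N, ∫ x, A2 (fun n => k ((S j ^ b n) x)) N ∂μ = ∫ x, k x ∂μ := by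
        intro N
        have hki : Integrable k μ := Integrable.of_bound hkm.aestronglyMeasurable _
          (Eventually.of_forall hkb)
        have h3 : ∀ n : ℤ, ∫ x, k ((S j ^ b n) x) ∂μ = ∫ x, k x ∂μ := by
          intro n
          have h4 := integral_map (μ := μ) (φ := (S j ^ b n : Equiv.Perm X)) (f := k)
            (hmpow _).measurable.aemeasurable hkm.aestronglyMeasurable
          rw [(hmpow (b n)).map_eq] at h4
          exact h4.symm
        unfold A2
        rw [integral_const_mul, integral_finsetSum]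
        · rw [Finset.sum_congr rfl fun n _ => h3 n, Finset.sum_const, card_Icc2, nsmul_eq_mul,
            ← mul_assoc, inv_mul_cancel₀, one_mul]
          rw [Nat.cast_ne_zero]
          omega
        · intro n _
          exact (hmpow (b n)).integrable_comp_of_integrable hki
      simp only [h2] at h1
      exact tendsto_nhds_unique h1 tendsto_const_nhds
    have hE0 : ∀ᵐ x ∂μ, (E x).im = 0 ∧ 0 ≤ (E x).re := by
      filter_upwards [hE] with x hx
      have hr : ∀ N, A2 (fun n => k ((S j ^ b n) x)) N =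
          (((2 * N + 1 : ℕ) : ℝ)⁻¹ * ∑ n ∈ Finset.Icc (-(N : ℤ)) (N : ℤ),
            ‖f ((S j ^ b n) x) - g ((S j ^ b n) x)‖ : ℝ) := by
        intro N
        rw [A2]
        push_cast
        rfl
      constructor
      · have h1 := (Complex.continuous_im.tendsto _).comp hx
        have h2 : (Complex.im ∘ A2 fun n => k ((S j ^ b n) x)) = fun _ => (0 : ℝ) := by
          funext N
          rw [Function.comp_apply, hr, Complex.ofReal_im]
        rw [h2] at h1
        exact (tendsto_nhds_unique tendsto_const_nhds h1).symm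
      · have h1 := (Complex.continuous_re.tendsto _).comp hx
        refine ge_of_tendsto h1 (Eventually.of_forall fun N => ?_)
        rw [Function.comp_apply, hr, Complex.ofReal_re]
        positivity
    have hmark := mul_meas_ge_le_integral_of_nonneg (μ := μ) (f := fun x => (E x).re)
      (by filter_upwards [hE0] with x hx using hx.2) hEi.re (δ / (4 * D))
    have hEre : ∫ x, (E x).re ∂μ = ∫ x, ‖f x - g x‖ ∂μ := by
      have h1 : ∫ x, (E x).re ∂μ = (∫ x, E x ∂μ).re := integral_re hEi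
      rw [h1, hint]
      have h2 : ∫ x, k x ∂μ = ((∫ x, ‖f x - g x‖ ∂μ : ℝ) : ℂ) := integral_complex_ofReal
      rw [h2, Complex.ofReal_re]
    rw [hEre] at hmark
    have hmark' : μ.real {x | δ / (4 * D) ≤ (E x).re} ≤ ε := by
      have h1 : δ / (4 * D) * μ.real {x | δ / (4 * D) ≤ (E x).re} ≤ δ / (4 * D) * ε := by
        refine hmark.trans (hfg.trans ?_)
        rw [mul_comm]
      exact le_of_mul_le_mul_left h1 (by positivity)
    have hsub : ∀ᵐ x ∂μ, x ∈ {x | ¬ ∃ N₀, ∀ N, N₀ ≤ N → ∀ M, N₀ ≤ M →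
        ‖Av G N x - Av G M x‖ ≤ δ} → x ∈ {x | δ / (4 * D) ≤ (E x).re} := by
      filter_upwards [hE, hE0, hg] with x hx1 hx0 hx2 hx3
      show δ / (4 * D) ≤ (E x).re
      by_contra hcon
      rw [not_le] at hcon
      apply hx3
      obtain ⟨L, hL⟩ := hx2
      have hx1' := (Complex.continuous_re.tendsto _).comp hx1
      have h2 := (tendsto_order.mp hx1').2 _ hcon
      obtain ⟨N₁, hN₁⟩ := eventually_atTop.mp h2
      obtain ⟨N₂, hN₂⟩ := Metric.tendsto_atTop.mp hL (δ / 4) (by positivity)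
      have hclose : ∀ N, N₁ ≤ N → ‖Av G N x - Av (Function.update F j g) N x‖ ≤ δ / 4 := by
        intro N hN
        show ‖A2 (fun n => ∏ l, G l ((S l ^ b n) x)) N -
          A2 (fun n => ∏ l, (Function.update F j g) l ((S l ^ b n) x)) N‖ ≤ δ / 4
        rw [← A2_sub, A2, norm_mul, norm_inv, Complex.norm_natCast]
        have h3 : ‖∑ n ∈ Finset.Icc (-(N : ℤ)) (N : ℤ), (∏ l, G l ((S l ^ b n) x) -
            ∏ l, (Function.update F j g) l ((S l ^ b n) x))‖ ≤
            D * ∑ n ∈ Finset.Icc (-(N : ℤ)) (N : ℤ), ‖f ((S j ^ b n) x) - g ((S j ^ b n) x)‖ := by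
          refine (norm_sum_le _ _).trans ?_
          rw [Finset.mul_sum]
          apply Finset.sum_le_sum
          intro n _
          rw [hG, prod_update, prod_update, ← sub_mul, norm_mul, mul_comm]
          exact mul_le_mul_of_nonneg_right (hDb _ x) (norm_nonneg _)
        have h5 := hN₁ N hN
        have hr : A2 (fun n => k ((S j ^ b n) x)) N =
          (((2 * N + 1 : ℕ) : ℝ)⁻¹ * ∑ n ∈ Finset.Icc (-(N : ℤ)) (N : ℤ),
            ‖f ((S j ^ b n) x) - g ((S j ^ b n) x)‖ : ℝ) := by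
          rw [A2]
          push_cast
          rfl
        rw [Function.comp_apply, hr, Complex.ofReal_re] at h5
        calc ((2 * N + 1 : ℕ) : ℝ)⁻¹ * ‖_‖ ≤ ((2 * N + 1 : ℕ) : ℝ)⁻¹ *
              (D * ∑ n ∈ Finset.Icc (-(N : ℤ)) (N : ℤ),
                ‖f ((S j ^ b n) x) - g ((S j ^ b n) x)‖) :=
              mul_le_mul_of_nonneg_left h3 (by positivity)
          _ = D * (((2 * N + 1 : ℕ) : ℝ)⁻¹ * ∑ n ∈ Finset.Icc (-(N : ℤ)) (N : ℤ),
                ‖f ((S j ^ b n) x) - g ((S j ^ b n) x)‖) := by ring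
          _ ≤ D * (δ / (4 * D)) := mul_le_mul_of_nonneg_left h5.le hD0.le
          _ = δ / 4 := by field_simp
      refine ⟨max N₁ N₂, fun N hN M hM => ?_⟩
      have a1 := hclose N ((le_max_left _ _).trans hN)
      have a2 := hclose M ((le_max_left _ _).trans hM)
      have a3 : dist (Av (Function.update F j g) N x) L < δ / 4 :=
        hN₂ N ((le_max_right _ _).trans hN)
      have a4 : dist (Av (Function.update F j g) M x) L < δ / 4 :=
        hN₂ M ((le_max_right _ _).trans hM)
      rw [dist_eq_norm] at a3 a4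
      have e1 : Av G N x - Av G M x = (Av G N x - Av (Function.update F j g) N x) +
          (Av (Function.update F j g) N x - L) - (Av (Function.update F j g) M x - L) -
          (Av G M x - Av (Function.update F j g) M x) := by ring
      rw [e1]
      have b1 := norm_sub_le ((Av G N x - Av (Function.update F j g) N x) +
          (Av (Function.update F j g) N x - L) - (Av (Function.update F j g) M x - L))
          (Av G M x - Av (Function.update F j g) M x)
      have b2 := norm_sub_le ((Av G N x - Av (Function.update F j g) N x) +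
          (Av (Function.update F j g) N x - L)) (Av (Function.update F j g) M x - L)
      have b3 := norm_add_le (Av G N x - Av (Function.update F j g) N x)
          (Av (Function.update F j g) N x - L)
      linarith
    have h10 : μ {x | ¬ ∃ N₀, ∀ N, N₀ ≤ N → ∀ M, N₀ ≤ M →
        ‖Av G N x - Av G M x‖ ≤ δ} ≤ μ {x | δ / (4 * D) ≤ (E x).re} := measure_mono_ae hsub
    refine h10.trans ?_
    have h9 : μ {x | δ / (4 * D) ≤ (E x).re} =
        ENNReal.ofReal (μ.real {x | δ / (4 * D) ≤ (E x).re}) := by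
      rw [measureReal_def, ENNReal.ofReal_toReal (measure_ne_top _ _)]
    rw [h9]
    calc ENNReal.ofReal (μ.real {x | δ / (4 * D) ≤ (E x).re}) ≤ ENNReal.ofReal (ε : ℝ) :=
          ENNReal.ofReal_le_ofReal hmark'
      _ = ε := ENNReal.ofReal_coe_nnreal
  have hall := ae_all_iff.mpr fun i : ℕ => hbad (1 / ((i : ℝ) + 1)) (by positivity)
  filter_upwards [hall] with x hx
  apply cauchySeq_tendsto_of_complete
  rw [Metric.cauchySeq_iff']
  intro ε hε
  obtain ⟨i, hi⟩ := exists_nat_one_div_lt hε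
  obtain ⟨N₀, hN₀⟩ := hx i
  refine ⟨N₀, fun n hn => ?_⟩
  rw [dist_eq_norm]
  exact (hN₀ n hn N₀ le_rfl).trans_lt hi

end general

end Pool.Agent.W761.Gauss
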