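import Pool.Agent.W761.Gauss.Space
import Pool.Agent.W761.Gauss.Avg

/-!
# The core convergence statement for Gaussian sequences
-/

set_option autoImplicit false

open Filter Topology MeasureTheory ProbabilityTheory
open scoped NNReal ENNReal

noncomputable section

namespace Pool.Agent.W761.Gauss

/-- The exponential `e^{it}`. -/
def ex (t : ℝ) : ℂ := Complex.exp ((t : ℂ) * Complex.I)

theorem ex_add (a b : ℝ) : ex (a + b) = ex a * ex b := by
  rw [ex, ex, ex, ← Complex.exp_add]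
  congr 1
  push_cast
  ring

theorem ex_sum {ι : Type*} (s : Finset ι) (f : ι → ℝ) : ex (∑ i ∈ s, f i) = ∏ i ∈ s, ex (f i) := by
  rw [ex, Complex.ofReal_sum, Finset.sum_mul, Complex.exp_sum]
  rfl

theorem norm_ex (t : ℝ) : ‖ex t‖ = 1 := Complex.norm_exp_ofReal_mul_I t

theorem cont_ex : Continuous ex := by
  unfold ex
  fun_prop

theorem meas_ex : Measurable ex := cont_ex.measurable

/-- The shift on sequences indexed by `ℤ`. -/
def shift : Equiv.Perm (ℤ → ℝ) where
  toFun ω n := ω (n + 1)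
  invFun ω n := ω (n - 1)
  left_inv ω := by
    funext n
    simp
  right_inv ω := by
    funext n
    simp

theorem shift_zpow (k : ℤ) (ω : ℤ → ℝ) (l : ℤ) : (shift ^ k) ω l = ω (l + k) := by
  have hnat : ∀ (k : ℕ) (ω : ℤ → ℝ) (l : ℤ), (shift ^ k) ω l = ω (l + k) := by
    intro k
    induction k with
    | zero => intro ω l; simp
    | succ k ih =>
      intro ω l
      rw [pow_succ, Equiv.Perm.mul_apply, ih]
      show ω (l + k + 1) = _
      push_cast
      exact congrArg ω (by ring)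
  cases k with
  | ofNat k => exact hnat k ω l
  | negSucc k =>
    rw [zpow_negSucc]
    have h1 := hnat (k + 1) ((shift ^ (k + 1))⁻¹ ω) (l + Int.negSucc k)
    have h2 : (shift ^ (k + 1)) ((shift ^ (k + 1))⁻¹ ω) = ω :=
      Equiv.apply_symm_apply _ _
    rw [h2] at h1
    rw [h1]
    apply congrArg
    rw [Int.negSucc_eq]
    push_cast
    ring

variable {X : Type*} [MeasurableSpace X] {μ : Measure X} {H : Submodule ℝ (X → ℝ)}

/-- Convergence for the exponential of a stationary sequence. -/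
theorem pg_seq {b : ℤ → ℤ} (hb : PG b) {P : Measure (ℤ → ℝ)} [IsProbabilityMeasure P]
    (hP : P.map (fun ω n => ω (n + 1)) = P) :
    ∀ᵐ ω ∂P, ∃ L : ℂ, Tendsto (A2 fun n => ex (ω (b n))) atTop (𝓝 L) := by
  have hm : Measurable (fun (ω : ℤ → ℝ) n => ω (n + 1)) :=
    measurable_pi_lambda _ fun n => measurable_pi_apply _
  have hm' : Measurable (shift.symm) :=
    measurable_pi_lambda _ fun n => measurable_pi_apply (n - 1)
  have hS : MeasurePreserving shift P P := ⟨hm, hP⟩
  have h1 := hb (ℤ → ℝ) P shift hm' hS (fun ω => ex (ω 0))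
    (meas_ex.comp (measurable_pi_apply 0)) ⟨1, fun ω => (norm_ex _).le⟩
  filter_upwards [h1] with ω hω
  simpa only [shift_zpow, zero_add] using hω

variable {I : Type*} [Fintype I]

/-- The auxiliary process. -/
def proc (ξ : ℤ → X → ℝ) (u : I → ℤ → X → ℝ) (n : ℤ) (p : X × (I → X)) : ℝ :=
  ξ n p.1 + ∑ i, u i n (p.2 i)

theorem GaussSpace.int_ex (hH : GaussSpace μ H) {h : X → ℝ} (hh : h ∈ H) :
    ∫ x, ex (h x) ∂μ = Complex.exp ((-(q μ h) / 2 : ℝ) : ℂ) := hH.expI hh

theorem GaussSpace.int_ex_pi [IsProbabilityMeasure μ] (hH : GaussSpace μ H) {b : I → X → ℝ}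
    (hb : ∀ i, b i ∈ H) :
    ∫ ω : I → X, ex (∑ i, b i (ω i)) ∂(Measure.pi fun _ => μ) =
      Complex.exp ((-(∑ i, q μ (b i)) / 2 : ℝ) : ℂ) := by
  simp only [ex_sum]
  rw [integral_fintype_prod_eq_prod (𝕜 := ℂ) (f := fun i x => ex (b i x))]
  rw [Finset.prod_congr rfl fun i _ => hH.int_ex (hb i), ← Complex.exp_sum]
  congr 1
  push_cast
  rw [← Finset.sum_neg_distrib, Finset.sum_div]

theorem GaussSpace.int_ex_prod [IsProbabilityMeasure μ] (hH : GaussSpace μ H) {a : X → ℝ}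
    {b : I → X → ℝ} (ha : a ∈ H) (hb : ∀ i, b i ∈ H) :
    ∫ p : X × (I → X), ex (a p.1 + ∑ i, b i (p.2 i)) ∂(μ.prod (Measure.pi fun _ => μ)) =
      Complex.exp ((-(q μ a + ∑ i, q μ (b i)) / 2 : ℝ) : ℂ) := by
  simp only [ex_add]
  rw [integral_prod_mul (fun x => ex (a x)) (fun ω : I → X => ex (∑ i, b i (ω i))), hH.int_ex ha,
    hH.int_ex_pi hb, ← Complex.exp_add]
  congr 1
  push_cast
  ring

omit [MeasurableSpace X] in
theorem proc_comb (ξ : ℤ → X → ℝ) (u : I → ℤ → X → ℝ) (s : Finset ℤ) (t : ℤ → ℝ)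
    (p : X × (I → X)) :
    ∑ n ∈ s, t n * proc ξ u n p = (∑ n ∈ s, t n • ξ n) p.1 +
      ∑ i, (∑ n ∈ s, t n • u i n) (p.2 i) := by
  simp only [proc, Finset.sum_apply, Pi.smul_apply, smul_eq_mul, mul_add, Finset.sum_add_distrib,
    Finset.mul_sum]
  congr 1
  rw [Finset.sum_comm]

theorem meas_proc {ξ : ℤ → X → ℝ} {u : I → ℤ → X → ℝ} (hξ : ∀ n, Measurable (ξ n))
    (hu : ∀ i n, Measurable (u i n)) (n : ℤ) : Measurable (proc ξ u n) := by
  apply Measurable.add ((hξ n).comp measurable_fst)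
  apply Finset.measurable_fun_sum
  intro i _
  exact (hu i n).comp ((measurable_pi_apply i).comp measurable_snd)

/-- The auxiliary process is stationary. -/
theorem GaussSpace.stationary [IsProbabilityMeasure μ] (hH : GaussSpace μ H) {ξ : ℤ → X → ℝ}
    {u : I → ℤ → X → ℝ} (hξ : ∀ n, ξ n ∈ H) (hu : ∀ i n, u i n ∈ H)
    (hst : ∀ (s : Finset ℤ) (t : ℤ → ℝ),
      q μ (∑ n ∈ s, t n • ξ (n + 1)) + ∑ i, q μ (∑ n ∈ s, t n • u i (n + 1)) =
      q μ (∑ n ∈ s, t n • ξ n) + ∑ i, q μ (∑ n ∈ s, t n • u i n)) :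
    ((μ.prod (Measure.pi fun _ : I => μ)).map (fun p n => proc ξ u n p)).map
      (fun ω n => ω (n + 1)) = (μ.prod (Measure.pi fun _ : I => μ)).map (fun p n => proc ξ u n p) := by
  have hξm : ∀ n, Measurable (ξ n) := fun n => hH.meas _ (hξ n)
  have hum : ∀ i n, Measurable (u i n) := fun i n => hH.meas _ (hu i n)
  have hpm : Measurable fun (p : X × (I → X)) (n : ℤ) => proc ξ u n p :=
    measurable_pi_lambda _ fun n => meas_proc hξm hum n
  have hm : Measurable (fun (ω : ℤ → ℝ) n => ω (n + 1)) :=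
    measurable_pi_lambda _ fun n => measurable_pi_apply _
  have hpm' : Measurable fun (p : X × (I → X)) (n : ℤ) => proc ξ u (n + 1) p :=
    measurable_pi_lambda _ fun n => meas_proc hξm hum (n + 1)
  rw [Measure.map_map hm hpm]
  have hP1 : IsProbabilityMeasure ((μ.prod (Measure.pi fun _ : I => μ)).map
      (fun p n => proc ξ u n p)) := Measure.isProbabilityMeasure_map hpm.aemeasurable
  have hP2 : IsProbabilityMeasure ((μ.prod (Measure.pi fun _ : I => μ)).map
      ((fun (ω : ℤ → ℝ) n => ω (n + 1)) ∘ fun p n => proc ξ u n p)) :=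
    Measure.isProbabilityMeasure_map (hm.comp hpm).aemeasurable
  apply ext_of_finite_char
  intro s t
  have hc : ∀ ν : Measure (ℤ → ℝ), AEStronglyMeasurable (fun ω : ℤ → ℝ =>
      Complex.exp ((∑ i ∈ s, t i * ω i : ℝ) * Complex.I)) ν := by
    intro ν
    have : Measurable fun ω : ℤ → ℝ => ex (∑ i ∈ s, t i * ω i) := by
      apply meas_ex.comp
      exact Finset.measurable_fun_sum _ fun i _ => (measurable_pi_apply i).const_mul _
    exact this.aestronglyMeasurable
  rw [integral_map (hm.comp hpm).aemeasurable (hc _), integral_map hpm.aemeasurable (hc _)]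
  have e1 := hH.int_ex_prod (I := I) (a := ∑ n ∈ s, t n • ξ n) (b := fun i => ∑ n ∈ s, t n • u i n)
    (H.sum_mem fun n _ => H.smul_mem _ (hξ n)) (fun i => H.sum_mem fun n _ => H.smul_mem _ (hu i n))
  have e2 := hH.int_ex_prod (I := I) (a := ∑ n ∈ s, t n • ξ (n + 1))
    (b := fun i => ∑ n ∈ s, t n • u i (n + 1))
    (H.sum_mem fun n _ => H.smul_mem _ (hξ _)) (fun i => H.sum_mem fun n _ => H.smul_mem _ (hu i _))
  rw [hst, ← e1] at e2
  calc _ = ∫ p : X × (I → X), ex ((∑ n ∈ s, t n • ξ (n + 1)) p.1 +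
        ∑ i, (∑ n ∈ s, t n • u i (n + 1)) (p.2 i)) ∂(μ.prod (Measure.pi fun _ => μ)) := by
        apply integral_congr_ae
        refine Eventually.of_forall fun p => ?_
        have := proc_comb (fun n => ξ (n + 1)) (fun i n => u i (n + 1)) s t p
        exact congrArg ex this
    _ = _ := e2
    _ = _ := by
        apply integral_congr_ae
        refine Eventually.of_forall fun p => ?_
        have := proc_comb ξ u s t p
        exact congrArg ex this.symm

/-- **Core statement.** -/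
theorem GaussSpace.core [IsProbabilityMeasure μ] (hH : GaussSpace μ H) {b : ℤ → ℤ} (hb : PG b)
    {ξ : ℤ → X → ℝ} {u : I → ℤ → X → ℝ} {v : I → X → ℝ} (hξ : ∀ n, ξ n ∈ H)
    (hu : ∀ i n, u i n ∈ H) (hv : ∀ i, v i ∈ H)
    (hst : ∀ (s : Finset ℤ) (t : ℤ → ℝ),
      q μ (∑ n ∈ s, t n • ξ (n + 1)) + ∑ i, q μ (∑ n ∈ s, t n • u i (n + 1)) =
      q μ (∑ n ∈ s, t n • ξ n) + ∑ i, q μ (∑ n ∈ s, t n • u i n))
    {Q₀ : ℝ} (hQ : ∀ n, ∑ i, q μ (u i n + v i) = Q₀) :
    ∀ᵐ x ∂μ, ∃ L : ℂ, Tendsto (A2 fun n => ex (ξ (b n) x)) atTop (𝓝 L) := by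
  have hξm : ∀ n, Measurable (ξ n) := fun n => hH.meas _ (hξ n)
  have hum : ∀ i n, Measurable (u i n) := fun i n => hH.meas _ (hu i n)
  have hvm : ∀ i, Measurable (v i) := fun i => hH.meas _ (hv i)
  have hpm : Measurable fun (p : X × (I → X)) (n : ℤ) => proc ξ u n p :=
    measurable_pi_lambda _ fun n => meas_proc hξm hum n
  have hP1 : IsProbabilityMeasure ((μ.prod (Measure.pi fun _ : I => μ)).map
      (fun p n => proc ξ u n p)) := Measure.isProbabilityMeasure_map hpm.aemeasurable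
  have hB := pg_seq hb (hH.stationary hξ hu hst)
  have hB' := ae_of_ae_map hpm.aemeasurable hB
  have hB'' := Measure.ae_ae_of_ae_prod hB'
  filter_upwards [hB''] with x hx
  set ν : Measure (I → X) := Measure.pi fun _ => μ with hν
  let F : ℕ → (I → X) → ℂ := fun N ω => A2 (fun n => ex (proc ξ u (b n) (x, ω))) N *
    ex (∑ i, v i (ω i))
  have hterm : ∀ n, Measurable fun ω : I → X => ex (proc ξ u n (x, ω)) := fun n =>
    meas_ex.comp ((meas_proc hξm hum n).comp measurable_prodMk_left)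
  have hvs : Measurable fun ω : I → X => ex (∑ i, v i (ω i)) := by
    apply meas_ex.comp
    exact Finset.measurable_fun_sum _ fun i _ => (hvm i).comp (measurable_pi_apply i)
  have hFm : ∀ N, AEStronglyMeasurable (F N) ν := by
    intro N
    apply Measurable.aestronglyMeasurable
    refine Measurable.mul ?_ hvs
    unfold A2
    exact ((Finset.measurable_fun_sum _ fun n _ => hterm _).const_mul _)
  have hFb : ∀ N, ∀ᵐ ω ∂ν, ‖F N ω‖ ≤ (fun _ => (1 : ℝ)) ω := by
    intro N
    refine Eventually.of_forall fun ω => ?_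
    show ‖A2 (fun n => ex (proc ξ u (b n) (x, ω))) N * ex (∑ i, v i (ω i))‖ ≤ 1
    rw [norm_mul, norm_ex, mul_one]
    exact A2_bound (fun n => (norm_ex _).le) N
  have hlim : ∀ᵐ ω ∂ν, Tendsto (fun N => F N ω) atTop
      (𝓝 (limUnder atTop (fun N => F N ω))) := by
    filter_upwards [hx] with ω hω
    apply tendsto_nhds_limUnder
    obtain ⟨L, hL⟩ := hω
    exact ⟨L * ex (∑ i, v i (ω i)), hL.mul_const _⟩
  have hD := tendsto_integral_of_dominated_convergence (fun _ => (1 : ℝ)) hFm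
    (integrable_const _) hFb hlim
  have hint : ∀ N, ∫ ω, F N ω ∂ν = Complex.exp ((-Q₀ / 2 : ℝ) : ℂ) *
      A2 (fun n => ex (ξ (b n) x)) N := by
    intro N
    have hsplit : ∀ n ω, ex (proc ξ u n (x, ω)) * ex (∑ i, v i (ω i)) =
        ex (ξ n x) * ex (∑ i, (u i n + v i) (ω i)) := by
      intro n ω
      rw [proc, ex_add, mul_assoc, ← ex_add, ← Finset.sum_add_distrib]
      rfl
    have h1 : ∀ ω, F N ω = ((2 * N + 1 : ℕ) : ℂ)⁻¹ * ∑ n ∈ Finset.Icc (-(N : ℤ)) (N : ℤ),
        ex (ξ (b n) x) * ex (∑ i, (u i (b n) + v i) (ω i)) := by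
      intro ω
      show A2 (fun n => ex (proc ξ u (b n) (x, ω))) N * ex (∑ i, v i (ω i)) = _
      rw [A2, mul_assoc, Finset.sum_mul]
      congr 1
      exact Finset.sum_congr rfl fun n _ => hsplit _ ω
    simp only [h1]
    rw [integral_const_mul, integral_finsetSum]
    · have h2 : ∀ n, ∫ ω, ex (ξ (b n) x) * ex (∑ i, (u i (b n) + v i) (ω i)) ∂ν =
          ex (ξ (b n) x) * Complex.exp ((-Q₀ / 2 : ℝ) : ℂ) := by
        intro n
        rw [integral_const_mul, hH.int_ex_pi fun i => H.add_mem (hu i (b n)) (hv i), hQ (b n)]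
      rw [Finset.sum_congr rfl fun n _ => h2 n, ← Finset.sum_mul, A2]
      ring
    · intro n _
      apply Integrable.const_mul
      refine Integrable.mono' (integrable_const (1 : ℝ)) ?_ (Eventually.of_forall fun ω => ?_)
      · apply Measurable.aestronglyMeasurable
        apply meas_ex.comp
        exact Finset.measurable_fun_sum _ fun i _ =>
          ((hum i (b n)).add (hvm i)).comp (measurable_pi_apply i)
      · rw [norm_ex]
  simp only [hint] at hD
  have hne : Complex.exp ((-Q₀ / 2 : ℝ) : ℂ) ≠ 0 := Complex.exp_ne_zero _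
  refine ⟨(Complex.exp ((-Q₀ / 2 : ℝ) : ℂ))⁻¹ * _, (hD.const_mul
    (Complex.exp ((-Q₀ / 2 : ℝ) : ℂ))⁻¹).congr fun N => ?_⟩
  rw [← mul_assoc, inv_mul_cancel₀ hne, one_mul]

end Pool.Agent.W761.Gauss
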