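import Pool.Agent.W761.Gauss.Semi
import Pool.Agent.H922R3.TA.App

/-!
# Semi-pointwise convergence along `V ^ n Z ^ (n (n - 1) / 2)`
-/

set_option autoImplicit false
set_option linter.unusedSectionVars false

open Filter Topology MeasureTheory
open scoped ComplexConjugate ENNReal

noncomputable section

namespace Pool.Agent.W761.Gauss

section general

variable {K : Type*} [NormedAddCommGroup K] [InnerProductSpace ℂ K]
variable {Ω : Type*} [MeasurableSpace Ω]

/-- The vectors `u` for which the averages of `F (τ^n ω) ⟨v, X n u⟩` converge for almost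
every `ω`, for all `v`. -/
def Gd (P : Measure Ω) (τ : Ω → Ω) (F : Ω → ℂ) (X : ℕ → K →ₗᵢ[ℂ] K) : Submodule ℂ K where
  carrier := {u | ∀ v, ∀ᵐ ω ∂P, ∃ L : ℂ, Tendsto (A1 fun n => F (τ^[n] ω) *
    inner ℂ v (X n u)) atTop (𝓝 L)}
  add_mem' := by
    intro a b ha hb v
    filter_upwards [ha v, hb v] with ω h1 h2
    obtain ⟨L, hL⟩ := h1
    obtain ⟨L', hL'⟩ := h2
    refine ⟨L + L', (hL.add hL').congr fun N => ?_⟩
    rw [← A1_add]
    congr 1
    funext n
    rw [map_add, inner_add_right, mul_add]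
  zero_mem' := by
    intro v
    refine Eventually.of_forall fun ω => ⟨0, ?_⟩
    refine Tendsto.congr (fun N => ?_) (tendsto_const_nhds (x := (0 : ℂ)))
    simp [A1]
  smul_mem' := by
    intro c a ha v
    filter_upwards [ha v] with ω h1
    obtain ⟨L, hL⟩ := h1
    refine ⟨c * L, (hL.const_mul c).congr fun N => ?_⟩
    rw [← A1_mul]
    congr 1
    funext n
    rw [map_smul, inner_smul_right]
    ring

theorem Gd_closed {P : Measure Ω} {τ : Ω → Ω} {F : Ω → ℂ} {C₀ : ℝ} (hC : ∀ ω, ‖F ω‖ ≤ C₀)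
    (X : ℕ → K →ₗᵢ[ℂ] K) : IsClosed ((Gd P τ F X : Submodule ℂ K) : Set K) := by
  rw [← isSeqClosed_iff_isClosed]
  intro u u₀ hu hlim v
  have h1 : ∀ᵐ ω ∂P, ∀ i, ∃ L : ℂ, Tendsto (A1 fun n => F (τ^[n] ω) *
    inner ℂ v (X n (u i))) atTop (𝓝 L) := ae_all_iff.mpr fun i => hu i v
  filter_upwards [h1] with ω hω
  have hC0 : 0 ≤ C₀ := (norm_nonneg _).trans (hC ω)
  apply cauchySeq_tendsto_of_complete
  rw [Metric.cauchySeq_iff']
  intro ε hε
  have hD : 0 < C₀ * ‖v‖ + 1 := by positivity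
  obtain ⟨i, hi⟩ := (Metric.tendsto_atTop.mp hlim (ε / 4 / (C₀ * ‖v‖ + 1)) (by positivity))
  have hi' := hi i le_rfl
  rw [dist_eq_norm] at hi'
  obtain ⟨L, hL⟩ := hω i
  obtain ⟨N₀, hN₀⟩ := Metric.tendsto_atTop.mp hL (ε / 4) (by positivity)
  have hclose : ∀ N, ‖A1 (fun n => F (τ^[n] ω) * inner ℂ v (X n u₀)) N -
      A1 (fun n => F (τ^[n] ω) * inner ℂ v (X n (u i))) N‖ ≤ ε / 4 := by
    intro N
    rw [← A1_sub]
    apply A1_bound (by positivity)
    intro n
    rw [← mul_sub, ← inner_sub_right, ← map_sub, norm_mul]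
    have h2 : ‖inner ℂ v (X n (u₀ - u i))‖ ≤ ‖v‖ * ‖u i - u₀‖ := by
      refine (norm_inner_le_norm _ _).trans ?_
      rw [LinearIsometry.norm_map, norm_sub_rev]
    calc ‖F (τ^[n] ω)‖ * ‖inner ℂ v (X n (u₀ - u i))‖ ≤ C₀ * (‖v‖ * ‖u i - u₀‖) :=
          mul_le_mul (hC _) h2 (norm_nonneg _) hC0
      _ = (C₀ * ‖v‖) * ‖u i - u₀‖ := by ring
      _ ≤ (C₀ * ‖v‖ + 1) * ‖u i - u₀‖ := by
          apply mul_le_mul_of_nonneg_right _ (norm_nonneg _)
          linarith
      _ ≤ (C₀ * ‖v‖ + 1) * (ε / 4 / (C₀ * ‖v‖ + 1)) :=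
          mul_le_mul_of_nonneg_left hi'.le hD.le
      _ = ε / 4 := by field_simp
  refine ⟨N₀, fun N hN => ?_⟩
  have a1 := hclose N
  have a2 := hclose N₀
  have a3 := hN₀ N hN
  have a4 := hN₀ N₀ le_rfl
  rw [dist_eq_norm] at a3 a4 ⊢
  set p := A1 (fun n => F (τ^[n] ω) * inner ℂ v (X n u₀)) N
  set p' := A1 (fun n => F (τ^[n] ω) * inner ℂ v (X n u₀)) N₀
  set r := A1 (fun n => F (τ^[n] ω) * inner ℂ v (X n (u i))) N
  set r' := A1 (fun n => F (τ^[n] ω) * inner ℂ v (X n (u i))) N₀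
  have e1 : p - p' = (p - r) + (r - L) - (r' - L) - (p' - r') := by ring
  rw [e1]
  have b1 := norm_sub_le ((p - r) + (r - L) - (r' - L)) (p' - r')
  have b2 := norm_sub_le ((p - r) + (r - L)) (r' - L)
  have b3 := norm_add_le (p - r) (r - L)
  linarith

end general

section koopman

variable {Y : Type*} [MeasurableSpace Y] {ν : Measure Y} [IsProbabilityMeasure ν]
variable {Ω : Type*} [MeasurableSpace Ω] {P : Measure Ω} [IsProbabilityMeasure P]

/-- The Koopman isometry. -/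
def Ko (V : Y → Y) (hV : MeasurePreserving V ν ν) : Lp ℂ 2 ν →ₗᵢ[ℂ] Lp ℂ 2 ν :=
  Lp.compMeasurePreservingₗᵢ ℂ V hV

theorem Ko_toLp {V : Y → Y} (hV : MeasurePreserving V ν ν) {g : Y → ℂ} (hg : MemLp g 2 ν) :
    Ko V hV (hg.toLp g) = (hg.comp_measurePreserving hV).toLp _ := rfl

theorem Ko_coe {V : Y → Y} (hV : MeasurePreserving V ν ν) (g : Lp ℂ 2 ν) :
    (Ko V hV g : Y → ℂ) =ᵐ[ν] g ∘ V := Lp.coeFn_compMeasurePreserving g hV

theorem Ko_pow {V : Y → Y} (hV : MeasurePreserving V ν ν) (n : ℕ) :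
    (Ko V hV) ^ n = Ko (V^[n]) (hV.iterate n) := by
  induction n with
  | zero =>
    ext1 g
    apply Lp.ext
    refine EventuallyEq.trans ?_ (Ko_coe (hV.iterate 0) g).symm
    rw [pow_zero]
    rfl
  | succ n ih =>
    ext1 g
    apply Lp.ext
    refine EventuallyEq.trans ?_ (Ko_coe (hV.iterate (n + 1)) g).symm
    rw [pow_succ', ih]
    have h1 := Ko_coe hV (Ko (V^[n]) (hV.iterate n) g)
    have h2 := hV.quasiMeasurePreserving.ae_eq_comp (Ko_coe (hV.iterate n) g)
    refine (h1.trans h2).trans ?_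
    refine Eventually.of_forall fun y => ?_
    simp only [Function.comp_apply, Function.iterate_succ_apply]

theorem inner_toLp (v : Lp ℂ 2 ν) {g : Y → ℂ} (hg : MemLp g 2 ν) :
    inner ℂ v (hg.toLp g) = ∫ y, conj (v y) * g y ∂ν := by
  rw [L2.inner_def]
  apply integral_congr_ae
  filter_upwards [hg.coeFn_toLp] with y hy
  rw [hy, RCLike.inner_apply, mul_comm]

/-- The first convergence statement. -/
theorem W1_bdd {τ : Ω → Ω} (hτ : MeasurePreserving τ P P) {F : Ω → ℂ} (hF : Measurable F)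
    {C₀ : ℝ} (hC : ∀ ω, ‖F ω‖ ≤ C₀) {V : Y → Y} (hV : MeasurePreserving V ν ν)
    {g : Y → ℂ} (hgm : Measurable g) {C₁ : ℝ} (hC₁ : ∀ y, ‖g y‖ ≤ C₁) (hg : MemLp g 2 ν) :
    hg.toLp g ∈ Gd P τ F (fun n => (Ko V hV) ^ n) := by
  intro v
  have hprod := hτ.prod hV
  have hB := birkC hprod (F := fun p : Ω × Y => F p.1 * g p.2)
    ((hF.comp measurable_fst).mul (hgm.comp measurable_snd)) (C := C₀ * C₁) (by
      intro p
      rw [norm_mul]
      exact mul_le_mul (hC _) (hC₁ _) (norm_nonneg _) ((norm_nonneg _).trans (hC p.1)))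
  have hit : ∀ (n : ℕ) (p : Ω × Y), (Prod.map τ V)^[n] p = (τ^[n] p.1, V^[n] p.2) := by
    intro n p
    rw [Prod.map_iterate]
    rfl
  have hB' := Measure.ae_ae_of_ae_prod hB
  filter_upwards [hB'] with ω hω
  have hC0 : 0 ≤ C₀ := (norm_nonneg _).trans (hC ω)
  have hvi : Integrable (fun y => conj (v y)) ν := by
    have h1 : Integrable v ν := (Lp.memLp v).integrable (by norm_num)
    exact (RCLike.conjCLE (K := ℂ)).integrable_comp_iff.mpr h1
  have hC1 : 0 ≤ C₁ := by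
    have : Nonempty Y := by
      by_contra hcon
      rw [not_nonempty_iff] at hcon
      have h0 : ν Set.univ = 0 := by
        rw [Set.univ_eq_empty_iff.mpr hcon, measure_empty]
      rw [measure_univ] at h0
      exact one_ne_zero h0
    obtain ⟨y⟩ := this
    exact (norm_nonneg _).trans (hC₁ y)
  let G : ℕ → Y → ℂ := fun N y => conj (v y) * A1 (fun n => F (τ^[n] ω) * g (V^[n] y)) N
  have hGm : ∀ N, AEStronglyMeasurable (G N) ν := by
    intro N
    apply hvi.aestronglyMeasurable.mul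
    apply Measurable.aestronglyMeasurable
    unfold A1
    apply Measurable.const_mul
    apply Finset.measurable_fun_sum
    intro n _
    exact (hgm.comp (hV.iterate n).measurable).const_mul _
  have hGb : ∀ N, ∀ᵐ y ∂ν, ‖G N y‖ ≤ (fun y => ‖conj (v y)‖ * (C₀ * C₁)) y := by
    intro N
    refine Eventually.of_forall fun y => ?_
    show ‖conj (v y) * A1 (fun n => F (τ^[n] ω) * g (V^[n] y)) N‖ ≤ _
    rw [norm_mul]
    apply mul_le_mul_of_nonneg_left _ (norm_nonneg _)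
    apply A1_bound (by positivity)
    intro n
    rw [norm_mul]
    exact mul_le_mul (hC _) (hC₁ _) (norm_nonneg _) hC0
  have hlim : ∀ᵐ y ∂ν, Tendsto (fun N => G N y) atTop (𝓝 (limUnder atTop fun N => G N y)) := by
    filter_upwards [hω] with y hy
    apply tendsto_nhds_limUnder
    obtain ⟨L, hL⟩ := hy
    refine ⟨conj (v y) * L, Tendsto.const_mul _ (hL.congr fun N => ?_)⟩
    simp only [hit]
  have hD := tendsto_integral_of_dominated_convergence
    (fun y => ‖conj (v y)‖ * (C₀ * C₁)) hGm (hvi.norm.mul_const _) hGb hlim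
  refine ⟨_, hD.congr fun N => ?_⟩
  have h2 : ∀ y, G N y = (N : ℂ)⁻¹ * ∑ n ∈ Finset.range N,
      F (τ^[n] ω) * (conj (v y) * g (V^[n] y)) := by
    intro y
    show conj (v y) * ((N : ℂ)⁻¹ * ∑ n ∈ Finset.range N, F (τ^[n] ω) * g (V^[n] y)) = _
    rw [Finset.mul_sum, Finset.mul_sum, Finset.mul_sum]
    apply Finset.sum_congr rfl
    intro n _
    ring
  simp only [h2]
  rw [integral_const_mul, integral_finsetSum, A1]
  · congr 1
    apply Finset.sum_congr rfl
    intro n _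
    rw [integral_const_mul, Ko_pow, Ko_toLp, inner_toLp]
    rfl
  · intro n _
    apply Integrable.const_mul
    refine (hvi.mul_bdd (c := C₁) ?_ ?_)
    · exact (hgm.comp (hV.iterate n).measurable).aestronglyMeasurable
    · exact Eventually.of_forall fun y => hC₁ _

theorem W1 {τ : Ω → Ω} (hτ : MeasurePreserving τ P P) {F : Ω → ℂ} (hF : Measurable F)
    {C₀ : ℝ} (hC : ∀ ω, ‖F ω‖ ≤ C₀) {V : Y → Y} (hV : MeasurePreserving V ν ν)
    (u : Lp ℂ 2 ν) : u ∈ Gd P τ F (fun n => (Ko V hV) ^ n) := by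
  refine Lp.induction (p := 2) (by norm_num)
    (motive := fun u => u ∈ Gd P τ F (fun n => (Ko V hV) ^ n)) ?_ ?_ ?_ u
  · intro c s hs hμs
    rw [Lp.simpleFunc.coe_indicatorConst]
    refine W1_bdd hτ hF hC hV (measurable_const.indicator hs) (C₁ := ‖c‖) (fun y => ?_)
      (memLp_indicator_const 2 hs c (Or.inr hμs.ne))
    by_cases hy : y ∈ s
    · rw [Set.indicator_of_mem hy]
    · rw [Set.indicator_of_notMem hy, norm_zero]
      exact norm_nonneg _
  · intro f g hf hg _ h1 h2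
    exact (Gd P τ F (fun n => (Ko V hV) ^ n)).add_mem h1 h2
  · exact Gd_closed hC _

/-- `n (n - 1) / 2`. -/
def tri (n : ℕ) : ℕ := n.choose 2

theorem tri_add (m d : ℕ) : tri (m + d) = tri m + d * m + tri d := by
  unfold tri
  induction d with
  | zero => simp
  | succ d ih =>
    rw [← add_assoc, Nat.choose_succ_succ' (m + d) 1, Nat.choose_succ_succ' d 1, ih,
      Nat.choose_one_right, Nat.choose_one_right]
    ring

/-- Multiples of `k`: `tri (r + 2 k n) = tri r + k * _`. -/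
theorem tri_period (r k n : ℕ) : ∃ t, tri (r + 2 * k * n) = tri r + k * t := by
  rcases Nat.eq_zero_or_pos (k * n) with h | h
  · refine ⟨0, ?_⟩
    have : 2 * k * n = 0 := by rw [mul_assoc, h, mul_zero]
    rw [this, mul_zero, add_zero, add_zero]
  · refine ⟨2 * n * r + n * (2 * (k * n) - 1), ?_⟩
    rw [tri_add]
    have h1 : tri (2 * k * n) = k * (n * (2 * (k * n) - 1)) := by
      unfold tri
      rw [Nat.choose_two_right]
      have : 2 * k * n * (2 * k * n - 1) = 2 * (k * (n * (2 * (k * n) - 1))) := by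
        rw [mul_assoc 2 k n]
        ring
      rw [this, Nat.mul_div_cancel_left _ (by norm_num)]
    rw [h1]
    ring

/-- The polynomial sequence. -/
def pseq (A B : Lp ℂ 2 ν →ₗᵢ[ℂ] Lp ℂ 2 ν) (n : ℕ) : Lp ℂ 2 ν →ₗᵢ[ℂ] Lp ℂ 2 ν :=
  A ^ n * B ^ tri n

theorem mul_app (A B : Lp ℂ 2 ν →ₗᵢ[ℂ] Lp ℂ 2 ν) (u : Lp ℂ 2 ν) : (A * B) u = A (B u) := rfl

theorem pow_fix {A : Lp ℂ 2 ν →ₗᵢ[ℂ] Lp ℂ 2 ν} {u : Lp ℂ 2 ν} {k : ℕ} (h : (A ^ k) u = u)
    (t : ℕ) : (A ^ (k * t)) u = u := by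
  induction t with
  | zero => rfl
  | succ t ih => rw [Nat.mul_succ, pow_add, mul_app, h, ih]

/-- The invariant vectors of `B ^ k`. -/
def Inv (B : Lp ℂ 2 ν →ₗᵢ[ℂ] Lp ℂ 2 ν) (k : ℕ) : Submodule ℂ (Lp ℂ 2 ν) where
  carrier := {u | (B ^ k) u = u}
  add_mem' := by
    intro a b ha hb
    show (B ^ k) (a + b) = a + b
    rw [map_add, ha, hb]
  zero_mem' := map_zero _
  smul_mem' := by
    intro c a ha
    show (B ^ k) (c • a) = c • a
    rw [map_smul, ha]

theorem Inv_le {τ : Ω → Ω} (hτ : MeasurePreserving τ P P) {F : Ω → ℂ} (hF : Measurable F)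
    {C₀ : ℝ} (hC : ∀ ω, ‖F ω‖ ≤ C₀) {V Z : Y → Y} (hV : MeasurePreserving V ν ν)
    (hZ : MeasurePreserving Z ν ν) {k : ℕ} (hk : 1 ≤ k) :
    Inv (Ko Z hZ) k ≤ Gd P τ F (pseq (Ko V hV) (Ko Z hZ)) := by
  intro u hu v
  have hu' : ((Ko Z hZ) ^ k) u = u := hu
  have key : ∀ r : ℕ, ∀ᵐ ω ∂P, ∃ L : ℂ, Tendsto (fun N : ℕ => (N : ℂ)⁻¹ *
      ∑ n ∈ Finset.range N, F (τ^[r + 2 * k * n] ω) *
        inner ℂ v (pseq (Ko V hV) (Ko Z hZ) (r + 2 * k * n) u)) atTop (𝓝 L) := by
    intro r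
    have h1 := W1 (hτ.iterate (2 * k)) (F := fun ω => F (τ^[r] ω))
      (hF.comp (hτ.iterate r).measurable) (fun ω => hC _) (hV.iterate (2 * k))
      (((Ko V hV) ^ r * (Ko Z hZ) ^ tri r) u) v
    filter_upwards [h1] with ω hω
    obtain ⟨L, hL⟩ := hω
    refine ⟨L, hL.congr fun N => ?_⟩
    rw [A1]
    congr 1
    apply Finset.sum_congr rfl
    intro n _
    have e1 : τ^[r] ((τ^[2 * k])^[n] ω) = τ^[r + 2 * k * n] ω := by
      rw [← Function.iterate_mul, ← Function.iterate_add_apply]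
    have e2 : ((Ko (V^[2 * k]) (hV.iterate (2 * k))) ^ n)
        (((Ko V hV) ^ r * (Ko Z hZ) ^ tri r) u) =
        pseq (Ko V hV) (Ko Z hZ) (r + 2 * k * n) u := by
      obtain ⟨t, ht⟩ := tri_period r k n
      rw [pseq, mul_app, mul_app, ht, pow_add (Ko Z hZ), mul_app, pow_fix hu', ← Ko_pow,
        ← pow_mul, ← mul_app, ← pow_add, add_comm r]
    rw [e1, e2]
  have hall : ∀ᵐ ω ∂P, ∀ r : ℕ, ∃ L : ℂ, Tendsto (fun N : ℕ => (N : ℂ)⁻¹ *
      ∑ n ∈ Finset.range N, F (τ^[r + 2 * k * n] ω) *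
        inner ℂ v (pseq (Ko V hV) (Ko Z hZ) (r + 2 * k * n) u)) atTop (𝓝 L) :=
    ae_all_iff.mpr key
  filter_upwards [hall] with ω hω
  refine H922R3.TA.avg_classes (u := fun n => F (τ^[n] ω) *
    inner ℂ v (pseq (Ko V hV) (Ko Z hZ) n u)) (C := C₀ * (‖v‖ * ‖u‖)) ?_
    (q := 2 * k) (by omega) hω
  intro n
  rw [norm_mul]
  apply mul_le_mul (hC _) _ (norm_nonneg _) ((norm_nonneg _).trans (hC ω))
  refine (norm_inner_le_norm _ _).trans ?_
  rw [LinearIsometry.norm_map]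

theorem inner_pseq {A B : Lp ℂ 2 ν →ₗᵢ[ℂ] Lp ℂ 2 ν} (hAB : Commute A B) (u : Lp ℂ 2 ν)
    (m d : ℕ) :
    inner ℂ (pseq A B m u) (pseq A B (m + d) u) =
      inner ℂ u (((B ^ d) ^ m) ((A ^ d * B ^ tri d) u)) := by
  have h1 : pseq A B (m + d) u = pseq A B m (((B ^ d) ^ m) ((A ^ d * B ^ tri d) u)) := by
    rw [pseq, pseq, ← mul_app, ← mul_app]
    congr 1
    rw [tri_add, pow_add A, pow_add B, pow_add B, pow_mul B]
    have hc1 : Commute (A ^ d) (B ^ tri m * (B ^ d) ^ m) :=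
      ((hAB.pow_pow _ _).mul_right ((hAB.pow_right d).pow_pow d m))
    calc A ^ m * A ^ d * (B ^ tri m * (B ^ d) ^ m * B ^ tri d) =
        A ^ m * (A ^ d * (B ^ tri m * (B ^ d) ^ m)) * B ^ tri d := by
          simp only [mul_assoc]
      _ = A ^ m * B ^ tri m * ((B ^ d) ^ m * (A ^ d * B ^ tri d)) := by
          rw [hc1.eq]
          simp only [mul_assoc]
      _ = A ^ m * B ^ tri m * (B ^ d) ^ m * (A ^ d * B ^ tri d) := by
          simp only [mul_assoc]
  rw [h1, LinearIsometry.inner_map_map]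

theorem perp_le {τ : Ω → Ω} (hτ : MeasurePreserving τ P P) {F : Ω → ℂ} (hF : Measurable F)
    {C₀ : ℝ} (hC : ∀ ω, ‖F ω‖ ≤ C₀) {V Z : Y → Y} (hV : MeasurePreserving V ν ν)
    (hZ : MeasurePreserving Z ν ν) (hVZ : Commute (Ko V hV) (Ko Z hZ)) {u : Lp ℂ 2 ν}
    (hu : ∀ k, 1 ≤ k → u ∈ (Inv (Ko Z hZ) k)ᗮ) :
    u ∈ Gd P τ F (pseq (Ko V hV) (Ko Z hZ)) := by
  set A := Ko V hV with hA
  set B := Ko Z hZ with hB
  intro v
  have hFi : ∀ n, Measurable fun ω => F (τ^[n] ω) := fun n => hF.comp (hτ.iterate n).measurable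
  have hz := semi_zero hτ hF hC (x := fun n => pseq A B n u) (D := ‖u‖)
    (fun n => by rw [LinearIsometry.norm_map]) ?_ ?_
  · filter_upwards [hz] with ω hω
    refine ⟨inner ℂ v 0, Tendsto.congr (fun N => ?_)
      ((continuous_const.inner continuous_id).tendsto _ |>.comp hω)⟩
    simp only [Function.comp_apply, id]
    rw [inner_smul_right, inner_sum, A1]
    simp only [inner_smul_right]
  · -- existence of correlations
    have key : ∀ h d, ∀ᵐ ω ∂P, ∃ L : ℂ, Tendsto (A1 fun n => conj (F (τ^[n + h] ω)) *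
        F (τ^[n + (h + d)] ω) * inner ℂ (pseq A B (n + h) u) (pseq A B (n + (h + d)) u))
        atTop (𝓝 L) := by
      intro h d
      have h1 := W1 hτ (F := fun ω => conj (F (τ^[h] ω)) * F (τ^[h + d] ω))
        ((Complex.continuous_conj.measurable.comp (hFi h)).mul (hFi (h + d)))
        (C₀ := C₀ * C₀) (fun ω => by
          rw [norm_mul, RCLike.norm_conj]
          exact mul_le_mul (hC _) (hC _) (norm_nonneg _) ((norm_nonneg _).trans (hC ω)))
        (hZ.iterate d) (((B ^ d) ^ h) ((A ^ d * B ^ tri d) u)) u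
      filter_upwards [h1] with ω hω
      obtain ⟨L, hL⟩ := hω
      refine ⟨L, hL.congr fun N => ?_⟩
      congr 1
      funext n
      rw [← add_assoc, inner_pseq hVZ, ← Ko_pow, ← mul_app, ← pow_add,
        ← Function.iterate_add_apply, ← Function.iterate_add_apply, add_comm h n,
        add_comm (h + d) n, ← add_assoc]
    intro h k
    rcases le_total h k with hhk | hhk
    · obtain ⟨d, rfl⟩ := Nat.exists_eq_add_of_le hhk
      exact key h d
    · obtain ⟨d, rfl⟩ := Nat.exists_eq_add_of_le hhk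
      filter_upwards [key k d] with ω hω
      obtain ⟨L, hL⟩ := hω
      refine ⟨conj L, Tendsto.congr (fun N => ?_) ((Complex.continuous_conj.tendsto _).comp hL)⟩
      rw [Function.comp_apply, A1, A1, map_mul, map_sum, map_inv₀, Complex.conj_natCast]
      congr 1
      apply Finset.sum_congr rfl
      intro n _
      rw [map_mul, map_mul, Complex.conj_conj, inner_conj_symm]
      ring
  · -- vanishing of correlations
    have key : ∀ h d, 1 ≤ d → Tendsto (A1 fun n => inner ℂ (pseq A B (n + h) u)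
        (pseq A B (n + (h + d)) u)) atTop (𝓝 0) := by
      intro h d hd
      set T : Lp ℂ 2 ν →L[ℂ] Lp ℂ 2 ν := (B ^ d).toContinuousLinearMap with hT
      set w : Lp ℂ 2 ν := ((B ^ d) ^ h) ((A ^ d * B ^ tri d) u) with hw
      have hTn : ‖T‖ ≤ 1 := (B ^ d).norm_toContinuousLinearMap_le
      have h2 := ContinuousLinearMap.tendsto_birkhoffAverage_orthogonalProjection T hTn w
      set p : Lp ℂ 2 ν := ((T.eqLocus (1 : Lp ℂ 2 ν →L[ℂ] Lp ℂ 2 ν)).orthogonalProjectionOnto w :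
        Lp ℂ 2 ν) with hp
      have hpm : p ∈ Inv B d :=
        ((T.eqLocus (1 : Lp ℂ 2 ν →L[ℂ] Lp ℂ 2 ν)).orthogonalProjectionOnto w).2
      have h3 : inner ℂ u p = 0 := by
        have := (Submodule.mem_orthogonal _ _).mp (hu d hd) p hpm
        rw [← inner_conj_symm, this, map_zero]
      have h4 := ((continuous_const (y := u)).inner (𝕜 := ℂ) continuous_id).tendsto p |>.comp h2
      simp only [id] at h4
      rw [h3] at h4
      refine h4.congr fun N => ?_
      rw [Function.comp_apply, birkhoffAverage, birkhoffSum, inner_smul_right, inner_sum, A1]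
      congr 1
      apply Finset.sum_congr rfl
      intro n _
      rw [← add_assoc, inner_pseq hVZ, pow_add, mul_app]
      congr 1
      have h5 : ∀ (m : ℕ) (x : Lp ℂ 2 ν), T^[m] x = ((B ^ d) ^ m) x := by
        intro m
        induction m with
        | zero => intro x; rfl
        | succ m ih =>
          intro x
          rw [Function.iterate_succ_apply, ih, pow_succ, mul_app]
          rfl
      exact h5 n w
    intro h k hhk
    rcases lt_or_gt_of_ne hhk with hlt | hlt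
    · obtain ⟨d, rfl⟩ := Nat.exists_eq_add_of_le hlt.le
      exact key h d (by omega)
    · obtain ⟨d, rfl⟩ := Nat.exists_eq_add_of_le hlt.le
      have h6 := (Complex.continuous_conj.tendsto _).comp (key k d (by omega))
      rw [map_zero] at h6
      refine h6.congr fun N => ?_
      rw [Function.comp_apply, A1, A1, map_mul, map_sum, map_inv₀, Complex.conj_natCast]
      congr 1
      apply Finset.sum_congr rfl
      intro n _
      rw [inner_conj_symm]

/-- **Semi-pointwise convergence** along `V ^ n Z ^ tri n`. -/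
theorem W2 {τ : Ω → Ω} (hτ : MeasurePreserving τ P P) {F : Ω → ℂ} (hF : Measurable F)
    {C₀ : ℝ} (hC : ∀ ω, ‖F ω‖ ≤ C₀) {V Z : Y → Y} (hV : MeasurePreserving V ν ν)
    (hZ : MeasurePreserving Z ν ν) (hVZ : Commute (Ko V hV) (Ko Z hZ)) (u : Lp ℂ 2 ν) :
    u ∈ Gd P τ F (pseq (Ko V hV) (Ko Z hZ)) := by
  set G := Gd P τ F (pseq (Ko V hV) (Ko Z hZ)) with hG
  set S : Submodule ℂ (Lp ℂ 2 ν) := ⨆ k : {k : ℕ // 1 ≤ k}, Inv (Ko Z hZ) k with hS
  have h1 : S ≤ G := iSup_le fun k => Inv_le hτ hF hC hV hZ k.2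
  have h2 : S.topologicalClosure ≤ G :=
    Submodule.topologicalClosure_minimal _ h1 (Gd_closed hC _)
  have h3 : S.topologicalClosureᗮ ≤ G := by
    intro w hw
    rw [Submodule.orthogonal_closure] at hw
    apply perp_le hτ hF hC hV hZ hVZ
    intro k hk
    exact Submodule.orthogonal_le (le_iSup (fun k : {k : ℕ // 1 ≤ k} => Inv (Ko Z hZ) k)
      ⟨k, hk⟩) hw
  have h4 : S.topologicalClosure ⊔ S.topologicalClosureᗮ = ⊤ :=
    Submodule.sup_orthogonal_of_hasOrthogonalProjection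
  have h5 : (⊤ : Submodule ℂ (Lp ℂ 2 ν)) ≤ G := by
    rw [← h4]
    exact sup_le h2 h3
  exact h5 trivial

end koopman

end Pool.Agent.W761.Gauss
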