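import Pool.Agent.W761.Gauss.Dens
import Pool.Agent.W761.Gauss.Semi2

/-!
# Gaussian transformations generating pairwise nilpotent groups of class two
-/

set_option autoImplicit false
set_option linter.unusedSectionVars false

open Filter Topology MeasureTheory ProbabilityTheory
open scoped NNReal ENNReal ComplexConjugate commutatorElement

noncomputable section

namespace Pool.Agent.W761.Gauss

variable {X : Type*} [MeasurableSpace X] {μ : Measure X} {H : Submodule ℝ (X → ℝ)}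
variable {I : Type*} [Fintype I]

/-- The auxiliary process, indexed by `ℕ`. -/
def procN (ξ : ℕ → X → ℝ) (u : I → ℕ → X → ℝ) (n : ℕ) (p : X × (I → X)) : ℝ :=
  ξ n p.1 + ∑ i, u i n (p.2 i)

theorem procN_comb (ξ : ℕ → X → ℝ) (u : I → ℕ → X → ℝ) (s : Finset ℕ) (t : ℕ → ℝ)
    (p : X × (I → X)) :
    ∑ n ∈ s, t n * procN ξ u n p = (∑ n ∈ s, t n • ξ n) p.1 +
      ∑ i, (∑ n ∈ s, t n • u i n) (p.2 i) := by
  simp only [procN, Finset.sum_apply, Pi.smul_apply, smul_eq_mul, mul_add,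
    Finset.sum_add_distrib, Finset.mul_sum]
  congr 1
  rw [Finset.sum_comm]

theorem meas_procN {ξ : ℕ → X → ℝ} {u : I → ℕ → X → ℝ} (hξ : ∀ n, Measurable (ξ n))
    (hu : ∀ i n, Measurable (u i n)) (n : ℕ) : Measurable (procN ξ u n) := by
  apply Measurable.add ((hξ n).comp measurable_fst)
  apply Finset.measurable_fun_sum
  intro i _
  exact (hu i n).comp ((measurable_pi_apply i).comp measurable_snd)

/-- The auxiliary process is stationary. -/
theorem GaussSpace.stationaryN [IsProbabilityMeasure μ] (hH : GaussSpace μ H) {ξ : ℕ → X → ℝ}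
    {u : I → ℕ → X → ℝ} (hξ : ∀ n, ξ n ∈ H) (hu : ∀ i n, u i n ∈ H)
    (hst : ∀ (s : Finset ℕ) (t : ℕ → ℝ),
      q μ (∑ n ∈ s, t n • ξ (n + 1)) + ∑ i, q μ (∑ n ∈ s, t n • u i (n + 1)) =
      q μ (∑ n ∈ s, t n • ξ n) + ∑ i, q μ (∑ n ∈ s, t n • u i n)) :
    ((μ.prod (Measure.pi fun _ : I => μ)).map (fun p n => procN ξ u n p)).map
      (fun ω n => ω (n + 1)) =
      (μ.prod (Measure.pi fun _ : I => μ)).map (fun p n => procN ξ u n p) := by
  have hξm : ∀ n, Measurable (ξ n) := fun n => hH.meas _ (hξ n)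
  have hum : ∀ i n, Measurable (u i n) := fun i n => hH.meas _ (hu i n)
  have hpm : Measurable fun (p : X × (I → X)) (n : ℕ) => procN ξ u n p :=
    measurable_pi_lambda _ fun n => meas_procN hξm hum n
  have hm : Measurable (fun (ω : ℕ → ℝ) n => ω (n + 1)) :=
    measurable_pi_lambda _ fun n => measurable_pi_apply _
  rw [Measure.map_map hm hpm]
  have hP1 : IsProbabilityMeasure ((μ.prod (Measure.pi fun _ : I => μ)).map
      (fun p n => procN ξ u n p)) := Measure.isProbabilityMeasure_map hpm.aemeasurable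
  have hP2 : IsProbabilityMeasure ((μ.prod (Measure.pi fun _ : I => μ)).map
      ((fun (ω : ℕ → ℝ) n => ω (n + 1)) ∘ fun p n => procN ξ u n p)) :=
    Measure.isProbabilityMeasure_map (hm.comp hpm).aemeasurable
  apply ext_of_finite_char
  intro s t
  have hc : ∀ ν : Measure (ℕ → ℝ), AEStronglyMeasurable (fun ω : ℕ → ℝ =>
      Complex.exp ((∑ i ∈ s, t i * ω i : ℝ) * Complex.I)) ν := by
    intro ν
    have : Measurable fun ω : ℕ → ℝ => ex (∑ i ∈ s, t i * ω i) := by
      apply meas_ex.comp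
      exact Finset.measurable_fun_sum _ fun i _ => (measurable_pi_apply i).const_mul _
    exact this.aestronglyMeasurable
  rw [integral_map (hm.comp hpm).aemeasurable (hc _), integral_map hpm.aemeasurable (hc _)]
  have e1 := hH.int_ex_prod (I := I) (a := ∑ n ∈ s, t n • ξ n) (b := fun i => ∑ n ∈ s, t n • u i n)
    (H.sum_mem fun n _ => H.smul_mem _ (hξ n)) (fun i => H.sum_mem fun n _ => H.smul_mem _ (hu i n))
  have e2 := hH.int_ex_prod (I := I) (a := ∑ n ∈ s, t n • ξ (n + 1))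
    (b := fun i => ∑ n ∈ s, t n • u i (n + 1))
    (H.sum_mem fun n _ => H.smul_mem _ (hξ _)) (fun i => H.sum_mem fun n _ => H.smul_mem _ (hu i _))
  rw [hst, ← e1] at e2
  calc _ = ∫ p : X × (I → X), ex ((∑ n ∈ s, t n • ξ (n + 1)) p.1 +
        ∑ i, (∑ n ∈ s, t n • u i (n + 1)) (p.2 i)) ∂(μ.prod (Measure.pi fun _ => μ)) := by
        apply integral_congr_ae
        refine Eventually.of_forall fun p => ?_
        have := procN_comb (fun n => ξ (n + 1)) (fun i n => u i (n + 1)) s t p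
        exact congrArg ex this
    _ = _ := e2
    _ = _ := by
        apply integral_congr_ae
        refine Eventually.of_forall fun p => ?_
        have := procN_comb ξ u s t p
        exact congrArg ex this.symm

/-- **Core statement with weights.** -/
theorem GaussSpace.coreW [IsProbabilityMeasure μ] (hH : GaussSpace μ H)
    {ξ : ℕ → X → ℝ} {u : I → ℕ → X → ℝ} (hξ : ∀ n, ξ n ∈ H) (hu : ∀ i n, u i n ∈ H)
    (hst : ∀ (s : Finset ℕ) (t : ℕ → ℝ),
      q μ (∑ n ∈ s, t n • ξ (n + 1)) + ∑ i, q μ (∑ n ∈ s, t n • u i (n + 1)) =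
      q μ (∑ n ∈ s, t n • ξ n) + ∑ i, q μ (∑ n ∈ s, t n • u i n))
    {w : ℕ → ℂ} {W : ℝ} (hWb : ∀ n, ‖w n‖ ≤ W)
    (hw : ∀ (P : Measure (ℕ → ℝ)) [IsProbabilityMeasure P],
      MeasurePreserving (fun (ω : ℕ → ℝ) n => ω (n + 1)) P P →
      ∀ᵐ ω ∂P, ∃ L : ℂ, Tendsto (A1 fun n => w n * ex (ω n)) atTop (𝓝 L))
    {Q₀ : ℂ} (hQ0 : Q₀ ≠ 0)
    (hQ : ∀ n, w n * Complex.exp ((-(∑ i, q μ (u i n)) / 2 : ℝ) : ℂ) = Q₀) :
    ∀ᵐ x ∂μ, ∃ L : ℂ, Tendsto (A1 fun n => ex (ξ n x)) atTop (𝓝 L) := by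
  have hξm : ∀ n, Measurable (ξ n) := fun n => hH.meas _ (hξ n)
  have hum : ∀ i n, Measurable (u i n) := fun i n => hH.meas _ (hu i n)
  have hpm : Measurable fun (p : X × (I → X)) (n : ℕ) => procN ξ u n p :=
    measurable_pi_lambda _ fun n => meas_procN hξm hum n
  have hP1 : IsProbabilityMeasure ((μ.prod (Measure.pi fun _ : I => μ)).map
      (fun p n => procN ξ u n p)) := Measure.isProbabilityMeasure_map hpm.aemeasurable
  have hm : Measurable (fun (ω : ℕ → ℝ) n => ω (n + 1)) :=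
    measurable_pi_lambda _ fun n => measurable_pi_apply _
  have hB := hw _ ⟨hm, hH.stationaryN hξ hu hst⟩
  have hB' := ae_of_ae_map hpm.aemeasurable hB
  have hB'' := Measure.ae_ae_of_ae_prod hB'
  have hW0 : 0 ≤ W := (norm_nonneg _).trans (hWb 0)
  filter_upwards [hB''] with x hx
  set ν : Measure (I → X) := Measure.pi fun _ => μ with hν
  let F : ℕ → (I → X) → ℂ := fun N ω => A1 (fun n => w n * ex (procN ξ u n (x, ω))) N
  have hterm : ∀ n, Measurable fun ω : I → X => ex (procN ξ u n (x, ω)) := fun n =>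
    meas_ex.comp ((meas_procN hξm hum n).comp measurable_prodMk_left)
  have hFm : ∀ N, AEStronglyMeasurable (F N) ν := by
    intro N
    apply Measurable.aestronglyMeasurable
    show Measurable fun ω => A1 (fun n => w n * ex (procN ξ u n (x, ω))) N
    unfold A1
    exact ((Finset.measurable_fun_sum _ fun n _ => (hterm _).const_mul _).const_mul _)
  have hFb : ∀ N, ∀ᵐ ω ∂ν, ‖F N ω‖ ≤ (fun _ => W) ω := by
    intro N
    refine Eventually.of_forall fun ω => ?_
    apply A1_bound hW0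
    intro n
    rw [norm_mul, norm_ex, mul_one]
    exact hWb n
  have hlim : ∀ᵐ ω ∂ν, Tendsto (fun N => F N ω) atTop
      (𝓝 (limUnder atTop (fun N => F N ω))) := by
    filter_upwards [hx] with ω hω
    exact tendsto_nhds_limUnder hω
  have hD := tendsto_integral_of_dominated_convergence (fun _ => W) hFm
    (integrable_const _) hFb hlim
  have hint : ∀ N, ∫ ω, F N ω ∂ν = Q₀ * A1 (fun n => ex (ξ n x)) N := by
    intro N
    have h1 : ∀ ω, F N ω = (N : ℂ)⁻¹ * ∑ n ∈ Finset.range N,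
        (w n * ex (ξ n x)) * ex (∑ i, u i n (ω i)) := by
      intro ω
      show A1 (fun n => w n * ex (procN ξ u n (x, ω))) N = _
      rw [A1]
      congr 1
      apply Finset.sum_congr rfl
      intro n _
      rw [procN, ex_add, mul_assoc]
    simp only [h1]
    rw [integral_const_mul, integral_finsetSum]
    · have h2 : ∀ n, ∫ ω, (w n * ex (ξ n x)) * ex (∑ i, u i n (ω i)) ∂ν =
          Q₀ * ex (ξ n x) := by
        intro n
        rw [integral_const_mul, hH.int_ex_pi fun i => hu i n, ← hQ n]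
        ring
      rw [Finset.sum_congr rfl fun n _ => h2 n, ← Finset.mul_sum, A1]
      ring
    · intro n _
      apply Integrable.const_mul
      refine Integrable.mono' (integrable_const (1 : ℝ)) ?_ (Eventually.of_forall fun ω => ?_)
      · apply Measurable.aestronglyMeasurable
        apply meas_ex.comp
        exact Finset.measurable_fun_sum _ fun i _ => (hum i n).comp (measurable_pi_apply i)
      · rw [norm_ex]
  simp only [hint] at hD
  refine ⟨Q₀⁻¹ * _, (hD.const_mul Q₀⁻¹).congr fun N => ?_⟩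
  rw [← mul_assoc, inv_mul_cancel₀ hQ0, one_mul]

/-- The group identity. -/
theorem grp_id {G : Type*} [Group G] {a c : G} (h1 : Commute ⁅a, c⁆ a) (h2 : Commute ⁅a, c⁆ c)
    (n : ℕ) : a ^ n * (c ^ n)⁻¹ = (a * c⁻¹) ^ n * (⁅a, c⁆⁻¹) ^ tri n := by
  set κ := ⁅a, c⁆⁻¹ with hκ
  have k1 : Commute κ a := h1.inv_left
  have k2 : Commute κ c := h2.inv_left
  have k3 : Commute κ (a * c⁻¹) := k1.mul_right k2.inv_right
  have e1 : c * (a * c⁻¹) * c⁻¹ = κ * (a * c⁻¹) := by
    rw [hκ, commutatorElement_def]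
    group
  have e2 : ∀ n : ℕ, (a * c⁻¹) ^ n * c⁻¹ = c⁻¹ * (κ ^ n * (a * c⁻¹) ^ n) := by
    intro n
    rw [← k3.mul_pow, ← e1, conj_pow]
    group
  induction n with
  | zero => simp [tri]
  | succ n ih =>
    have e3 : tri (n + 1) = n + tri n := by
      unfold tri
      rw [Nat.choose_succ_succ' n 1, Nat.choose_one_right]
    have e4 : a ^ (n + 1) * (c ^ (n + 1))⁻¹ = a * (a ^ n * (c ^ n)⁻¹) * c⁻¹ := by
      rw [pow_succ' a, pow_succ' c, mul_inv_rev]
      group
    have k4 : Commute (κ ^ tri n) c⁻¹ := k2.inv_right.pow_left _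
    have k5 : Commute (κ ^ n) ((a * c⁻¹) ^ n) := k3.pow_pow _ _
    rw [e4, ih, e3]
    calc a * ((a * c⁻¹) ^ n * κ ^ tri n) * c⁻¹ = a * ((a * c⁻¹) ^ n * (κ ^ tri n * c⁻¹)) := by
          simp only [mul_assoc]
      _ = a * (((a * c⁻¹) ^ n * c⁻¹) * κ ^ tri n) := by
          rw [k4.eq]
          simp only [mul_assoc]
      _ = (a * c⁻¹) * (κ ^ n * (a * c⁻¹) ^ n) * κ ^ tri n := by
          rw [e2]
          simp only [mul_assoc]
      _ = (a * c⁻¹) ^ (n + 1) * κ ^ (n + tri n) := by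
          rw [k5.eq, pow_succ', pow_add]
          simp only [mul_assoc]

theorem Ko_comm {Y : Type*} [MeasurableSpace Y] {ν : Measure Y} [IsProbabilityMeasure ν]
    {V Z : Y → Y} (hV : MeasurePreserving V ν ν) (hZ : MeasurePreserving Z ν ν)
    (hVZ : V ∘ Z = Z ∘ V) : Commute (Ko V hV) (Ko Z hZ) := by
  show Ko V hV * Ko Z hZ = Ko Z hZ * Ko V hV
  ext1 g
  apply Lp.ext
  have h1 := (Ko_coe hV (Ko Z hZ g)).trans (hV.quasiMeasurePreserving.ae_eq_comp (Ko_coe hZ g))
  have h2 := (Ko_coe hZ (Ko V hV g)).trans (hZ.quasiMeasurePreserving.ae_eq_comp (Ko_coe hV g))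
  refine (h1.trans ?_).trans h2.symm
  rw [Function.comp_assoc, Function.comp_assoc, hVZ]

theorem pseq_toLp {Y : Type*} [MeasurableSpace Y] {ν : Measure Y} [IsProbabilityMeasure ν]
    {V Z : Y → Y} (hV : MeasurePreserving V ν ν) (hZ : MeasurePreserving Z ν ν) {g : Y → ℂ}
    (hg : MemLp g 2 ν) (n : ℕ) :
    pseq (Ko V hV) (Ko Z hZ) n (hg.toLp g) =
      ((hg.comp_measurePreserving (hZ.iterate (tri n))).comp_measurePreserving
        (hV.iterate n)).toLp _ := by
  rw [pseq, Ko_pow, Ko_pow, mul_app, Ko_toLp, Ko_toLp]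

variable {J : Type*} [Fintype J]

/-- **Convergence for exponentials**, one-sided, pairwise class two. -/
theorem GaussSpace.conv_exp2 [IsProbabilityMeasure μ] (hH : GaussSpace μ H)
    {S : J → Equiv.Perm X} (hS : ∀ j, Adm μ H (S j))
    (hc : ∀ j k, Commute ⁅S j, S k⁆ (S j))
    {h : J → X → ℝ} (hh : ∀ j, h j ∈ H) :
    ∀ᵐ x ∂μ, ∃ L : ℂ, Tendsto (A1 fun n =>
      ex (∑ j, h j ((S j ^ n : Equiv.Perm X) x))) atTop (𝓝 L) := by
  have hc' : ∀ j k, Commute ⁅S j, S k⁆ (S k) := by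
    intro j k
    have h1 := (hc k j).inv_left
    rwa [commutatorElement_inv] at h1
  set c : ℝ := Real.sqrt 2⁻¹ with hcdef
  have hc2 : c ^ 2 = 2⁻¹ := Real.sq_sqrt (by norm_num)
  let ξ : ℕ → X → ℝ := fun n => ∑ j, h j ∘ (S j ^ n : Equiv.Perm X)
  let u : J × J → ℕ → X → ℝ := fun p n => c • (h p.1 ∘ (S p.1 ^ n : Equiv.Perm X) -
      h p.2 ∘ (S p.2 ^ n : Equiv.Perm X))
  have hξ : ∀ n, ξ n ∈ H := fun n => H.sum_mem fun j _ => ((hS j).pow n).st _ (hh j)
  have hu : ∀ i n, u i n ∈ H := fun i n =>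
    H.smul_mem _ (H.sub_mem (((hS _).pow n).st _ (hh _)) (((hS _).pow n).st _ (hh _)))
  -- the product space
  let Y := J × J → X
  let ν : Measure Y := Measure.pi fun _ => μ
  let V1 : J × J → Equiv.Perm X := fun p => S p.1 * (S p.2)⁻¹
  let Z1 : J × J → Equiv.Perm X := fun p => (⁅S p.1, S p.2⁆)⁻¹
  have hV1 : ∀ p, Adm μ H (V1 p) := fun p => (hS _).mul (hS _).inv
  have hZ1 : ∀ p, Adm μ H (Z1 p) := fun p => by
    show Adm μ H (⁅S p.1, S p.2⁆)⁻¹
    rw [commutatorElement_def]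
    exact (((hS _).mul (hS _)).mul (hS _).inv |>.mul (hS _).inv).inv
  let V : Y → Y := fun y p => V1 p (y p)
  let Z : Y → Y := fun y p => Z1 p (y p)
  have hV : MeasurePreserving V ν ν := measurePreserving_pi _ _ fun p => (hV1 p).mp
  have hZ : MeasurePreserving Z ν ν := measurePreserving_pi _ _ fun p => (hZ1 p).mp
  have hVZ1 : ∀ p, Commute (Z1 p) (V1 p) := fun p =>
    ((hc p.1 p.2).inv_left).mul_right (hc' p.1 p.2).inv_left.inv_right
  have hVZ : V ∘ Z = Z ∘ V := by
    funext y p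
    show V1 p (Z1 p (y p)) = Z1 p (V1 p (y p))
    rw [← Equiv.Perm.mul_apply, ← Equiv.Perm.mul_apply, (hVZ1 p).eq]
  have hViter : ∀ (n : ℕ) (y : Y) (p : J × J), V^[n] y p = (V1 p ^ n) (y p) := by
    intro n
    induction n with
    | zero => intro y p; rfl
    | succ n ih =>
      intro y p
      rw [Function.iterate_succ_apply, ih, pow_succ]
      rfl
  have hZiter : ∀ (n : ℕ) (y : Y) (p : J × J), Z^[n] y p = (Z1 p ^ n) (y p) := by
    intro n
    induction n with
    | zero => intro y p; rfl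
    | succ n ih =>
      intro y p
      rw [Function.iterate_succ_apply, ih, pow_succ]
      rfl
  let g : Y → ℂ := fun y => ex (∑ p, (c • h p.1) (y p))
  let g' : Y → ℂ := fun y => ex (∑ p, (c • h p.2) (y p))
  have hgm : Measurable g := by
    apply meas_ex.comp
    exact Finset.measurable_fun_sum _ fun p _ =>
      (hH.meas _ (H.smul_mem c (hh p.1))).comp (measurable_pi_apply p)
  have hgm' : Measurable g' := by
    apply meas_ex.comp
    exact Finset.measurable_fun_sum _ fun p _ =>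
      (hH.meas _ (H.smul_mem c (hh p.2))).comp (measurable_pi_apply p)
  have hgL : MemLp g 2 ν := MemLp.of_bound hgm.aestronglyMeasurable 1
    (Eventually.of_forall fun y => (norm_ex _).le)
  have hgL' : MemLp (fun y => conj (g' y)) 2 ν := MemLp.of_bound
    (Complex.continuous_conj.measurable.comp hgm').aestronglyMeasurable 1
    (Eventually.of_forall fun y => by
      rw [RCLike.norm_conj]
      exact (norm_ex _).le)
  let w : ℕ → ℂ := fun n => inner ℂ (hgL'.toLp _) (pseq (Ko V hV) (Ko Z hZ) n (hgL.toLp g))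
  have hWb : ∀ n, ‖w n‖ ≤ ‖hgL'.toLp _‖ * ‖hgL.toLp g‖ := by
    intro n
    refine (norm_inner_le_norm _ _).trans ?_
    rw [LinearIsometry.norm_map]
  have hw : ∀ (P : Measure (ℕ → ℝ)) [IsProbabilityMeasure P],
      MeasurePreserving (fun (ω : ℕ → ℝ) n => ω (n + 1)) P P →
      ∀ᵐ ω ∂P, ∃ L : ℂ, Tendsto (A1 fun n => w n * ex (ω n)) atTop (𝓝 L) := by
    intro P _ hP
    have h1 := W2 hP (F := fun ω : ℕ → ℝ => ex (ω 0)) (meas_ex.comp (measurable_pi_apply 0))
      (C₀ := 1) (fun ω => (norm_ex _).le) hV hZ (Ko_comm hV hZ hVZ) (hgL.toLp g) (hgL'.toLp _)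
    filter_upwards [h1] with ω hω
    obtain ⟨L, hL⟩ := hω
    refine ⟨L, hL.congr fun N => ?_⟩
    congr 1
    funext n
    have hit : ∀ (k : ℕ) (ω : ℕ → ℝ) (l : ℕ), (fun (ω : ℕ → ℝ) n => ω (n + 1))^[k] ω l =
        ω (l + k) := by
      intro k
      induction k with
      | zero => intro ω l; rfl
      | succ k ih =>
        intro ω l
        rw [Function.iterate_succ_apply, ih]
        exact congrArg ω (by ring)
    rw [hit, zero_add, mul_comm]
  have hwval : ∀ n, w n = Complex.exp ((-(∑ p : J × J, 2⁻¹ * q μ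
      (h p.1 ∘ (S p.1 ^ n : Equiv.Perm X) + h p.2 ∘ (S p.2 ^ n : Equiv.Perm X))) / 2 : ℝ) : ℂ) := by
    intro n
    show inner ℂ (hgL'.toLp _) (pseq (Ko V hV) (Ko Z hZ) n (hgL.toLp g)) = _
    rw [pseq_toLp, inner_toLp]
    let R : J × J → Equiv.Perm X := fun p => Z1 p ^ tri n * V1 p ^ n
    have hR : ∀ p, R p = S p.1 ^ n * (S p.2 ^ n)⁻¹ := by
      intro p
      rw [grp_id (hc _ _) (hc' _ _)]
      exact ((hVZ1 p).pow_pow _ _).eq
    have hRA : ∀ p, Adm μ H (R p) := fun p => ((hZ1 p).pow _).mul ((hV1 p).pow _)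
    have h2 : ∫ y, conj ((hgL'.toLp _ : Lp ℂ 2 ν) y) * ((g ∘ Z^[tri n]) ∘ V^[n]) y ∂ν =
        ∫ y : J × J → X, ex (∑ p, (c • (h p.1 ∘ R p + h p.2)) (y p)) ∂(Measure.pi fun _ => μ) := by
      apply integral_congr_ae
      filter_upwards [hgL'.coeFn_toLp] with y hy
      rw [hy, Complex.conj_conj]
      show ex (∑ p, (c • h p.2) (y p)) * ex (∑ p, (c • h p.1) ((Z^[tri n] (V^[n] y)) p)) = _
      rw [← ex_add, ← Finset.sum_add_distrib]
      congr 1
      apply Finset.sum_congr rfl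
      intro p _
      rw [hZiter, hViter]
      show c * h p.2 (y p) + c * h p.1 ((Z1 p ^ tri n) ((V1 p ^ n) (y p))) =
        c * (h p.1 (R p (y p)) + h p.2 (y p))
      show _ = c * (h p.1 ((Z1 p ^ tri n * V1 p ^ n) (y p)) + h p.2 (y p))
      rw [Equiv.Perm.mul_apply]
      ring
    rw [h2, hH.int_ex_pi fun p => H.smul_mem c (H.add_mem ((hRA p).st _ (hh _)) (hh _))]
    congr 4
    apply Finset.sum_congr rfl
    intro p _
    rw [q_smul, hc2]
    congr 1
    have g1 : h p.1 ∘ R p + h p.2 ∈ H := H.add_mem ((hRA p).st _ (hh _)) (hh _)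
    rw [← q_comp ((hS p.2).pow n).mp (hH.meas _ g1)]
    congr 1
    ext x
    simp only [Function.comp_apply, Pi.add_apply]
    rw [← Equiv.Perm.mul_apply, hR, mul_assoc, inv_mul_cancel, mul_one]
  have hcore := hH.coreW (I := J × J) hξ hu ?_ hWb hw
    (Q₀ := Complex.exp ((-(∑ j, ∑ k, (q μ (h j) + q μ (h k))) / 2 : ℝ) : ℂ))
    (Complex.exp_ne_zero _) ?_
  · filter_upwards [hcore] with x hx
    obtain ⟨L, hL⟩ := hx
    refine ⟨L, hL.congr fun N => ?_⟩
    congr 1
    funext n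
    show ex ((∑ j, h j ∘ (S j ^ n : Equiv.Perm X)) x) = _
    rw [Finset.sum_apply]
    rfl
  · intro s t
    let A : J → X → ℝ := fun j => ∑ n ∈ s, t n • (h j ∘ (S j ^ n : Equiv.Perm X))
    let A' : J → X → ℝ := fun j => ∑ n ∈ s, t n • (h j ∘ (S j ^ (n + 1) : Equiv.Perm X))
    have hA : ∀ j, A j ∈ H := fun j => H.sum_mem fun n _ =>
      H.smul_mem _ (((hS j).pow n).st _ (hh j))
    have hA' : ∀ j, A' j ∈ H := fun j => H.sum_mem fun n _ =>
      H.smul_mem _ (((hS j).pow (n + 1)).st _ (hh j))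
    have hAA : ∀ j, q μ (A' j) = q μ (A j) := by
      intro j
      have : A' j = A j ∘ S j := by
        ext x
        show (∑ n ∈ s, t n • (h j ∘ (S j ^ (n + 1) : Equiv.Perm X))) x =
          (∑ n ∈ s, t n • (h j ∘ (S j ^ n : Equiv.Perm X))) (S j x)
        simp only [Finset.sum_apply, Pi.smul_apply, Function.comp_apply]
        apply Finset.sum_congr rfl
        intro n _
        rw [pow_succ, Equiv.Perm.mul_apply]
      rw [this, q_comp (hS j).mp (hH.meas _ (hA j))]
    have e1 : ∑ n ∈ s, t n • ξ n = ∑ j, A j := by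
      show ∑ n ∈ s, t n • (∑ j, h j ∘ (S j ^ n : Equiv.Perm X)) = _
      simp only [Finset.smul_sum]
      rw [Finset.sum_comm]
    have e1' : ∑ n ∈ s, t n • ξ (n + 1) = ∑ j, A' j := by
      show ∑ n ∈ s, t n • (∑ j, h j ∘ (S j ^ (n + 1) : Equiv.Perm X)) = _
      simp only [Finset.smul_sum]
      rw [Finset.sum_comm]
    have e2 : ∀ p : J × J, ∑ n ∈ s, t n • u p n = c • (A p.1 - A p.2) := by
      intro p
      show ∑ n ∈ s, t n • (c • (h p.1 ∘ (S p.1 ^ n : Equiv.Perm X) -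
        h p.2 ∘ (S p.2 ^ n : Equiv.Perm X))) = _
      rw [← Finset.sum_sub_distrib, Finset.smul_sum]
      apply Finset.sum_congr rfl
      intro n _
      rw [smul_comm, smul_sub]
    have e2' : ∀ p : J × J, ∑ n ∈ s, t n • u p (n + 1) = c • (A' p.1 - A' p.2) := by
      intro p
      show ∑ n ∈ s, t n • (c • (h p.1 ∘ (S p.1 ^ (n + 1) : Equiv.Perm X) -
        h p.2 ∘ (S p.2 ^ (n + 1) : Equiv.Perm X))) = _
      rw [← Finset.sum_sub_distrib, Finset.smul_sum]
      apply Finset.sum_congr rfl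
      intro n _
      rw [smul_comm, smul_sub]
    simp only [e1, e1', e2, e2', q_smul, hc2]
    rw [Fintype.sum_prod_type, Fintype.sum_prod_type]
    have i1 := hH.q_identity hA
    have i2 := hH.q_identity hA'
    simp only [hAA] at i2
    linarith
  · intro n
    rw [hwval, ← Complex.exp_add]
    congr 1
    rw [← Complex.ofReal_add]
    congr 1
    have f1 : ∀ p : J × J, q μ (u p n) =
        2⁻¹ * q μ (h p.1 ∘ (S p.1 ^ n : Equiv.Perm X) - h p.2 ∘ (S p.2 ^ n : Equiv.Perm X)) := by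
      intro p
      show q μ (c • (h p.1 ∘ (S p.1 ^ n : Equiv.Perm X) -
        h p.2 ∘ (S p.2 ^ n : Equiv.Perm X))) = _
      rw [q_smul, hc2]
    simp only [f1]
    rw [← add_div, ← neg_add, ← Finset.sum_add_distrib, Fintype.sum_prod_type]
    congr 2
    apply Finset.sum_congr rfl
    intro j _
    apply Finset.sum_congr rfl
    intro k _
    have g4 := hH.q_par (((hS j).pow n).st _ (hh j)) (((hS k).pow n).st _ (hh k))
    rw [q_comp ((hS j).pow n).mp (hH.meas _ (hh j)), q_comp ((hS k).pow n).mp (hH.meas _ (hh k))]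
      at g4
    rw [← mul_add]
    linarith

end Pool.Agent.W761.Gauss
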