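import Mathlib

/-!
# Laws of sequences of real random variables are determined by finite characteristic functions
-/

set_option autoImplicit false

open Filter Topology MeasureTheory ProbabilityTheory

noncomputable section

namespace Pool.Agent.W761.Gauss

/-- Two finite measures on `ι → ℝ` with the same characteristic function on finitely supported
functionals are equal. -/
theorem ext_of_finite_char {ι : Type*} {P Q : Measure (ι → ℝ)} [IsFiniteMeasure P]
    [IsFiniteMeasure Q]
    (h : ∀ (s : Finset ι) (t : ι → ℝ), ∫ ω, Complex.exp ((∑ i ∈ s, t i * ω i : ℝ) * Complex.I) ∂P =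
      ∫ ω, Complex.exp ((∑ i ∈ s, t i * ω i : ℝ) * Complex.I) ∂Q) : P = Q := by
  classical
  have key : ∀ s : Finset ι, P.map s.restrict = Q.map s.restrict := by
    intro s
    apply Measure.ext_of_charFunDual
    ext L
    rw [charFunDual_apply, charFunDual_apply]
    have hm : Measurable (s.restrict (π := fun _ : ι => ℝ)) := s.measurable_restrict
    have hc : ∀ ν : Measure (ι → ℝ), AEStronglyMeasurable (fun v : s → ℝ =>
        Complex.exp (((L v : ℝ) : ℂ) * Complex.I)) (ν.map s.restrict) := by
      intro ν
      have : Continuous fun v : s → ℝ => Complex.exp (((L v : ℝ) : ℂ) * Complex.I) := by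
        fun_prop
      exact this.aestronglyMeasurable
    rw [integral_map hm.aemeasurable (hc P), integral_map hm.aemeasurable (hc Q)]
    have hL : ∀ ω : ι → ℝ, L (s.restrict ω) =
        ∑ i ∈ s, (if hi : i ∈ s then L (Pi.single ⟨i, hi⟩ 1) else 0) * ω i := by
      intro ω
      have h1 : s.restrict ω = ∑ i : s, ω i • (Pi.single i (1 : ℝ) : s → ℝ) := by
        ext j
        rw [Finset.sum_apply]
        simp only [Pi.smul_apply, Pi.single_apply, smul_eq_mul, Finset.restrict]
        simp
      rw [h1, map_sum, ← Finset.sum_coe_sort s]
      apply Finset.sum_congr rfl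
      intro i _
      rw [map_smul, smul_eq_mul, mul_comm, dif_pos i.2]
    simp only [hL]
    exact h s fun i => if hi : i ∈ s then L (Pi.single ⟨i, hi⟩ 1) else 0
  have hP : IsProjectiveLimit P fun s : Finset ι => P.map s.restrict := fun s => rfl
  have hQ : IsProjectiveLimit Q fun s : Finset ι => P.map s.restrict := fun s => (key s).symm
  exact hP.unique hQ

end Pool.Agent.W761.Gauss
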