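import Pool.Agent.W761.Gauss.Core2
import Pool.Agent.W761.Gauss.Main

/-!
# Multiple averages for Gaussian transformations generating pairwise class two groups
-/

set_option autoImplicit false
set_option linter.unusedSectionVars false

open Filter Topology MeasureTheory ProbabilityTheory
open scoped NNReal ENNReal commutatorElement

noncomputable section

namespace Pool.Agent.W761.Gauss

variable {X : Type} [MeasurableSpace X] {μ : Measure X} {H : Submodule ℝ (X → ℝ)}
variable {J : Type*} [Fintype J] [DecidableEq J]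

/-- From exponentials to bounded measurable functions. -/
theorem GaussSpace.Cv_of_exp [IsProbabilityMeasure μ] (hH : GaussSpace μ H)
    (hgen : ∀ A, MeasurableSet A → ∃ B, MeasurableSet[sig H] B ∧ A =ᵐ[μ] B)
    {b : ℤ → ℤ} (hb : PG b) {S : J → Equiv.Perm X} (hS : ∀ j, Adm μ H (S j))
    (hexp : ∀ h : J → X → ℝ, (∀ j, h j ∈ H) → Cv μ S b (fun j x => ex (h j x)))
    {F : J → X → ℂ} (hF : ∀ j, BM (F j)) : Cv μ S b F := by
  have key : ∀ (A : Finset J) (F : J → X → ℂ), (∀ j ∈ A, BM (F j)) →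
      (∀ j ∉ A, ∃ h ∈ H, F j = fun x => ex (h x)) → Cv μ S b F := by
    intro A
    induction A using Finset.induction_on with
    | empty =>
      intro F _ h2
      choose h hh hFh using fun j => h2 j (Finset.notMem_empty j)
      have h3 : F = fun j x => ex (h j x) := by
        funext j
        exact hFh j
      rw [h3]
      exact hexp h hh
    | insert j A hj ih =>
      intro F h1 h2
      have hBMall : ∀ l, BM (F l) := by
        intro l
        by_cases hl : l ∈ insert j A
        · exact h1 l hl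
        · obtain ⟨h, hh, e⟩ := h2 l hl
          rw [e]
          exact ⟨meas_exh hH hh, 1, fun x => (norm_ex _).le⟩
      have hbmj : BM (F j) := hBMall j
      have hmain : Cv μ S b (Function.update F j (F j)) := by
        refine Cv_closed (fun l => (hS l).mp) (fun l => (hS l).mp'.measurable) hb hBMall hbmj ?_
        intro ε hε
        obtain ⟨hfm, C, hC⟩ := hbmj
        have hmem : MemLp (F j) 2 μ := MemLp.of_bound hfm.aestronglyMeasurable C
          (Eventually.of_forall hC)
        obtain ⟨g, hg, hfg⟩ := dense_EP hH hgen hmem hε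
        have hg' : BM g ∧ Cv μ S b (Function.update F j g) := by
          refine Submodule.span_induction
            (p := fun (g : X → ℂ) _ => BM g ∧ Cv μ S b (Function.update F j g)) ?_ ?_ ?_ ?_ hg
          · rintro _ ⟨h, hh, rfl⟩
            refine ⟨⟨meas_exh hH hh, 1, fun x => (norm_ex _).le⟩, ?_⟩
            apply ih
            · intro l hl
              have hlj : l ≠ j := fun e => hj (e ▸ hl)
              rw [Function.update_of_ne hlj]
              exact h1 l (Finset.mem_insert_of_mem hl)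
            · intro l hl
              by_cases hlj : l = j
              · subst hlj
                exact ⟨h, hh, by rw [Function.update_self]⟩
              · rw [Function.update_of_ne hlj]
                apply h2
                intro hmem'
                rcases Finset.mem_insert.mp hmem' with h5 | h5
                · exact hlj h5
                · exact hl h5
          · exact ⟨⟨measurable_const, 0, fun x => by simp⟩, Cv_zero⟩
          · rintro g₁ g₂ _ _ ⟨⟨m₁, C₁, b₁⟩, c₁⟩ ⟨⟨m₂, C₂, b₂⟩, c₂⟩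
            exact ⟨⟨m₁.add m₂, C₁ + C₂, fun x => (norm_add_le _ _).trans
              (add_le_add (b₁ x) (b₂ x))⟩, Cv_add c₁ c₂⟩
          · rintro c g₁ _ ⟨⟨m₁, C₁, b₁⟩, c₁⟩
            refine ⟨⟨m₁.const_smul c, ‖c‖ * C₁, fun x => ?_⟩, Cv_smul c c₁⟩
            rw [Pi.smul_apply, norm_smul]
            exact mul_le_mul_of_nonneg_left (b₁ x) (norm_nonneg _)
        exact ⟨g, hg'.1, hfg, hg'.2⟩
      rwa [Function.update_eq_self] at hmain
  exact key Finset.univ F (fun j _ => hF j) fun j hj => absurd (Finset.mem_univ j) hj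

/-- Exponentials, two-sided averages. -/
theorem GaussSpace.Cv_exp2 [IsProbabilityMeasure μ] (hH : GaussSpace μ H)
    {S : J → Equiv.Perm X} (hS : ∀ j, Adm μ H (S j))
    (hc : ∀ j k, Commute ⁅S j, S k⁆ (S j)) {h : J → X → ℝ} (hh : ∀ j, h j ∈ H) :
    Cv μ S (fun n => n) (fun j x => ex (h j x)) := by
  have hc' : ∀ j k, Commute ⁅S j, S k⁆ (S k) := by
    intro j k
    have h1 := (hc k j).inv_left
    rwa [commutatorElement_inv] at h1
  have hci : ∀ j k, Commute ⁅(S j)⁻¹, (S k)⁻¹⁆ (S j)⁻¹ := by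
    intro j k
    have e1 : ⁅(S j)⁻¹, (S k)⁻¹⁆ = ⁅S j, S k⁆ := by
      have k1 : Commute ⁅S j, S k⁆ (S k * S j) := (hc' j k).mul_right (hc j k)
      have e2 : ⁅(S j)⁻¹, (S k)⁻¹⁆ = (S k * S j)⁻¹ * (⁅S j, S k⁆ * (S k * S j)) := by
        rw [commutatorElement_def, commutatorElement_def]
        group
      rw [e2, k1.eq, inv_mul_cancel_left]
    rw [e1]
    exact (hc j k).inv_right
  have h1 := hH.conv_exp2 hS hc hh
  have h2 := hH.conv_exp2 (S := fun j => (S j)⁻¹) (fun j => (hS j).inv) hci hh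
  filter_upwards [h1, h2] with x hx1 hx2
  obtain ⟨L, hL⟩ := hx1
  obtain ⟨L', hL'⟩ := hx2
  refine ⟨2⁻¹ * (L + L'), A2_tendsto ?_ ?_⟩
  · refine hL.congr fun N => ?_
    rw [A1]
    congr 1
    apply Finset.sum_congr rfl
    intro n _
    rw [ex_sum]
    simp only [zpow_natCast]
  · refine hL'.congr fun N => ?_
    rw [A1]
    congr 1
    apply Finset.sum_congr rfl
    intro n _
    rw [ex_sum]
    simp only [zpow_neg, zpow_natCast, inv_pow]

/-- `(X, μ)` with the maps `S j` is a Gaussian system: the maps `S j` are invertible, measurable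
with measurable inverse and measure preserving, and there is a linear space `H` of centered
Gaussian random variables on `X` which is invariant (modulo null sets) under the `S j` and their
inverses and generates the σ-algebra of `X` modulo null sets. -/
structure IsGaussianSystem {X : Type} [MeasurableSpace X] {J : Type*} (μ : Measure X)
    (S : J → Equiv.Perm X) : Prop where
  meas_symm : ∀ j, Measurable (S j).symm
  mp : ∀ j, MeasurePreserving (S j) μ μ
  gauss : ∃ H : Submodule ℝ (X → ℝ),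
    (∀ h ∈ H, Measurable h ∧ ∃ v : ℝ≥0, μ.map h = gaussianReal 0 v) ∧
    (∀ j, ∀ h ∈ H, (∃ h' ∈ H, h ∘ S j =ᵐ[μ] h') ∧ (∃ h' ∈ H, h ∘ (S j).symm =ᵐ[μ] h')) ∧
    (∀ A, MeasurableSet A → ∃ B,
      MeasurableSet[⨆ h : H, MeasurableSpace.comap (h : X → ℝ) inferInstance] B ∧ A =ᵐ[μ] B)

/-- Convergence for bounded measurable functions on a Gaussian system. -/
theorem IsGaussianSystem.conv [IsProbabilityMeasure μ] {S : J → Equiv.Perm X}
    (hS : IsGaussianSystem μ S) (hc : ∀ j k, Commute ⁅S j, S k⁆ (S j))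
    {f : J → X → ℂ} (hf : ∀ j, BM (f j)) :
    ∀ᵐ x ∂μ, ∃ L : ℂ, Tendsto (A2 fun n => ∏ j, f j ((S j ^ n) x)) atTop (𝓝 L) := by
  obtain ⟨H, h1, h2, h3⟩ := hS.gauss
  have hH : GaussSpace μ H := ⟨fun h hh => (h1 h hh).1, fun h hh => (h1 h hh).2⟩
  have hadm : ∀ i, Adm μ (sat μ H) (S i) := by
    intro i
    have hinv : MeasurePreserving ((S i)⁻¹ : Equiv.Perm X) μ μ := by
      let e : X ≃ᵐ X := ⟨S i, (hS.mp i).measurable, hS.meas_symm i⟩
      exact (hS.mp i).symm e
    refine ⟨hS.mp i, hinv, ?_, ?_⟩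
    · rintro g ⟨hg, h, hh, e⟩
      obtain ⟨h', hh', e'⟩ := (h2 i h hh).1
      refine ⟨hg.comp (hS.mp i).measurable, h', hh', ?_⟩
      exact ((hS.mp i).quasiMeasurePreserving.ae_eq_comp e).trans e'
    · rintro g ⟨hg, h, hh, e⟩
      obtain ⟨h', hh', e'⟩ := (h2 i h hh).2
      refine ⟨hg.comp hinv.measurable, h', hh', ?_⟩
      exact (hinv.quasiMeasurePreserving.ae_eq_comp e).trans e'
  have hgen : ∀ A, MeasurableSet A → ∃ B, MeasurableSet[sig (sat μ H)] B ∧ A =ᵐ[μ] B := by
    intro A hA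
    obtain ⟨B, hB, e⟩ := h3 A hA
    exact ⟨B, sig_mono (le_sat hH) B hB, e⟩
  exact hH.sat.Cv_of_exp hgen PG_id hadm (fun h hh => hH.sat.Cv_exp2 hadm hc hh) hf

/-- `(Y, ν)` with the maps `R j` is a factor of `(X, μ)` with the maps `S j`. -/
def IsFactorSystem {X Y : Type} [MeasurableSpace X] [MeasurableSpace Y] {J : Type*}
    (μ : Measure X) (S : J → Equiv.Perm X) (ν : Measure Y) (R : J → Equiv.Perm Y) : Prop :=
  ∃ π : X → Y, MeasurePreserving π μ ν ∧ ∀ j, ∀ᵐ x ∂μ, π (S j x) = R j (π x)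

variable {Y : Type} [MeasurableSpace Y] {ν : Measure Y}

/-- Convergence for the factors of Gaussian systems. -/
theorem factor_conv2 [IsProbabilityMeasure μ] {S : J → Equiv.Perm X}
    (hS : IsGaussianSystem μ S) (hc : ∀ j k, Commute ⁅S j, S k⁆ (S j)) {R : J → Equiv.Perm Y}
    (hRm : ∀ i, Measurable (R i).symm) (hR : ∀ i, MeasurePreserving (R i) ν ν)
    (hfac : IsFactorSystem μ S ν R) {f : J → Y → ℂ} (hf : ∀ j, MemLp (f j) ∞ ν) :
    ∀ᵐ y ∂ν, ∃ L : ℂ, Tendsto (A2 fun n => ∏ j, f j ((R j ^ n) y)) atTop (𝓝 L) := by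
  obtain ⟨π, hπ, hπT⟩ := hfac
  have hS' : ∀ i, MeasurePreserving ((S i)⁻¹ : Equiv.Perm X) μ μ := by
    intro i
    let e : X ≃ᵐ X := ⟨S i, (hS.mp i).measurable, hS.meas_symm i⟩
    exact (hS.mp i).symm e
  have hR' : ∀ i, MeasurePreserving ((R i)⁻¹ : Equiv.Perm Y) ν ν := by
    intro i
    let e : Y ≃ᵐ Y := ⟨R i, (hR i).measurable, hRm i⟩
    exact (hR i).symm e
  choose g hg hfg using fun j => BM_of_memLp (hf j)
  have h1 := hS.conv hc (f := fun j => g j ∘ π) fun j => by
    obtain ⟨gm, C, hC⟩ := hg j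
    exact ⟨gm.comp hπ.measurable, C, fun x => hC _⟩
  have h2 : ∀ᵐ x ∂μ, ∀ (n : ℤ) (j : J), π ((S j ^ n) x) = (R j ^ n) (π x) := by
    rw [ae_all_iff]
    intro n
    rw [eventually_all]
    intro j
    exact inter_zpow (hS.mp j) (hS' j) (hπT j) n
  have hgR : ∀ (n : ℤ), Measurable fun y => ∏ j, g j ((R j ^ n) y) := by
    intro n
    apply Finset.measurable_fun_prod
    intro j _
    exact (hg j).1.comp (mp_zpow (hR j) (hR' j) n).measurable
  have hms : MeasurableSet {y | ∃ L : ℂ, Tendsto (A2 fun n => ∏ j, g j ((R j ^ n) y))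
      atTop (𝓝 L)} := by
    apply measurableSet_exists_tendsto
    intro N
    unfold A2
    exact (Finset.measurable_fun_sum _ fun n _ => hgR n).const_mul _
  have h3 : ∀ᵐ x ∂μ, π x ∈ {y | ∃ L : ℂ, Tendsto (A2 fun n => ∏ j, g j ((R j ^ n) y))
      atTop (𝓝 L)} := by
    filter_upwards [h1, h2] with x hx1 hx2
    obtain ⟨L, hL⟩ := hx1
    refine ⟨L, hL.congr fun N => ?_⟩
    congr 1
    funext n
    apply Finset.prod_congr rfl
    intro j _
    rw [Function.comp_apply, hx2]
  have h4 : ∀ᵐ y ∂ν, y ∈ {y | ∃ L : ℂ, Tendsto (A2 fun n => ∏ j, g j ((R j ^ n) y))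
      atTop (𝓝 L)} := by
    rw [← hπ.map_eq]
    exact (ae_map_iff hπ.measurable.aemeasurable hms).mpr h3
  have h5 : ∀ᵐ y ∂ν, ∀ (n : ℤ) (j : J), f j ((R j ^ n) y) = g j ((R j ^ n) y) := by
    rw [ae_all_iff]
    intro n
    rw [eventually_all]
    intro j
    exact (mp_zpow (hR j) (hR' j) n).quasiMeasurePreserving.ae (hfg j)
  filter_upwards [h4, h5] with y hy4 hy5
  obtain ⟨L, hL⟩ := hy4
  refine ⟨L, hL.congr fun N => ?_⟩
  congr 1
  funext n
  apply Finset.prod_congr rfl
  intro j _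
  rw [hy5]

end Pool.Agent.W761.Gauss
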