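import Pool.Agent.W761.Gauss.Avg

/-!
# Semi-pointwise convergence of weighted averages in a Hilbert space
-/

set_option autoImplicit false

open Filter Topology MeasureTheory
open scoped ComplexConjugate

noncomputable section

namespace Pool.Agent.W761.Gauss

/-- One-sided Cesàro averages. -/
def A1 (a : ℕ → ℂ) (N : ℕ) : ℂ := (N : ℂ)⁻¹ * ∑ n ∈ Finset.range N, a n

theorem A1_bound {a : ℕ → ℂ} {C : ℝ} (hC : 0 ≤ C) (ha : ∀ n, ‖a n‖ ≤ C) (N : ℕ) :
    ‖A1 a N‖ ≤ C := by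
  rw [A1, norm_mul, norm_inv, Complex.norm_natCast]
  rcases Nat.eq_zero_or_pos N with h0 | h0
  · subst h0
    simpa using hC
  · rw [inv_mul_le_iff₀ (by exact_mod_cast h0)]
    refine (norm_sum_le _ _).trans ?_
    refine (Finset.sum_le_sum fun n _ => ha n).trans ?_
    rw [Finset.sum_const, Finset.card_range, nsmul_eq_mul]

theorem A1_add (a b : ℕ → ℂ) (N : ℕ) : A1 (fun n => a n + b n) N = A1 a N + A1 b N := by
  rw [A1, A1, A1, Finset.sum_add_distrib, mul_add]

theorem A1_sub (a b : ℕ → ℂ) (N : ℕ) : A1 (fun n => a n - b n) N = A1 a N - A1 b N := by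
  rw [A1, A1, A1, Finset.sum_sub_distrib, mul_sub]

theorem A1_mul (c : ℂ) (a : ℕ → ℂ) (N : ℕ) : A1 (fun n => c * a n) N = c * A1 a N := by
  rw [A1, A1, ← Finset.mul_sum]
  ring

section birk

variable {Ω : Type*} [MeasurableSpace Ω] {P : Measure Ω} [IsProbabilityMeasure P]

theorem birkC {τ : Ω → Ω} (hτ : MeasurePreserving τ P P) {F : Ω → ℂ} (hF : Measurable F)
    {C : ℝ} (hC : ∀ ω, ‖F ω‖ ≤ C) :
    ∀ᵐ ω ∂P, ∃ L : ℂ, Tendsto (A1 fun n => F (τ^[n] ω)) atTop (𝓝 L) := by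
  have h1 := H165R3.BPE.birkhoff hτ (fun ω => (F ω).re) (Complex.measurable_re.comp hF) C
    fun ω => (Complex.abs_re_le_norm _).trans (hC ω)
  have h2 := H165R3.BPE.birkhoff hτ (fun ω => (F ω).im) (Complex.measurable_im.comp hF) C
    fun ω => (Complex.abs_im_le_norm _).trans (hC ω)
  filter_upwards [h1, h2] with ω hω1 hω2
  refine ⟨_, Tendsto.congr (fun N => ?_) (((Complex.continuous_ofReal.tendsto _).comp hω1).add
    (((Complex.continuous_ofReal.tendsto _).comp hω2).mul_const Complex.I))⟩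
  simp only [Function.comp_apply, A1]
  push_cast
  rw [mul_assoc, ← mul_add, Finset.sum_mul, ← Finset.sum_add_distrib]
  congr 1
  apply Finset.sum_congr rfl
  intro n _
  exact Complex.re_add_im _

end birk

section vdc

variable {K : Type*} [NormedAddCommGroup K] [InnerProductSpace ℂ K]

/-- The elementary inequality behind the van der Corput trick. -/
theorem vdc_ineq {y : ℕ → K} {C : ℝ} (hC : 0 ≤ C) (hy : ∀ n, ‖y n‖ ≤ C) {M : ℕ} (hM : 1 ≤ M)
    {N : ℕ} (hN : 1 ≤ N) :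
    ‖(N : ℂ)⁻¹ • ∑ n ∈ Finset.range N, y n‖ ≤
      Real.sqrt ((N : ℝ)⁻¹ * ∑ n ∈ Finset.range N,
        ‖(M : ℂ)⁻¹ • ∑ h ∈ Finset.range M, y (n + h)‖ ^ 2) + 2 * M * C / N := by
  have hM0 : (0 : ℝ) < M := by exact_mod_cast hM
  have hN0 : (0 : ℝ) < N := by exact_mod_cast hN
  -- shift
  have hshift : ∀ h < M, ‖∑ n ∈ Finset.range N, y n - ∑ n ∈ Finset.range N, y (n + h)‖ ≤
      2 * M * C := by
    intro h hh
    have e1 : ∑ n ∈ Finset.range (N + h), y n = ∑ n ∈ Finset.range N, y n +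
        ∑ n ∈ Finset.range h, y (N + n) := Finset.sum_range_add _ _ _
    have e2 : ∑ n ∈ Finset.range (N + h), y n = ∑ n ∈ Finset.range h, y n +
        ∑ n ∈ Finset.range N, y (n + h) := by
      rw [add_comm N h, Finset.sum_range_add]
      congr 1
      exact Finset.sum_congr rfl fun n _ => by rw [add_comm]
    have e3 : ∑ n ∈ Finset.range N, y n - ∑ n ∈ Finset.range N, y (n + h) =
        ∑ n ∈ Finset.range h, y n - ∑ n ∈ Finset.range h, y (N + n) := by
      rw [sub_eq_sub_iff_add_eq_add, ← e1, e2]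
    rw [e3]
    have b1 : ‖∑ n ∈ Finset.range h, y n‖ ≤ M * C := by
      refine (norm_sum_le _ _).trans ?_
      refine (Finset.sum_le_sum fun n _ => hy n).trans ?_
      rw [Finset.sum_const, Finset.card_range, nsmul_eq_mul]
      exact mul_le_mul_of_nonneg_right (by exact_mod_cast hh.le) hC
    have b2 : ‖∑ n ∈ Finset.range h, y (N + n)‖ ≤ M * C := by
      refine (norm_sum_le _ _).trans ?_
      refine (Finset.sum_le_sum fun n _ => hy _).trans ?_
      rw [Finset.sum_const, Finset.card_range, nsmul_eq_mul]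
      exact mul_le_mul_of_nonneg_right (by exact_mod_cast hh.le) hC
    refine (norm_sub_le _ _).trans ?_
    linarith
  have havg : ‖∑ n ∈ Finset.range N, y n - ∑ n ∈ Finset.range N,
      ((M : ℂ)⁻¹ • ∑ h ∈ Finset.range M, y (n + h))‖ ≤ 2 * M * C := by
    have e4 : ∑ n ∈ Finset.range N, y n - ∑ n ∈ Finset.range N,
        ((M : ℂ)⁻¹ • ∑ h ∈ Finset.range M, y (n + h)) =
        (M : ℂ)⁻¹ • ∑ h ∈ Finset.range M, (∑ n ∈ Finset.range N, y n -
          ∑ n ∈ Finset.range N, y (n + h)) := by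
      rw [Finset.sum_sub_distrib, smul_sub, Finset.sum_const, Finset.card_range,
        ← Nat.cast_smul_eq_nsmul ℂ, smul_smul, inv_mul_cancel₀, one_smul, ← Finset.smul_sum,
        Finset.sum_comm]
      rw [Nat.cast_ne_zero]
      omega
    rw [e4, norm_smul, norm_inv, Complex.norm_natCast, inv_mul_le_iff₀ hM0]
    refine (norm_sum_le _ _).trans ?_
    refine (Finset.sum_le_sum fun h hh => hshift h (Finset.mem_range.mp hh)).trans ?_
    rw [Finset.sum_const, Finset.card_range, nsmul_eq_mul]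
  have hsq : ‖∑ n ∈ Finset.range N, ((M : ℂ)⁻¹ • ∑ h ∈ Finset.range M, y (n + h))‖ ≤
      N * Real.sqrt ((N : ℝ)⁻¹ * ∑ n ∈ Finset.range N,
        ‖(M : ℂ)⁻¹ • ∑ h ∈ Finset.range M, y (n + h)‖ ^ 2) := by
    refine (norm_sum_le _ _).trans ?_
    have h2 : (∑ n ∈ Finset.range N, ‖(M : ℂ)⁻¹ • ∑ h ∈ Finset.range M, y (n + h)‖) ^ 2 ≤
        N * ∑ n ∈ Finset.range N, ‖(M : ℂ)⁻¹ • ∑ h ∈ Finset.range M, y (n + h)‖ ^ 2 := by
      have := sq_sum_le_card_mul_sum_sq (s := Finset.range N)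
        (f := fun n => ‖(M : ℂ)⁻¹ • ∑ h ∈ Finset.range M, y (n + h)‖)
      rwa [Finset.card_range] at this
    apply le_of_sq_le_sq _ (by positivity)
    rw [mul_pow, Real.sq_sqrt (by positivity)]
    refine h2.trans (le_of_eq ?_)
    field_simp
  rw [norm_smul, norm_inv, Complex.norm_natCast, inv_mul_le_iff₀ hN0]
  have h3 := norm_add_le (∑ n ∈ Finset.range N, y n - ∑ n ∈ Finset.range N,
      ((M : ℂ)⁻¹ • ∑ h ∈ Finset.range M, y (n + h)))
      (∑ n ∈ Finset.range N, ((M : ℂ)⁻¹ • ∑ h ∈ Finset.range M, y (n + h)))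
  rw [sub_add_cancel] at h3
  rw [mul_add]
  have h4 : (N : ℝ) * (2 * M * C / N) = 2 * M * C := by
    field_simp
  rw [h4]
  linarith

/-- Expansion of the square. -/
theorem vdc_expand (y : ℕ → K) (M N : ℕ) :
    (((N : ℝ)⁻¹ * ∑ n ∈ Finset.range N,
      ‖(M : ℂ)⁻¹ • ∑ h ∈ Finset.range M, y (n + h)‖ ^ 2 : ℝ) : ℂ) =
      ((M : ℂ)⁻¹) ^ 2 * ∑ h ∈ Finset.range M, ∑ k ∈ Finset.range M,
        A1 (fun n => inner ℂ (y (n + h)) (y (n + k))) N := by
  have h1 : ∀ n, ((‖(M : ℂ)⁻¹ • ∑ h ∈ Finset.range M, y (n + h)‖ ^ 2 : ℝ) : ℂ) =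
      ((M : ℂ)⁻¹) ^ 2 * ∑ h ∈ Finset.range M, ∑ k ∈ Finset.range M,
        inner ℂ (y (n + h)) (y (n + k)) := by
    intro n
    rw [norm_smul, mul_pow]
    rw [norm_inv, Complex.norm_natCast]
    set S := ∑ h ∈ Finset.range M, y (n + h) with hS
    have h2 : ((‖S‖ : ℝ) : ℂ) ^ 2 = inner ℂ S S := (inner_self_eq_norm_sq_to_K (𝕜 := ℂ) S).symm
    rw [Complex.ofReal_mul, Complex.ofReal_pow, Complex.ofReal_pow, h2, hS, sum_inner]
    simp only [inner_sum]
    push_cast
    rfl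
  push_cast at h1 ⊢
  simp only [h1, A1]
  rw [← Finset.mul_sum, Finset.sum_comm]
  simp only [Finset.mul_sum]
  apply Finset.sum_congr rfl
  intro h _
  rw [Finset.sum_comm]
  apply Finset.sum_congr rfl
  intro k _
  apply Finset.sum_congr rfl
  intro n _
  ring

variable {Ω : Type*} [MeasurableSpace Ω] {P : Measure Ω} [IsProbabilityMeasure P]

omit [IsProbabilityMeasure P] in
theorem int_corr {τ : Ω → Ω} (hτ : MeasurePreserving τ P P) {F : Ω → ℂ} (hF : Measurable F)
    (n h k : ℕ) :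
    ∫ ω, conj (F (τ^[n + h] ω)) * F (τ^[n + k] ω) ∂P = ∫ ω, conj (F (τ^[h] ω)) * F (τ^[k] ω) ∂P := by
  have hn := hτ.iterate n
  have hm : Measurable fun ω => conj (F (τ^[h] ω)) * F (τ^[k] ω) :=
    (Complex.continuous_conj.measurable.comp (hF.comp (hτ.iterate h).measurable)).mul
      (hF.comp (hτ.iterate k).measurable)
  have h1 := integral_map (μ := P) (φ := τ^[n])
    (f := fun ω => conj (F (τ^[h] ω)) * F (τ^[k] ω)) hn.measurable.aemeasurable
    hm.aestronglyMeasurable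
  rw [hn.map_eq] at h1
  rw [h1]
  apply integral_congr_ae
  refine Eventually.of_forall fun ω => ?_
  simp only [← Function.iterate_add_apply]
  rw [add_comm h n, add_comm k n]

/-- **Vanishing of the weighted averages.** -/
theorem semi_zero {τ : Ω → Ω} (hτ : MeasurePreserving τ P P) {F : Ω → ℂ} (hF : Measurable F)
    {C₀ : ℝ} (hC : ∀ ω, ‖F ω‖ ≤ C₀) {x : ℕ → K} {D : ℝ} (hx : ∀ n, ‖x n‖ ≤ D)
    (h1 : ∀ h k, ∀ᵐ ω ∂P, ∃ L : ℂ, Tendsto (A1 fun n => conj (F (τ^[n + h] ω)) *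
      F (τ^[n + k] ω) * inner ℂ (x (n + h)) (x (n + k))) atTop (𝓝 L))
    (h2 : ∀ h k, h ≠ k → Tendsto (A1 fun n => inner ℂ (x (n + h)) (x (n + k))) atTop (𝓝 0)) :
    ∀ᵐ ω ∂P, Tendsto (fun N : ℕ => (N : ℂ)⁻¹ • ∑ n ∈ Finset.range N, F (τ^[n] ω) • x n) atTop
      (𝓝 0) := by
  have hD : 0 ≤ D := (norm_nonneg _).trans (hx 0)
  have hne : Nonempty Ω := by
    by_contra hcon
    rw [not_nonempty_iff] at hcon
    have h0 : P Set.univ = 0 := by
      rw [Set.univ_eq_empty_iff.mpr hcon, measure_empty]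
    rw [measure_univ] at h0
    exact one_ne_zero h0
  obtain ⟨ω₀⟩ := hne
  have hC0 : 0 ≤ C₀ := (norm_nonneg _).trans (hC ω₀)
  let y : Ω → ℕ → K := fun ω n => F (τ^[n] ω) • x n
  have hy : ∀ ω n, ‖y ω n‖ ≤ C₀ * D := fun ω n => by
    show ‖F (τ^[n] ω) • x n‖ ≤ _
    rw [norm_smul]
    exact mul_le_mul (hC _) (hx n) (norm_nonneg _) hC0
  have hinner : ∀ ω n h k, inner ℂ (y ω (n + h)) (y ω (n + k)) =
      conj (F (τ^[n + h] ω)) * F (τ^[n + k] ω) * inner ℂ (x (n + h)) (x (n + k)) := by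
    intro ω n h k
    show inner ℂ (F (τ^[n + h] ω) • x (n + h)) (F (τ^[n + k] ω) • x (n + k)) = _
    rw [inner_smul_left, inner_smul_right]
    ring
  let Q : ℕ → ℕ → Ω → ℝ := fun M N ω => (N : ℝ)⁻¹ * ∑ n ∈ Finset.range N,
    ‖(M : ℂ)⁻¹ • ∑ h ∈ Finset.range M, y ω (n + h)‖ ^ 2
  have hQ0 : ∀ M N ω, 0 ≤ Q M N ω := fun M N ω => by positivity
  have hQe : ∀ M N ω, ((Q M N ω : ℝ) : ℂ) = ((M : ℂ)⁻¹) ^ 2 * ∑ h ∈ Finset.range M,
      ∑ k ∈ Finset.range M, A1 (fun n => conj (F (τ^[n + h] ω)) *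
      F (τ^[n + k] ω) * inner ℂ (x (n + h)) (x (n + k))) N := by
    intro M N ω
    show (((N : ℝ)⁻¹ * ∑ n ∈ Finset.range N,
      ‖(M : ℂ)⁻¹ • ∑ h ∈ Finset.range M, y ω (n + h)‖ ^ 2 : ℝ) : ℂ) = _
    rw [vdc_expand]
    simp only [hinner]
  -- limits
  have hlim : ∀ᵐ ω ∂P, ∀ M, ∃ ρ : ℝ, Tendsto (fun N => Q M N ω) atTop (𝓝 ρ) := by
    have h3 : ∀ᵐ ω ∂P, ∀ h k, ∃ L : ℂ, Tendsto (A1 fun n => conj (F (τ^[n + h] ω)) *
      F (τ^[n + k] ω) * inner ℂ (x (n + h)) (x (n + k))) atTop (𝓝 L) :=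
      ae_all_iff.mpr fun h => ae_all_iff.mpr fun k => h1 h k
    filter_upwards [h3] with ω hω M
    choose L hL using hω
    have h4 : Tendsto (fun N => ((Q M N ω : ℝ) : ℂ)) atTop (𝓝 (((M : ℂ)⁻¹) ^ 2 *
        ∑ h ∈ Finset.range M, ∑ k ∈ Finset.range M, L h k)) := by
      simp only [hQe]
      exact (tendsto_finsetSum _ fun h _ => tendsto_finsetSum _ fun k _ => hL h k).const_mul _
    refine ⟨_, Tendsto.congr (fun N => ?_) ((Complex.continuous_re.tendsto _).comp h4)⟩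
    rw [Function.comp_apply, Complex.ofReal_re]
  let ρ : ℕ → Ω → ℝ := fun M ω => limUnder atTop fun N => Q M N ω
  have hρ : ∀ M, ∀ᵐ ω ∂P, Tendsto (fun N => Q M N ω) atTop (𝓝 (ρ M ω)) := by
    intro M
    filter_upwards [hlim] with ω hω
    exact tendsto_nhds_limUnder (hω M)
  have hQb : ∀ M N ω, 1 ≤ M → Q M N ω ≤ (C₀ * D) ^ 2 := by
    intro M N ω hM
    have hM0 : (0 : ℝ) < M := by exact_mod_cast hM
    have h5 : ∀ n, ‖(M : ℂ)⁻¹ • ∑ h ∈ Finset.range M, y ω (n + h)‖ ^ 2 ≤ (C₀ * D) ^ 2 := by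
      intro n
      apply pow_le_pow_left₀ (norm_nonneg _)
      rw [norm_smul, norm_inv, Complex.norm_natCast, inv_mul_le_iff₀ hM0]
      refine (norm_sum_le _ _).trans ?_
      refine (Finset.sum_le_sum fun h _ => hy ω _).trans ?_
      rw [Finset.sum_const, Finset.card_range, nsmul_eq_mul]
    show (N : ℝ)⁻¹ * ∑ n ∈ Finset.range N, _ ≤ _
    rcases Nat.eq_zero_or_pos N with h0 | h0
    · subst h0
      simp only [Nat.cast_zero, inv_zero, zero_mul]
      positivity
    · rw [inv_mul_le_iff₀ (by exact_mod_cast h0)]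
      refine (Finset.sum_le_sum fun n _ => h5 n).trans ?_
      rw [Finset.sum_const, Finset.card_range, nsmul_eq_mul]
  have hFi : ∀ n, Measurable fun ω => F (τ^[n] ω) := fun n => hF.comp (hτ.iterate n).measurable
  have hcm : ∀ n m, Measurable fun ω => conj (F (τ^[n] ω)) * F (τ^[m] ω) := fun n m =>
    (Complex.continuous_conj.measurable.comp (hFi n)).mul (hFi m)
  have hA1m : ∀ (a : ℕ → Ω → ℂ), (∀ n, Measurable (a n)) → ∀ N,
      Measurable fun ω => A1 (fun n => a n ω) N := by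
    intro a ha N
    unfold A1
    exact (Finset.measurable_fun_sum _ fun n _ => ha n).const_mul _
  have hQm : ∀ M N, Measurable (Q M N) := by
    intro M N
    have h6 : Q M N = fun ω => (((M : ℂ)⁻¹) ^ 2 * ∑ h ∈ Finset.range M,
      ∑ k ∈ Finset.range M, A1 (fun n => conj (F (τ^[n + h] ω)) *
      F (τ^[n + k] ω) * inner ℂ (x (n + h)) (x (n + k))) N).re := by
      funext ω
      rw [← hQe, Complex.ofReal_re]
    rw [h6]
    apply Complex.measurable_re.comp
    apply Measurable.const_mul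
    apply Finset.measurable_fun_sum
    intro h _
    apply Finset.measurable_fun_sum
    intro k _
    exact hA1m (fun n ω => conj (F (τ^[n + h] ω)) *
      F (τ^[n + k] ω) * inner ℂ (x (n + h)) (x (n + k))) (fun n => (hcm _ _).mul_const _) N
  have hρi : ∀ M, 1 ≤ M → ∫ ω, ρ M ω ∂P ≤ (C₀ * D) ^ 2 / M := by
    intro M hM
    have hM0 : (0 : ℝ) < M := by exact_mod_cast hM
    have h7 := tendsto_integral_of_dominated_convergence (fun _ => (C₀ * D) ^ 2)
      (fun N => (hQm M N).aestronglyMeasurable) (integrable_const _)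
      (fun N => Eventually.of_forall fun ω => by
        rw [Real.norm_eq_abs, abs_of_nonneg (hQ0 M N ω)]
        exact hQb M N ω hM) (hρ M)
    -- the integrals
    let γ : ℕ → ℕ → ℂ := fun h k => ∫ ω, conj (F (τ^[h] ω)) * F (τ^[k] ω) ∂P
    have hγ : ∀ h, ‖γ h h‖ ≤ C₀ ^ 2 := by
      intro h
      show ‖∫ ω, conj (F (τ^[h] ω)) * F (τ^[h] ω) ∂P‖ ≤ _
      refine (norm_integral_le_of_norm_le_const (C := C₀ ^ 2)
        (Eventually.of_forall fun ω => ?_)).trans ?_
      · rw [norm_mul, RCLike.norm_conj, pow_two]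
        exact mul_le_mul (hC _) (hC _) (norm_nonneg _) hC0
      · simp
    have h8 : ∀ N, ((∫ ω, Q M N ω ∂P : ℝ) : ℂ) = ((M : ℂ)⁻¹) ^ 2 * ∑ h ∈ Finset.range M,
        ∑ k ∈ Finset.range M, γ h k * A1 (fun n => inner ℂ (x (n + h)) (x (n + k))) N := by
      intro N
      rw [← integral_complex_ofReal]
      simp only [hQe]
      have hii : ∀ n h k, Integrable (fun ω => conj (F (τ^[n + h] ω)) *
          F (τ^[n + k] ω) * inner ℂ (x (n + h)) (x (n + k))) P := by
        intro n h k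
        refine Integrable.of_bound ((hcm _ _).mul_const _).aestronglyMeasurable
          (C₀ * C₀ * (D * D)) (Eventually.of_forall fun ω => ?_)
        rw [norm_mul, norm_mul, RCLike.norm_conj]
        apply mul_le_mul (mul_le_mul (hC _) (hC _) (norm_nonneg _) hC0) _ (norm_nonneg _)
          (by positivity)
        exact (norm_inner_le_norm _ _).trans (mul_le_mul (hx _) (hx _) (norm_nonneg _) hD)
      have hAi : ∀ h k, Integrable (fun ω => A1 (fun n => conj (F (τ^[n + h] ω)) *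
          F (τ^[n + k] ω) * inner ℂ (x (n + h)) (x (n + k))) N) P := by
        intro h k
        unfold A1
        exact (integrable_finsetSum _ fun n _ => hii n h k).const_mul _
      rw [integral_const_mul, integral_finsetSum]
      · congr 1
        apply Finset.sum_congr rfl
        intro h _
        rw [integral_finsetSum]
        · apply Finset.sum_congr rfl
          intro k _
          unfold A1
          rw [integral_const_mul, integral_finsetSum]
          · have h9 : ∀ n, ∫ ω, conj (F (τ^[n + h] ω)) *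
                F (τ^[n + k] ω) * inner ℂ (x (n + h)) (x (n + k)) ∂P =
                γ h k * inner ℂ (x (n + h)) (x (n + k)) := by
              intro n
              rw [integral_mul_const, int_corr hτ hF]
            rw [Finset.sum_congr rfl fun n _ => h9 n, ← Finset.mul_sum]
            ring
          · intro n _
            exact hii n h k
        · intro k _
          exact hAi h k
      · intro h _
        exact integrable_finsetSum _ fun k _ => hAi h k
    have h10 : Tendsto (fun N => ((∫ ω, Q M N ω ∂P : ℝ) : ℂ)) atTop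
        (𝓝 (((∫ ω, ρ M ω ∂P : ℝ)) : ℂ)) := (Complex.continuous_ofReal.tendsto _).comp h7
    -- remove the off-diagonal terms
    have h11 : Tendsto (fun N => ((M : ℂ)⁻¹) ^ 2 * ∑ h ∈ Finset.range M,
        ∑ k ∈ (Finset.range M).erase h,
          γ h k * A1 (fun n => inner ℂ (x (n + h)) (x (n + k))) N) atTop (𝓝 0) := by
      have h12 : (0 : ℂ) = ((M : ℂ)⁻¹) ^ 2 * ∑ h ∈ Finset.range M,
        ∑ k ∈ (Finset.range M).erase h, γ h k * 0 := by simp
      rw [h12]
      apply Tendsto.const_mul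
      apply tendsto_finsetSum
      intro h _
      apply tendsto_finsetSum
      intro k hk
      exact (h2 h k (Finset.ne_of_mem_erase hk).symm).const_mul _
    have h13 := h10.sub h11
    rw [sub_zero] at h13
    have h14 : ∀ N, ‖((∫ ω, Q M N ω ∂P : ℝ) : ℂ) - ((M : ℂ)⁻¹) ^ 2 * ∑ h ∈ Finset.range M,
        ∑ k ∈ (Finset.range M).erase h,
          γ h k * A1 (fun n => inner ℂ (x (n + h)) (x (n + k))) N‖ ≤ (C₀ * D) ^ 2 / M := by
      intro N
      rw [h8, ← mul_sub, ← Finset.sum_sub_distrib, norm_mul, norm_pow, norm_inv,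
        Complex.norm_natCast]
      have h15 : ‖∑ h ∈ Finset.range M, (∑ k ∈ Finset.range M, γ h k *
          A1 (fun n => inner ℂ (x (n + h)) (x (n + k))) N - ∑ k ∈ (Finset.range M).erase h,
          γ h k * A1 (fun n => inner ℂ (x (n + h)) (x (n + k))) N)‖ ≤ M * (C₀ * D) ^ 2 := by
        refine (norm_sum_le _ _).trans ?_
        have h16 : ∀ h ∈ Finset.range M, ‖∑ k ∈ Finset.range M, γ h k *
          A1 (fun n => inner ℂ (x (n + h)) (x (n + k))) N - ∑ k ∈ (Finset.range M).erase h,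
          γ h k * A1 (fun n => inner ℂ (x (n + h)) (x (n + k))) N‖ ≤ (C₀ * D) ^ 2 := by
          intro h hh
          rw [← Finset.add_sum_erase _ _ hh, add_sub_cancel_right, norm_mul, mul_pow]
          apply mul_le_mul (hγ h) _ (norm_nonneg _) (by positivity)
          apply A1_bound (by positivity)
          intro n
          rw [pow_two]
          exact (norm_inner_le_norm _ _).trans (mul_le_mul (hx _) (hx _) (norm_nonneg _) hD)
        refine (Finset.sum_le_sum h16).trans ?_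
        rw [Finset.sum_const, Finset.card_range, nsmul_eq_mul]
      calc ((M : ℝ)⁻¹) ^ 2 * ‖_‖ ≤ ((M : ℝ)⁻¹) ^ 2 * (M * (C₀ * D) ^ 2) :=
            mul_le_mul_of_nonneg_left h15 (by positivity)
        _ = (C₀ * D) ^ 2 / M := by
          field_simp
    have h17 := le_of_tendsto h13.norm (Eventually.of_forall h14)
    rw [Complex.norm_real] at h17
    exact (Real.le_norm_self _).trans h17
  have hρ0 : ∀ M, 0 ≤ᵐ[P] ρ M := by
    intro M
    filter_upwards [hρ M] with ω hω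
    exact ge_of_tendsto hω (Eventually.of_forall fun N => hQ0 M N ω)
  have hρint : ∀ M, 1 ≤ M → Integrable (ρ M) P := by
    intro M hM
    have hm : AEStronglyMeasurable (ρ M) P := aestronglyMeasurable_of_tendsto_ae atTop
      (fun N => (hQm M N).aestronglyMeasurable) (hρ M)
    refine Integrable.of_bound hm ((C₀ * D) ^ 2) ?_
    filter_upwards [hρ M] with ω hω
    refine le_of_tendsto hω.norm (Eventually.of_forall fun N => ?_)
    rw [Real.norm_eq_abs, abs_of_nonneg (hQ0 M N ω)]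
    exact hQb M N ω hM
  have hsmall : ∀ ε : ℝ, 0 < ε → ∀ᵐ ω ∂P, ∃ M, 1 ≤ M ∧ ρ M ω < ε := by
    intro ε hε
    rw [ae_iff, ← nonpos_iff_eq_zero]
    apply ENNReal.le_of_forall_pos_le_add
    intro δ hδ _
    rw [zero_add]
    have hδ' : (0 : ℝ) < δ := by exact_mod_cast hδ
    obtain ⟨M, hM⟩ := exists_nat_gt ((C₀ * D) ^ 2 / (δ * ε))
    have hM1 : 1 ≤ M := by
      by_contra hcon
      have : M = 0 := by omega
      rw [this, Nat.cast_zero] at hM
      have : 0 ≤ (C₀ * D) ^ 2 / (δ * ε) := by positivity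
      linarith
    have hM0 : (0 : ℝ) < M := by exact_mod_cast hM1
    have hmk := mul_meas_ge_le_integral_of_nonneg (hρ0 M) (hρint M hM1) ε
    have h18 : P.real {ω | ε ≤ ρ M ω} ≤ δ := by
      have h19 : ε * P.real {ω | ε ≤ ρ M ω} ≤ ε * δ := by
        refine hmk.trans ((hρi M hM1).trans ?_)
        rw [div_le_iff₀ hM0]
        rw [div_lt_iff₀ (by positivity)] at hM
        nlinarith
      exact le_of_mul_le_mul_left h19 hε
    refine (measure_mono (t := {ω | ε ≤ ρ M ω}) fun ω hω => ?_).trans ?_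
    · by_contra hcon
      exact hω ⟨M, hM1, not_le.mp hcon⟩
    · have h20 : P {ω | ε ≤ ρ M ω} = ENNReal.ofReal (P.real {ω | ε ≤ ρ M ω}) := by
        rw [measureReal_def, ENNReal.ofReal_toReal (measure_ne_top _ _)]
      rw [h20]
      calc ENNReal.ofReal (P.real {ω | ε ≤ ρ M ω}) ≤ ENNReal.ofReal (δ : ℝ) :=
            ENNReal.ofReal_le_ofReal h18
        _ = δ := ENNReal.ofReal_coe_nnreal
  have hall : ∀ᵐ ω ∂P, ∀ i : ℕ, ∃ M, 1 ≤ M ∧ ρ M ω < (1 / ((i : ℝ) + 1)) ^ 2 :=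
    ae_all_iff.mpr fun i => hsmall _ (by positivity)
  have hallρ : ∀ᵐ ω ∂P, ∀ M, Tendsto (fun N => Q M N ω) atTop (𝓝 (ρ M ω)) :=
    ae_all_iff.mpr hρ
  filter_upwards [hall, hallρ] with ω hω hω'
  rw [Metric.tendsto_atTop]
  intro ε hε
  obtain ⟨i, hi⟩ := exists_nat_one_div_lt (half_pos hε)
  obtain ⟨M, hM1, hMρ⟩ := hω i
  have hM0 : (0 : ℝ) < M := by exact_mod_cast hM1
  have e1 := (tendsto_order.mp (hω' M)).2 _ hMρ
  have e2 : ∀ᶠ N : ℕ in atTop, 2 * M * (C₀ * D) / N < ε / 2 := by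
    have := tendsto_const_div_atTop_nhds_zero_nat (2 * M * (C₀ * D))
    exact (tendsto_order.mp this).2 _ (by positivity)
  obtain ⟨N₀, hN₀⟩ := eventually_atTop.mp (e1.and (e2.and (eventually_ge_atTop 1)))
  refine ⟨N₀, fun N hN => ?_⟩
  obtain ⟨f1, f2, f3⟩ := hN₀ N hN
  rw [dist_zero_right]
  have f4 := vdc_ineq (y := y ω) (by positivity : 0 ≤ C₀ * D) (hy ω) hM1 f3
  have f5 : Real.sqrt (Q M N ω) < ε / 2 := by
    have f6 : Real.sqrt (Q M N ω) ≤ 1 / ((i : ℝ) + 1) := by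
      rw [Real.sqrt_le_left (by positivity)]
      exact f1.le
    linarith
  calc ‖(N : ℂ)⁻¹ • ∑ n ∈ Finset.range N, F (τ^[n] ω) • x n‖ ≤
        Real.sqrt (Q M N ω) + 2 * M * (C₀ * D) / N := f4
    _ < ε := by linarith

end vdc

end Pool.Agent.W761.Gauss
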