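import Pool.Agent.W761.Gauss.Law

/-!
# Gaussian spaces of random variables
-/

set_option autoImplicit false

open Filter Topology MeasureTheory ProbabilityTheory
open scoped NNReal ENNReal

noncomputable section

namespace Pool.Agent.W761.Gauss

/-- A Gaussian space: a linear space of centered Gaussian random variables. -/
structure GaussSpace {X : Type*} [MeasurableSpace X] (μ : Measure X)
    (H : Submodule ℝ (X → ℝ)) : Prop where
  meas : ∀ h ∈ H, Measurable h
  law : ∀ h ∈ H, ∃ v : ℝ≥0, μ.map h = gaussianReal 0 v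

/-- The second moment. -/
def q {X : Type*} [MeasurableSpace X] (μ : Measure X) (h : X → ℝ) : ℝ := ∫ x, h x ^ 2 ∂μ

/-- The mixed moment. -/
def bil {X : Type*} [MeasurableSpace X] (μ : Measure X) (a b : X → ℝ) : ℝ := ∫ x, a x * b x ∂μ

variable {X : Type*} [MeasurableSpace X] {μ : Measure X} {H : Submodule ℝ (X → ℝ)}

theorem GaussSpace.memLp (hH : GaussSpace μ H) {h : X → ℝ} (hh : h ∈ H) : MemLp h 2 μ := by
  obtain ⟨v, hv⟩ := hH.law h hh
  have hm := hH.meas h hh
  have h1 : MemLp id 2 (μ.map h) := by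
    rw [hv]
    exact memLp_id_gaussianReal' 2 (by norm_num)
  have h2 := (memLp_map_measure_iff (g := id) (f := h) (p := 2) (μ := μ)
    h1.aestronglyMeasurable hm.aemeasurable).mp h1
  simpa using h2

theorem GaussSpace.expI (hH : GaussSpace μ H) {h : X → ℝ} (hh : h ∈ H) :
    ∫ x, Complex.exp (((h x : ℝ) : ℂ) * Complex.I) ∂μ = Complex.exp ((-(q μ h) / 2 : ℝ) : ℂ) := by
  obtain ⟨v, hv⟩ := hH.law h hh
  have hm := hH.meas h hh
  have h1 : ∫ x, Complex.exp (((h x : ℝ) : ℂ) * Complex.I) ∂μ = charFun (μ.map h) 1 := by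
    rw [charFun_apply_real, integral_map hm.aemeasurable]
    · simp
    · have : Continuous fun y : ℝ => Complex.exp (((1 : ℝ) : ℂ) * (y : ℂ) * Complex.I) := by
        fun_prop
      exact this.aestronglyMeasurable
  have h2 : q μ h = v := by
    have h3 : q μ h = ∫ y, y ^ 2 ∂(μ.map h) := by
      rw [integral_map hm.aemeasurable]
      · rfl
      · exact (continuous_pow 2).aestronglyMeasurable
    rw [h3, hv, ← variance_id_gaussianReal (μ := 0) (v := v), variance_of_integral_eq_zero]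
    · simp
    · exact aemeasurable_id
    · simp
  rw [h1, hv, charFun_gaussianReal, h2]
  congr 1
  push_cast
  ring

theorem GaussSpace.integrable_mul (hH : GaussSpace μ H) {a b : X → ℝ} (ha : a ∈ H) (hb : b ∈ H) :
    Integrable (fun x => a x * b x) μ :=
  (hH.memLp ha).integrable_mul (hH.memLp hb)

theorem GaussSpace.q_add (hH : GaussSpace μ H) {a b : X → ℝ} (ha : a ∈ H) (hb : b ∈ H) :
    q μ (a + b) = q μ a + q μ b + 2 * bil μ a b := by
  have h1 : Integrable (fun x => a x ^ 2) μ := by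
    have := hH.integrable_mul ha ha
    simpa [pow_two] using this
  have h2 : Integrable (fun x => b x ^ 2) μ := by
    have := hH.integrable_mul hb hb
    simpa [pow_two] using this
  have h3 := hH.integrable_mul ha hb
  have h4 : Integrable (fun x => a x ^ 2 + b x ^ 2) μ := h1.add h2
  rw [q, q, q, bil, ← integral_const_mul, ← integral_add h1 h2, ← integral_add h4
    (h3.const_mul 2)]
  apply integral_congr_ae
  refine Eventually.of_forall fun x => ?_
  simp only [Pi.add_apply]
  ring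

theorem q_neg (a : X → ℝ) : q μ (-a) = q μ a := by
  rw [q, q]
  simp

theorem bil_neg (a b : X → ℝ) : bil μ a (-b) = - bil μ a b := by
  rw [bil, bil, ← integral_neg]
  simp

theorem GaussSpace.q_sub (hH : GaussSpace μ H) {a b : X → ℝ} (ha : a ∈ H) (hb : b ∈ H) :
    q μ (a - b) = q μ a + q μ b - 2 * bil μ a b := by
  rw [sub_eq_add_neg, hH.q_add ha (H.neg_mem hb), q_neg, bil_neg]
  ring

theorem q_smul (c : ℝ) (a : X → ℝ) : q μ (c • a) = c ^ 2 * q μ a := by
  rw [q, q, ← integral_const_mul]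
  simp [mul_pow]

theorem q_zero : q μ (0 : X → ℝ) = 0 := by
  simp [q]

theorem bil_comm (a b : X → ℝ) : bil μ a b = bil μ b a := by
  simp only [bil, mul_comm]

theorem bil_self (a : X → ℝ) : bil μ a a = q μ a := by
  simp only [bil, q, pow_two]

theorem GaussSpace.bil_sum (hH : GaussSpace μ H) {ι : Type*} (s : Finset ι) {a : ι → X → ℝ}
    {b : X → ℝ} (ha : ∀ i ∈ s, a i ∈ H) (hb : b ∈ H) :
    bil μ b (∑ i ∈ s, a i) = ∑ i ∈ s, bil μ b (a i) := by
  simp only [bil]
  rw [← integral_finsetSum]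
  · apply integral_congr_ae
    refine Eventually.of_forall fun x => ?_
    simp only [Finset.sum_apply, Finset.mul_sum]
  · intro i hi
    exact hH.integrable_mul hb (ha i hi)

theorem GaussSpace.q_sum (hH : GaussSpace μ H) {ι : Type*} (s : Finset ι) {a : ι → X → ℝ}
    (ha : ∀ i ∈ s, a i ∈ H) :
    q μ (∑ i ∈ s, a i) = ∑ i ∈ s, ∑ j ∈ s, bil μ (a i) (a j) := by
  have hs : ∑ i ∈ s, a i ∈ H := H.sum_mem ha
  rw [← bil_self, hH.bil_sum s ha hs]
  rw [Finset.sum_comm]
  apply Finset.sum_congr rfl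
  intro i hi
  rw [bil_comm, hH.bil_sum s ha (ha i hi)]
  apply Finset.sum_congr rfl
  intro j _
  rw [bil_comm]

/-- The variance identity behind the stationarity. -/
theorem GaussSpace.q_identity (hH : GaussSpace μ H) {J : Type*} [Fintype J] {a : J → X → ℝ}
    (ha : ∀ i, a i ∈ H) :
    q μ (∑ i, a i) + ∑ i, ∑ j, 2⁻¹ * q μ (a i - a j) = (Fintype.card J : ℝ) * ∑ i, q μ (a i) := by
  rw [hH.q_sum _ fun i _ => ha i]
  have h1 : ∀ i j, 2⁻¹ * q μ (a i - a j) = 2⁻¹ * q μ (a i) + 2⁻¹ * q μ (a j) -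
      bil μ (a i) (a j) := by
    intro i j
    rw [hH.q_sub (ha i) (ha j)]
    ring
  simp only [h1, Finset.sum_sub_distrib, Finset.sum_add_distrib, Finset.sum_const,
    Finset.card_univ, nsmul_eq_mul, ← Finset.mul_sum]
  ring

theorem GaussSpace.q_par (hH : GaussSpace μ H) {a b : X → ℝ} (ha : a ∈ H) (hb : b ∈ H) :
    q μ (a - b) + q μ (a + b) = 2 * q μ a + 2 * q μ b := by
  rw [hH.q_sub ha hb, hH.q_add ha hb]
  ring

theorem q_comp {T : X → X} (hT : MeasurePreserving T μ μ) {h : X → ℝ} (hh : Measurable h) :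
    q μ (h ∘ T) = q μ h := by
  have h1 : ∫ x, h x ^ 2 ∂(μ.map T) = ∫ x, h (T x) ^ 2 ∂μ := by
    rw [integral_map hT.measurable.aemeasurable]
    exact ((hh.pow_const 2)).aestronglyMeasurable
  rw [hT.map_eq] at h1
  rw [q, q, h1]
  rfl

end Pool.Agent.W761.Gauss
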